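import Mathlib

set_option autoImplicit false

namespace Pool.Agent.Lib.MP_ea66ba_co

open Finset Matrix

/-- the nontrivial character of `ZMod 2` with values in the integers. -/
def chi (x : ZMod 2) : ℤ := (-1) ^ x.val

lemma chi_zero : chi 0 = 1 := by simp [chi]

lemma chi_one : chi 1 = -1 := by simp [chi, ZMod.val_one]

lemma chi_add (x y : ZMod 2) : chi (x + y) = chi x * chi y := by
  revert x y; decide

lemma chi_mul_self (x : ZMod 2) : chi x * chi x = 1 := by
  revert x; decide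

lemma chi_cases (x : ZMod 2) : chi x = 1 ∨ chi x = -1 := by
  revert x; decide

lemma chi_eq (x : ZMod 2) : chi x = 1 - 2 * (x.val : ℤ) := by
  revert x; decide

lemma abs_chi (x : ZMod 2) : |chi x| = 1 := by
  rcases chi_cases x with h | h <;> rw [h] <;> norm_num

variable {n : ℕ}

lemma add_self_vec (x : Fin n → ZMod 2) : x + x = 0 := by
  funext i
  simpa using CharTwo.add_self_eq_zero (x i)

lemma add_eq_zero_iff_vec (x y : Fin n → ZMod 2) : x + y = 0 ↔ y = x := by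
  constructor
  · intro h
    have : x + (x + y) = x := by rw [h, add_zero]
    rwa [← add_assoc, add_self_vec, zero_add] at this
  · rintro rfl
    exact add_self_vec _

lemma sum_shift (g : (Fin n → ZMod 2) → ℤ) (t : Fin n → ZMod 2) :
    ∑ x, g (x + t) = ∑ x, g x :=
  Equiv.sum_comp (Equiv.addRight t) g

lemma sum_chi_dot (x : Fin n → ZMod 2) :
    ∑ u : Fin n → ZMod 2, chi (u ⬝ᵥ x) = if x = 0 then 2 ^ n else 0 := by
  split_ifs with h
  · subst h
    simp [chi_zero]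
  · obtain ⟨i, hi⟩ : ∃ i, x i ≠ 0 := by
      by_contra hcon
      push Not at hcon
      exact h (funext hcon)
    have hi1 : x i = 1 := by
      have : ∀ a : ZMod 2, a ≠ 0 → a = 1 := by decide
      exact this _ hi
    have h1 := sum_shift (fun u => chi (u ⬝ᵥ x)) (Pi.single i 1)
    have h2 : ∀ u : Fin n → ZMod 2, chi ((u + Pi.single i 1) ⬝ᵥ x) = - chi (u ⬝ᵥ x) := by
      intro u
      rw [add_dotProduct, single_dotProduct, hi1, chi_add]
      simp [chi_one]
    simp only [h2, sum_neg_distrib] at h1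
    linarith

/-- Walsh transform. -/
def W (f : (Fin n → ZMod 2) → (Fin n → ZMod 2)) (b u : Fin n → ZMod 2) : ℤ :=
  ∑ v, chi (b ⬝ᵥ f v + u ⬝ᵥ v)

/-- autocorrelation. -/
def AC (f : (Fin n → ZMod 2) → (Fin n → ZMod 2)) (b e : Fin n → ZMod 2) : ℤ :=
  ∑ v, chi (b ⬝ᵥ (f v + f (v + e)))

lemma sum_W_sq (f : (Fin n → ZMod 2) → (Fin n → ZMod 2)) (b e : Fin n → ZMod 2) :
    ∑ u, W f b u ^ 2 * chi (u ⬝ᵥ e) = 2 ^ n * AC f b e := by
  have h1 : ∀ u, W f b u ^ 2 * chi (u ⬝ᵥ e) =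
      ∑ v, ∑ w, chi (b ⬝ᵥ (f v + f w)) * chi (u ⬝ᵥ (v + w + e)) := by
    intro u
    rw [sq, W, sum_mul_sum, sum_mul]
    refine sum_congr rfl fun v _ => ?_
    rw [sum_mul]
    refine sum_congr rfl fun w _ => ?_
    rw [dotProduct_add, dotProduct_add, dotProduct_add, chi_add, chi_add, chi_add, chi_add,
      chi_add]
    ring
  simp only [h1]
  rw [sum_comm]
  rw [AC, mul_sum]
  refine sum_congr rfl fun v _ => ?_
  rw [sum_comm]
  simp only [← mul_sum, sum_chi_dot]
  have h2 : ∀ w : Fin n → ZMod 2, (v + w + e = 0) ↔ (w = v + e) := by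
    intro w
    rw [show v + w + e = (v + e) + w by abel, add_eq_zero_iff_vec]
  simp only [h2, mul_ite, mul_zero]
  rw [sum_ite_eq' univ (v + e) (fun w => chi (b ⬝ᵥ (f v + f w)) * 2 ^ n)]
  simp [mul_comm]

lemma parseval (g : (Fin n → ZMod 2) → ℤ) :
    ∑ e : Fin n → ZMod 2, (∑ u, g u * chi (u ⬝ᵥ e)) ^ 2 = 2 ^ n * ∑ u, g u ^ 2 := by
  have h1 : ∀ e : Fin n → ZMod 2, (∑ u, g u * chi (u ⬝ᵥ e)) ^ 2 =
      ∑ u, ∑ w, g u * g w * chi (e ⬝ᵥ (u + w)) := by
    intro e
    rw [sq, sum_mul_sum]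
    refine sum_congr rfl fun u _ => sum_congr rfl fun w _ => ?_
    rw [dotProduct_comm u e, dotProduct_comm w e, dotProduct_add, chi_add]
    ring
  simp only [h1]
  rw [sum_comm, mul_sum]
  refine sum_congr rfl fun u _ => ?_
  rw [sum_comm]
  simp only [← mul_sum, sum_chi_dot, add_eq_zero_iff_vec, mul_ite, mul_zero]
  rw [sum_ite_eq' univ u (fun w => g u * g w * 2 ^ n)]
  simp only [mem_univ, if_true]
  ring

lemma sum_AC_sq (f : (Fin n → ZMod 2) → (Fin n → ZMod 2)) (b : Fin n → ZMod 2) :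
    2 ^ n * ∑ e, AC f b e ^ 2 = ∑ u, W f b u ^ 4 := by
  have h := parseval (fun u => W f b u ^ 2)
  simp only [sum_W_sq, mul_pow, ← mul_sum] at h
  have h2 : ∑ u, (W f b u ^ 2) ^ 2 = ∑ u, W f b u ^ 4 :=
    sum_congr rfl fun u _ => by ring
  rw [h2] at h
  have h3 : (2 : ℤ) ^ n ≠ 0 := by positivity
  apply mul_left_cancel₀ h3
  rw [← h]
  ring

lemma AC_zero_right (f : (Fin n → ZMod 2) → (Fin n → ZMod 2)) (b : Fin n → ZMod 2) :
    AC f b 0 = 2 ^ n := by
  simp [AC, add_self_vec, chi_zero]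

lemma AC_zero_left (f : (Fin n → ZMod 2) → (Fin n → ZMod 2)) (e : Fin n → ZMod 2) :
    AC f 0 e = 2 ^ n := by
  simp [AC, chi_zero]

lemma sum_b_AC_sq (f : (Fin n → ZMod 2) → (Fin n → ZMod 2)) (e : Fin n → ZMod 2)
    (he : e ≠ 0) : 2 * (2 ^ n) ^ 2 ≤ ∑ b, AC f b e ^ 2 := by
  have h1 : ∀ b : Fin n → ZMod 2, AC f b e ^ 2 =
      ∑ x, ∑ y, chi (b ⬝ᵥ ((f x + f (x + e)) + (f y + f (y + e)))) := by
    intro b
    rw [AC, sq, sum_mul_sum]
    refine sum_congr rfl fun u _ => sum_congr rfl fun w _ => ?_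
    rw [dotProduct_add b (f u + f (u + e)), chi_add]
  simp only [h1]
  rw [sum_comm]
  have h2 : ∀ x : Fin n → ZMod 2, (2 : ℤ) * 2 ^ n ≤
      ∑ b : Fin n → ZMod 2, ∑ y, chi (b ⬝ᵥ ((f x + f (x + e)) + (f y + f (y + e)))) := by
    intro x
    rw [sum_comm]
    simp only [sum_chi_dot]
    have hne : x ≠ x + e := by
      intro h
      apply he
      have := congrArg (fun z => x + z) h
      simp only [← add_assoc, add_self_vec, zero_add] at this
      exact this.symm
    have h3 : ∑ y ∈ ({x, x + e} : Finset (Fin n → ZMod 2)),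
        (if ((f x + f (x + e)) + (f y + f (y + e))) = 0 then (2 : ℤ) ^ n else 0) =
        2 * 2 ^ n := by
      rw [sum_pair hne]
      have e1 : (f x + f (x + e)) + (f x + f (x + e)) = 0 := add_self_vec _
      have e2 : (f x + f (x + e)) + (f (x + e) + f (x + e + e)) = 0 := by
        rw [add_assoc x e e, add_self_vec, add_zero, add_comm (f (x + e)) (f x)]
        exact add_self_vec _
      rw [if_pos e1, if_pos e2]
      ring
    rw [← h3]
    apply sum_le_sum_of_subset_of_nonneg (subset_univ _)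
    intro y _ _
    split_ifs <;> positivity
  calc (2 : ℤ) * (2 ^ n) ^ 2 = ∑ x : Fin n → ZMod 2, (2 : ℤ) * 2 ^ n := by
        simp
        ring
    _ ≤ _ := sum_le_sum fun x _ => h2 x

end Pool.Agent.Lib.MP_ea66ba_co
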