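import Mathlib
import Pool.Agent.Lib.MP_ea66ba_co.Walsh

set_option autoImplicit false

namespace Pool.Agent.Lib.MP_ea66ba_co

open Finset Matrix

variable {n : ℕ}

/-- additive functionals are dot products. -/
lemma exists_dot (φ : (Fin n → ZMod 2) → ZMod 2) (h : ∀ s t, φ (s + t) = φ s + φ t) :
    ∃ w : Fin n → ZMod 2, ∀ s, φ s = w ⬝ᵥ s := by
  have h0 : φ 0 = 0 := by
    have := h 0 0
    rw [add_zero] at this
    have h2 : ∀ a : ZMod 2, a = a + a → a = 0 := by decide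
    exact h2 _ this
  let ψ : (Fin n → ZMod 2) →+ ZMod 2 := { toFun := φ, map_zero' := h0, map_add' := h }
  let L := AddMonoidHom.toZModLinearMap 2 ψ
  refine ⟨fun i => φ (fun j => if i = j then 1 else 0), fun s => ?_⟩
  have := LinearMap.pi_apply_eq_sum_univ L s
  simp only [dotProduct]
  have e1 : L s = φ s := rfl
  rw [← e1, this]
  refine sum_congr rfl fun i _ => ?_
  rw [smul_eq_mul, mul_comm]
  rfl

lemma structure_aux (p : (Fin n → ZMod 2) → (Fin n → ZMod 2) → ZMod 2)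
    (h0 : ∀ u, p 0 u = 0)
    (h3 : ∀ b1 u1 b2 u2 b3 u3, p 0 0 + p b1 u1 + p b2 u2 + p b3 u3 + p (b1 + b2) (u1 + u2)
      + p (b1 + b3) (u1 + u3) + p (b2 + b3) (u2 + u3) + p (b1 + b2 + b3) (u1 + u2 + u3) = 0) :
    ∃ e : (Fin n → ZMod 2) → (Fin n → ZMod 2), (∀ b b', e (b + b') = e b + e b') ∧
      ∀ b u, p b u = p b 0 + e b ⬝ᵥ u := by
  have hadd : ∀ b s t, p b (s + t) + p b 0 = (p b s + p b 0) + (p b t + p b 0) := by
    intro b s t
    have := h3 b 0 0 s 0 t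
    simp only [add_zero, zero_add, h0] at this
    have key : ∀ a c d k : ZMod 2, a + c + d + k = 0 → k + a = (c + a) + (d + a) := by decide
    exact key _ _ _ _ this
  have hex : ∀ b, ∃ w : Fin n → ZMod 2, ∀ s, p b s + p b 0 = w ⬝ᵥ s := fun b =>
    exists_dot (fun s => p b s + p b 0) (hadd b)
  choose e he using hex
  refine ⟨e, ?_, ?_⟩
  · intro b b'
    have hd : ∀ s, e (b + b') ⬝ᵥ s = (e b + e b') ⬝ᵥ s := by
      intro s
      rw [add_dotProduct, ← he, ← he, ← he]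
      have := h3 b 0 b' 0 0 s
      simp only [add_zero, zero_add, h0] at this
      have key : ∀ a c d k l m : ZMod 2, a + c + d + k + l + m = 0 →
          m + d = (k + a) + (l + c) := by decide
      exact key _ _ _ _ _ _ this
    funext i
    have := hd (Pi.single i 1)
    simpa using this
  · intro b u
    rw [← he b u]
    have key : ∀ a c : ZMod 2, a = c + (a + c) := by decide
    exact key _ _

lemma third_diff (f : (Fin n → ZMod 2) → (Fin n → ZMod 2))
    (b1 u1 b2 u2 b3 u3 : Fin n → ZMod 2) :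
    (8 : ℤ) ∣ W f 0 0 + W f b1 u1 + W f b2 u2 + W f b3 u3 + W f (b1 + b2) (u1 + u2)
      + W f (b1 + b3) (u1 + u3) + W f (b2 + b3) (u2 + u3)
      + W f (b1 + b2 + b3) (u1 + u2 + u3) := by
  have h : W f 0 0 + W f b1 u1 + W f b2 u2 + W f b3 u3 + W f (b1 + b2) (u1 + u2)
      + W f (b1 + b3) (u1 + u3) + W f (b2 + b3) (u2 + u3)
      + W f (b1 + b2 + b3) (u1 + u2 + u3) =
      ∑ v, (1 + chi (b1 ⬝ᵥ f v + u1 ⬝ᵥ v)) * (1 + chi (b2 ⬝ᵥ f v + u2 ⬝ᵥ v)) *
        (1 + chi (b3 ⬝ᵥ f v + u3 ⬝ᵥ v)) := by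
    simp only [W, ← sum_add_distrib]
    refine sum_congr rfl fun v _ => ?_
    simp only [add_dotProduct, zero_dotProduct, chi_add, chi_zero]
    ring
  rw [h]
  refine dvd_sum fun v _ => ?_
  have h2 : ∀ x y z : ZMod 2, (8 : ℤ) ∣ (1 + chi x) * (1 + chi y) * (1 + chi z) := by decide
  exact h2 _ _ _

lemma sum_all_vec (hn : 2 ≤ n) : ∑ v : Fin n → ZMod 2, v = 0 := by
  funext i
  rw [Finset.sum_apply]
  obtain ⟨j, hj⟩ : ∃ j : Fin n, j ≠ i := by
    by_contra hcon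
    push Not at hcon
    have h0 := hcon ⟨0, by omega⟩
    have h1 := hcon ⟨1, by omega⟩
    have := h0.trans h1.symm
    simp [Fin.ext_iff] at this
  have hinv : ∀ v : Fin n → ZMod 2, v i + (v + Pi.single j 1 : Fin n → ZMod 2) i = 0 := by
    intro v
    have : (Pi.single j 1 : Fin n → ZMod 2) i = 0 := Pi.single_eq_of_ne (Ne.symm hj) 1
    rw [Pi.add_apply, this, add_zero]
    exact CharTwo.add_self_eq_zero _
  have := Finset.sum_involution (s := (univ : Finset (Fin n → ZMod 2))) (f := fun v => v i)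
    (fun v _ => v + Pi.single j 1) (fun v _ => hinv v) ?_ (fun v _ => mem_univ _) ?_
  · simpa using this
  · intro v _ _ h
    have := congrFun h j
    simp at this
  · intro v _
    rw [add_assoc, add_self_vec, add_zero]

lemma four_dvd_W (hn : 2 ≤ n) (f : (Fin n → ZMod 2) → (Fin n → ZMod 2))
    (hf : ∑ v, f v = 0) (b u : Fin n → ZMod 2) : (4 : ℤ) ∣ W f b u := by
  have h1 : W f b u = 2 ^ n - 2 * ((∑ v, (b ⬝ᵥ f v + u ⬝ᵥ v).val : ℕ) : ℤ) := by
    simp only [W, chi_eq, sum_sub_distrib, ← mul_sum]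
    push_cast
    simp
  have h2 : ((∑ v : Fin n → ZMod 2, (b ⬝ᵥ f v + u ⬝ᵥ v).val : ℕ) : ZMod 2) = 0 := by
    push_cast
    simp only [ZMod.natCast_val, ZMod.cast_id', id_eq]
    rw [sum_add_distrib, ← dotProduct_sum, ← dotProduct_sum, hf, sum_all_vec hn]
    simp
  rw [ZMod.natCast_eq_zero_iff] at h2
  obtain ⟨k, hk⟩ := h2
  rw [h1, hk]
  obtain ⟨m, hm⟩ : ∃ m, n = m + 2 := ⟨n - 2, by omega⟩
  rw [hm, pow_add]
  push_cast
  exact ⟨2 ^ m - k, by ring⟩

lemma W_zero (f : (Fin n → ZMod 2) → (Fin n → ZMod 2)) (u : Fin n → ZMod 2) :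
    W f 0 u = if u = 0 then 2 ^ n else 0 := by
  rw [← sum_chi_dot u, W]
  refine sum_congr rfl fun v _ => ?_
  rw [zero_dotProduct, zero_add, dotProduct_comm]

end Pool.Agent.Lib.MP_ea66ba_co
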