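import Mathlib
import Pool.Agent.Lib.MP_ea66ba_co.Parity

set_option autoImplicit false

namespace Pool.Agent.Lib.MP_ea66ba_co

open Finset Matrix

/-- The data extracted from a function on the 6-dimensional space with zero sum and
linearity less than 16. -/
structure SixData (f : (Fin 6 → ZMod 2) → (Fin 6 → ZMod 2)) where
  /-- slope map -/
  e : (Fin 6 → ZMod 2) → (Fin 6 → ZMod 2)
  /-- constant terms -/
  q : (Fin 6 → ZMod 2) → ZMod 2
  e_add : ∀ b b', e (b + b') = e b + e b'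
  q_zero : q 0 = 0
  q3 : ∀ a b c, q a + q b + q c + q (a + b) + q (a + c) + q (b + c) + q (a + b + c) = 0
  par : ∀ b u, ((W f b u / 4 : ℤ) : ZMod 2) = q b + e b ⬝ᵥ u
  four : ∀ b u, (4 : ℤ) ∣ W f b u
  bound : ∀ b, b ≠ 0 → ∀ u, |W f b u| ≤ 12

lemma exists_sixData (f : (Fin 6 → ZMod 2) → (Fin 6 → ZMod 2)) (hf : ∑ v, f v = 0)
    (hW : ∀ b, b ≠ 0 → ∀ u, |W f b u| < 16) : Nonempty (SixData f) := by
  have h4 : ∀ b u, (4 : ℤ) ∣ W f b u := fun b u => four_dvd_W (by norm_num) f hf b u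
  have h0 : ∀ u, ((W f 0 u / 4 : ℤ) : ZMod 2) = 0 := by
    intro u
    rw [W_zero]
    split_ifs
    · norm_num
      decide
    · simp
  have h3 : ∀ b1 u1 b2 u2 b3 u3 : Fin 6 → ZMod 2,
      ((W f 0 0 / 4 : ℤ) : ZMod 2) + ((W f b1 u1 / 4 : ℤ) : ZMod 2)
      + ((W f b2 u2 / 4 : ℤ) : ZMod 2) + ((W f b3 u3 / 4 : ℤ) : ZMod 2)
      + ((W f (b1 + b2) (u1 + u2) / 4 : ℤ) : ZMod 2)
      + ((W f (b1 + b3) (u1 + u3) / 4 : ℤ) : ZMod 2)
      + ((W f (b2 + b3) (u2 + u3) / 4 : ℤ) : ZMod 2)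
      + ((W f (b1 + b2 + b3) (u1 + u2 + u3) / 4 : ℤ) : ZMod 2) = 0 := by
    intro b1 u1 b2 u2 b3 u3
    rw [← Int.cast_add, ← Int.cast_add, ← Int.cast_add, ← Int.cast_add, ← Int.cast_add,
      ← Int.cast_add, ← Int.cast_add]
    rw [ZMod.intCast_zmod_eq_zero_iff_dvd]
    have ht := third_diff f b1 u1 b2 u2 b3 u3
    have a0 := h4 0 0
    have a1 := h4 b1 u1
    have a2 := h4 b2 u2
    have a3 := h4 b3 u3
    have a4 := h4 (b1 + b2) (u1 + u2)
    have a5 := h4 (b1 + b3) (u1 + u3)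
    have a6 := h4 (b2 + b3) (u2 + u3)
    have a7 := h4 (b1 + b2 + b3) (u1 + u2 + u3)
    push_cast
    omega
  obtain ⟨e, he1, he2⟩ := structure_aux (fun b u => ((W f b u / 4 : ℤ) : ZMod 2)) h0 h3
  refine ⟨⟨e, fun b => ((W f b 0 / 4 : ℤ) : ZMod 2), he1, h0 0, ?_, he2, h4, ?_⟩⟩
  · intro a b c
    have := h3 a 0 b 0 c 0
    simp only [add_zero, h0, zero_add] at this
    exact this
  · intro b hb u
    have h1 := hW b hb u
    have h2 := h4 b u
    rw [abs_lt] at h1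
    rw [abs_le]
    omega

variable {f : (Fin 6 → ZMod 2) → (Fin 6 → ZMod 2)}

lemma ptwise (w : ℤ) (h4 : (4 : ℤ) ∣ w) (hw : |w| ≤ 12) :
    w ^ 4 = 16 * w ^ 2 * (7 - 3 * chi ((w / 4 : ℤ) : ZMod 2))
      - 1152 * (1 - chi ((w / 4 : ℤ) : ZMod 2)) := by
  obtain ⟨a, rfl⟩ := h4
  rw [abs_le] at hw
  have ha1 : -3 ≤ a := by omega
  have ha2 : a ≤ 3 := by omega
  rw [Int.mul_ediv_cancel_left a (by norm_num : (4 : ℤ) ≠ 0)]
  have e1 : chi ((1 : ℤ) : ZMod 2) = -1 := by decide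
  have e2 : chi ((2 : ℤ) : ZMod 2) = 1 := by decide
  have e3 : chi ((3 : ℤ) : ZMod 2) = -1 := by decide
  have e0 : chi ((0 : ℤ) : ZMod 2) = 1 := by decide
  have e4 : chi ((-1 : ℤ) : ZMod 2) = -1 := by decide
  have e5 : chi ((-2 : ℤ) : ZMod 2) = 1 := by decide
  have e6 : chi ((-3 : ℤ) : ZMod 2) = -1 := by decide
  interval_cases a
  · rw [e6]; norm_num
  · rw [e5]; norm_num
  · rw [e4]; norm_num
  · rw [e0]; norm_num
  · rw [e1]; norm_num
  · rw [e2]; norm_num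
  · rw [e3]; norm_num

namespace SixData

variable (D : SixData f)

/-- sign -/
def s (b : Fin 6 → ZMod 2) : ℤ := chi (D.q b)

/-- signed autocorrelation at the slope -/
def T (b : Fin 6 → ZMod 2) : ℤ := D.s b * AC f b (D.e b)

/-- correction -/
def Z (b : Fin 6 → ZMod 2) : ℤ := if D.e b = 0 then D.s b else 0

lemma s_sq (b : Fin 6 → ZMod 2) : D.s b * D.s b = 1 := chi_mul_self _

lemma s_cases (b : Fin 6 → ZMod 2) : D.s b = 1 ∨ D.s b = -1 := chi_cases _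

lemma e_zero : D.e 0 = 0 := by
  have := D.e_add 0 0
  rw [add_zero, add_self_vec] at this
  exact this

/-- autocorrelation energy of a component. -/
lemma energy (b : Fin 6 → ZMod 2) (hb : b ≠ 0) :
    ∑ e, AC f b e ^ 2 = 6016 - 48 * D.T b + 1152 * D.Z b := by
  have h1 : ∀ u, W f b u ^ 4 = 112 * (W f b u ^ 2 * chi (u ⬝ᵥ (0 : Fin 6 → ZMod 2)))
      - 48 * D.s b * (W f b u ^ 2 * chi (u ⬝ᵥ D.e b)) - 1152
      + 1152 * D.s b * chi (u ⬝ᵥ D.e b) := by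
    intro u
    rw [ptwise _ (D.four b u) (D.bound b hb u), D.par b u, chi_add, dotProduct_comm,
      dotProduct_zero, chi_zero, s]
    ring
  have h2 : ∑ u, W f b u ^ 4 = 112 * (2 ^ 6 * AC f b 0) - 48 * D.s b * (2 ^ 6 * AC f b (D.e b))
      - 1152 * 64 + 1152 * D.s b * (if D.e b = 0 then 2 ^ 6 else 0) := by
    simp only [h1, sum_add_distrib, sum_sub_distrib, ← mul_sum, sum_W_sq, sum_chi_dot]
    simp
  have h3 := sum_AC_sq f b
  rw [h2, AC_zero_right] at h3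
  rw [T, Z]
  split_ifs at h3 ⊢ with h
  · linarith
  · linarith

lemma energy_ne (b : Fin 6 → ZMod 2) (hb : b ≠ 0) :
    ∑ e ∈ univ.erase (0 : Fin 6 → ZMod 2), AC f b e ^ 2 =
      1920 - 48 * D.T b + 1152 * D.Z b := by
  have h := D.energy b hb
  rw [← add_sum_erase univ _ (mem_univ (0 : Fin 6 → ZMod 2)), AC_zero_right] at h
  linarith

/-- the main (fourth moment) inequality. -/
lemma main_ineq : 2856 ≤ ∑ b ∈ univ.erase (0 : Fin 6 → ZMod 2), (24 * D.Z b - D.T b) := by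
  have h1 : ∑ b ∈ univ.erase (0 : Fin 6 → ZMod 2), ∑ e, AC f b e ^ 2 =
      ∑ b ∈ univ.erase (0 : Fin 6 → ZMod 2), (6016 + 48 * (24 * D.Z b - D.T b)) := by
    refine sum_congr rfl fun b hb => ?_
    rw [D.energy b (ne_of_mem_erase hb)]
    ring
  rw [sum_add_distrib, ← mul_sum] at h1
  have hc : (univ.erase (0 : Fin 6 → ZMod 2)).card = 63 := by
    rw [card_erase_of_mem (mem_univ _), card_univ]
    simp
  rw [sum_const, hc] at h1
  have h2 : ∑ b : Fin 6 → ZMod 2, ∑ e, AC f b e ^ 2 =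
      64 * 4096 + ∑ b ∈ univ.erase (0 : Fin 6 → ZMod 2), ∑ e, AC f b e ^ 2 := by
    rw [← add_sum_erase univ _ (mem_univ (0 : Fin 6 → ZMod 2))]
    congr 1
    simp [AC_zero_left]
  have h3 : ∑ b : Fin 6 → ZMod 2, ∑ e, AC f b e ^ 2 =
      64 * 4096 + ∑ e ∈ univ.erase (0 : Fin 6 → ZMod 2), ∑ b, AC f b e ^ 2 := by
    rw [sum_comm, ← add_sum_erase univ _ (mem_univ (0 : Fin 6 → ZMod 2))]
    congr 1
    simp [AC_zero_right]
  have h4 : ∑ e ∈ univ.erase (0 : Fin 6 → ZMod 2), (8192 : ℤ) ≤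
      ∑ e ∈ univ.erase (0 : Fin 6 → ZMod 2), ∑ b, AC f b e ^ 2 := by
    refine sum_le_sum fun e he => ?_
    have := sum_b_AC_sq f e (ne_of_mem_erase he)
    norm_num at this ⊢
    exact this
  rw [sum_const, hc] at h4
  simp only [nsmul_eq_mul] at h1 h4
  push_cast at h1 h4
  linarith

end SixData

end Pool.Agent.Lib.MP_ea66ba_co
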