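import Mathlib
import Pool.Agent.Lib.MP_ea66ba_co.Six

set_option autoImplicit false

namespace Pool.Agent.Lib.MP_ea66ba_co

open Finset Matrix

variable {f : (Fin 6 → ZMod 2) → (Fin 6 → ZMod 2)}

namespace SixData

variable (D : SixData f)

/-- kernel of the slope map -/
def K : Finset (Fin 6 → ZMod 2) := univ.filter fun b => D.e b = 0

lemma mem_K (b : Fin 6 → ZMod 2) : b ∈ D.K ↔ D.e b = 0 := by simp [K]

lemma pair_ineq (k b : Fin 6 → ZMod 2) (hk : D.e k = 0) :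
    - D.T b - D.T (b + k) ≤ 64 + |AC f k (D.e b)| := by
  have he : D.e (b + k) = D.e b := by rw [D.e_add, hk, add_zero]
  have h1 : 0 ≤ ∑ x, (1 + D.s b * chi (b ⬝ᵥ (f x + f (x + D.e b)))) *
      (1 + D.s (b + k) * chi ((b + k) ⬝ᵥ (f x + f (x + D.e b)))) := by
    refine sum_nonneg fun x _ => ?_
    rcases D.s_cases b with h | h <;> rcases D.s_cases (b + k) with h' | h' <;>
      rcases chi_cases (b ⬝ᵥ (f x + f (x + D.e b))) with h2 | h2 <;>
      rcases chi_cases ((b + k) ⬝ᵥ (f x + f (x + D.e b))) with h3 | h3 <;>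
      rw [h, h', h2, h3] <;> norm_num
  have h2 : ∑ x, (1 + D.s b * chi (b ⬝ᵥ (f x + f (x + D.e b)))) *
      (1 + D.s (b + k) * chi ((b + k) ⬝ᵥ (f x + f (x + D.e b)))) =
      64 + D.T b + D.T (b + k) + D.s b * D.s (b + k) * AC f k (D.e b) := by
    have h3 : ∀ x, (1 + D.s b * chi (b ⬝ᵥ (f x + f (x + D.e b)))) *
      (1 + D.s (b + k) * chi ((b + k) ⬝ᵥ (f x + f (x + D.e b)))) =
      1 + D.s b * chi (b ⬝ᵥ (f x + f (x + D.e b))) +
        D.s (b + k) * chi ((b + k) ⬝ᵥ (f x + f (x + D.e b))) +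
        D.s b * D.s (b + k) * chi (k ⬝ᵥ (f x + f (x + D.e b))) := by
      intro x
      have h4 := chi_mul_self (b ⬝ᵥ (f x + f (x + D.e b)))
      rw [add_dotProduct b k, chi_add]
      linear_combination D.s b * D.s (b + k) * chi (k ⬝ᵥ (f x + f (x + D.e b))) * h4
    simp only [h3, sum_add_distrib, ← mul_sum]
    rw [T, T, he, AC, AC, AC]
    simp
  rw [h2] at h1
  have h5 : D.s b * D.s (b + k) * AC f k (D.e b) ≤ |AC f k (D.e b)| := by
    rcases D.s_cases b with h | h <;> rcases D.s_cases (b + k) with h' | h' <;> rw [h, h']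
    · simpa using le_abs_self _
    · simpa using neg_le_abs _
    · simpa using neg_le_abs _
    · simpa using le_abs_self _
  linarith

lemma zero_mem_K : (0 : Fin 6 → ZMod 2) ∈ D.K := (D.mem_K 0).2 D.e_zero

lemma T_of_mem (b : Fin 6 → ZMod 2) (h : b ∈ D.K) : D.T b = 64 * D.s b := by
  rw [T, (D.mem_K b).1 h, AC_zero_right]
  ring

lemma Z_of_mem (b : Fin 6 → ZMod 2) (h : b ∈ D.K) : D.Z b = D.s b := by
  rw [Z, if_pos ((D.mem_K b).1 h)]

lemma Z_of_not_mem (b : Fin 6 → ZMod 2) (h : b ∉ D.K) : D.Z b = 0 := by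
  rw [Z, if_neg fun h' => h ((D.mem_K b).2 h')]

lemma outside_lower : 2856 - 40 * ((D.K.card : ℤ) - 1) ≤ ∑ b ∈ D.Kᶜ, (- D.T b) := by
  have h := D.main_ineq
  have h1 : (univ.erase (0 : Fin 6 → ZMod 2)) = D.K.erase 0 ∪ D.Kᶜ := by
    ext b
    simp only [mem_erase, mem_univ, and_true, mem_union, mem_compl]
    constructor
    · intro hb
      by_cases hk : b ∈ D.K
      · exact Or.inl ⟨hb, hk⟩
      · exact Or.inr hk
    · rintro (⟨hb, _⟩ | hb)
      · exact hb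
      · rintro rfl
        exact hb D.zero_mem_K
  have hdis : Disjoint (D.K.erase 0) D.Kᶜ := by
    rw [Finset.disjoint_left]
    intro b hb hb'
    exact (mem_compl.1 hb') (mem_of_mem_erase hb)
  rw [h1, sum_union hdis] at h
  have h2 : ∑ b ∈ D.Kᶜ, (24 * D.Z b - D.T b) = ∑ b ∈ D.Kᶜ, (- D.T b) :=
    sum_congr rfl fun b hb => by rw [D.Z_of_not_mem b (mem_compl.1 hb)]; ring
  have h3 : ∑ b ∈ D.K.erase 0, (24 * D.Z b - D.T b) ≤ ∑ b ∈ D.K.erase 0, (40 : ℤ) := by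
    refine sum_le_sum fun b hb => ?_
    have hb' := mem_of_mem_erase hb
    rw [D.Z_of_mem b hb', D.T_of_mem b hb']
    rcases D.s_cases b with h | h <;> rw [h] <;> norm_num
  rw [sum_const, card_erase_of_mem D.zero_mem_K, nsmul_eq_mul] at h3
  have hpos : 1 ≤ D.K.card := card_pos.2 ⟨0, D.zero_mem_K⟩
  rw [Nat.cast_sub hpos] at h3
  push_cast at h3
  rw [h2] at h
  linarith

lemma sum_outside_shift (k : Fin 6 → ZMod 2) (hk : D.e k = 0) (g : (Fin 6 → ZMod 2) → ℤ) :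
    ∑ b ∈ D.Kᶜ, g (b + k) = ∑ b ∈ D.Kᶜ, g b := by
  refine sum_bij' (fun b _ => b + k) (fun b _ => b + k) ?_ ?_ ?_ ?_ ?_
  · intro b hb
    rw [mem_compl, D.mem_K] at hb ⊢
    rwa [D.e_add, hk, add_zero]
  · intro b hb
    rw [mem_compl, D.mem_K] at hb ⊢
    rwa [D.e_add, hk, add_zero]
  · intro b _
    rw [add_assoc, add_self_vec, add_zero]
  · intro b _
    rw [add_assoc, add_self_vec, add_zero]
  · intro b _
    rfl

lemma card_compl_K : ((D.Kᶜ).card : ℤ) = 64 - D.K.card := by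
  rw [card_compl]
  have h : D.K.card ≤ Fintype.card (Fin 6 → ZMod 2) := card_le_univ _
  rw [Nat.cast_sub h]
  simp

lemma card_K_le : D.K.card ≤ 64 := by
  have h : D.K.card ≤ Fintype.card (Fin 6 → ZMod 2) := card_le_univ _
  simpa using h

lemma outside_upper (k : Fin 6 → ZMod 2) (hk : D.e k = 0) :
    2 * ∑ b ∈ D.Kᶜ, (- D.T b) ≤ 64 * (64 - (D.K.card : ℤ)) +
      ∑ b ∈ D.Kᶜ, |AC f k (D.e b)| := by
  have h1 : ∑ b ∈ D.Kᶜ, (- D.T b - D.T (b + k)) ≤ ∑ b ∈ D.Kᶜ, (64 + |AC f k (D.e b)|) :=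
    sum_le_sum fun b _ => D.pair_ineq k b hk
  rw [sum_add_distrib, sum_const, nsmul_eq_mul, D.card_compl_K, sum_sub_distrib,
    D.sum_outside_shift k hk D.T] at h1
  rw [sum_neg_distrib] at h1 ⊢
  linarith

/-- no kernel element with positive sign. -/
lemma s_neg_of_mem (k : Fin 6 → ZMod 2) (hk : k ∈ D.K) (hk0 : k ≠ 0) : D.s k = -1 := by
  rcases D.s_cases k with h | h
  swap
  · exact h
  exfalso
  have h1 := D.energy_ne k hk0
  rw [D.T_of_mem k hk, D.Z_of_mem k hk, h,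
    show (1920 - 48 * (64 * 1) + 1152 * 1 : ℤ) = 0 by norm_num] at h1
  have h2 : ∀ e : Fin 6 → ZMod 2, e ≠ 0 → AC f k e = 0 := by
    intro e he
    have h3 := (sum_eq_zero_iff_of_nonneg (fun e _ => sq_nonneg (AC f k e))).1 h1 e
      (mem_erase.2 ⟨he, mem_univ _⟩)
    exact pow_eq_zero_iff (two_ne_zero) |>.1 h3
  have h4 := D.outside_upper k ((D.mem_K k).1 hk)
  have h5 : ∑ b ∈ D.Kᶜ, |AC f k (D.e b)| = 0 := by
    refine sum_eq_zero fun b hb => ?_
    rw [mem_compl, D.mem_K] at hb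
    rw [h2 _ hb, abs_zero]
  have h6 := D.outside_lower
  have h7 := D.card_K_le
  have h8 : (D.K.card : ℤ) ≤ 64 := by exact_mod_cast h7
  linarith

lemma add_mem_K (a b : Fin 6 → ZMod 2) (ha : a ∈ D.K) (hb : b ∈ D.K) : a + b ∈ D.K := by
  rw [D.mem_K] at *
  rw [D.e_add, ha, hb, add_zero]

lemma q_of_s (b : Fin 6 → ZMod 2) (h : D.s b = -1) : D.q b = 1 := by
  have : ∀ x : ZMod 2, chi x = -1 → x = 1 := by decide
  exact this _ h

lemma card_K_small : D.K.card ≤ 4 := by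
  by_contra hcon
  push Not at hcon
  obtain ⟨a, ha, ha'⟩ : ∃ a ∈ D.K, a ∉ ({0} : Finset (Fin 6 → ZMod 2)) :=
    exists_mem_notMem_of_card_lt_card (by simp; omega)
  obtain ⟨b, hb, hb'⟩ : ∃ b ∈ D.K, b ∉ ({0, a} : Finset (Fin 6 → ZMod 2)) :=
    exists_mem_notMem_of_card_lt_card (lt_of_le_of_lt card_le_two (by omega))
  obtain ⟨c, hc, hc'⟩ : ∃ c ∈ D.K, c ∉ ({0, a, b, a + b} : Finset (Fin 6 → ZMod 2)) :=
    exists_mem_notMem_of_card_lt_card (lt_of_le_of_lt card_le_four (by omega))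
  simp only [mem_singleton, mem_insert, not_or] at ha' hb' hc'
  have key : ∀ x ∈ D.K, x ≠ 0 → D.q x = 1 := fun x hx hx0 =>
    D.q_of_s x (D.s_neg_of_mem x hx hx0)
  have h3 := D.q3 a b c
  have hab := D.add_mem_K a b ha hb
  rw [key a ha ha', key b hb hb'.1, key c hc hc'.1, key (a + b) hab, key (a + c)
    (D.add_mem_K a c ha hc), key (b + c) (D.add_mem_K b c hb hc), key (a + b + c)
    (D.add_mem_K _ c hab hc)] at h3
  · revert h3; decide
  · intro h
    exact hc'.2.2.2 ((add_eq_zero_iff_vec _ _).1 h)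
  · intro h
    exact hc'.2.2.1 ((add_eq_zero_iff_vec _ _).1 h)
  · intro h
    exact hc'.2.1 ((add_eq_zero_iff_vec _ _).1 h)
  · intro h
    exact hb'.2 ((add_eq_zero_iff_vec _ _).1 h)

lemma fiber_card (y : Fin 6 → ZMod 2) : (univ.filter fun b => D.e b = y).card ≤ D.K.card := by
  by_cases hne : (univ.filter fun b => D.e b = y).Nonempty
  · obtain ⟨b0, hb0⟩ := hne
    simp only [mem_filter, mem_univ, true_and] at hb0
    refine card_le_card_of_injOn (fun b => b + b0) ?_ ?_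
    · intro b hb
      simp only [coe_filter, mem_univ, true_and, Set.mem_ofPred_eq] at hb
      simp only [mem_coe, D.mem_K]
      rw [D.e_add, hb, hb0, add_self_vec]
    · intro b _ b' _ h
      exact add_right_cancel h
  · rw [not_nonempty_iff_eq_empty] at hne
    rw [hne]
    simp

lemma sum_fiber (g : (Fin 6 → ZMod 2) → ℤ) (hg : ∀ y, 0 ≤ g y) :
    ∑ b ∈ D.Kᶜ, g (D.e b) ≤ D.K.card * ∑ y ∈ univ.erase (0 : Fin 6 → ZMod 2), g y := by
  have h1 : ∑ b ∈ D.Kᶜ, g (D.e b) = ∑ y ∈ univ.erase (0 : Fin 6 → ZMod 2),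
      ∑ b ∈ D.Kᶜ with D.e b = y, g (D.e b) := by
    symm
    apply sum_fiberwise_of_maps_to
    intro b hb
    rw [mem_compl, D.mem_K] at hb
    exact mem_erase.2 ⟨hb, mem_univ _⟩
  rw [h1, mul_sum]
  refine sum_le_sum fun y _ => ?_
  have h2 : ∑ b ∈ D.Kᶜ with D.e b = y, g (D.e b) = ∑ b ∈ D.Kᶜ with D.e b = y, g y :=
    sum_congr rfl fun b hb => by rw [(mem_filter.1 hb).2]
  rw [h2, sum_const, nsmul_eq_mul]
  refine mul_le_mul_of_nonneg_right ?_ (hg y)
  have h3 : (D.Kᶜ.filter fun b => D.e b = y).card ≤ (univ.filter fun b => D.e b = y).card :=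
    card_le_card (filter_subset_filter _ (subset_univ _))
  exact_mod_cast h3.trans (D.fiber_card y)

/-- the kernel of the slope map is trivial. -/
lemma kernel_trivial (k : Fin 6 → ZMod 2) (hk : D.e k = 0) : k = 0 := by
  by_contra hk0
  have hkK : k ∈ D.K := (D.mem_K k).2 hk
  have hs := D.s_neg_of_mem k hkK hk0
  have h1 := D.energy_ne k hk0
  rw [D.T_of_mem k hkK, D.Z_of_mem k hkK, hs,
    show (1920 - 48 * (64 * (-1)) + 1152 * (-1) : ℤ) = 3840 by norm_num] at h1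
  have hcard := D.card_K_small
  have hcard2 : 2 ≤ D.K.card := by
    have : ({0, k} : Finset (Fin 6 → ZMod 2)) ⊆ D.K := by
      intro x hx
      simp only [mem_insert, mem_singleton] at hx
      rcases hx with rfl | rfl
      · exact D.zero_mem_K
      · exact hkK
    have h := card_le_card this
    rwa [card_pair (Ne.symm hk0)] at h
  have h2 : ∑ b ∈ D.Kᶜ, AC f k (D.e b) ^ 2 ≤
      D.K.card * ∑ y ∈ univ.erase (0 : Fin 6 → ZMod 2), AC f k y ^ 2 :=
    D.sum_fiber (fun y => AC f k y ^ 2) (fun y => sq_nonneg _)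
  rw [h1] at h2
  have h3 := D.outside_upper k hk
  have h4 := D.outside_lower
  set U := ∑ b ∈ D.Kᶜ, |AC f k (D.e b)| with hU
  have h5 : U ^ 2 ≤ (64 - (D.K.card : ℤ)) * ∑ b ∈ D.Kᶜ, AC f k (D.e b) ^ 2 := by
    have := sq_sum_le_card_mul_sum_sq (s := D.Kᶜ) (f := fun b => |AC f k (D.e b)|)
    simp only [sq_abs] at this
    rw [D.card_compl_K] at this
    exact this
  have h6 : 1632 ≤ U := by
    have : (D.K.card : ℤ) ≤ 4 := by exact_mod_cast hcard
    linarith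
  have c1 : (D.K.card : ℤ) ≤ 4 := by exact_mod_cast hcard
  have c2 : 2 ≤ (D.K.card : ℤ) := by exact_mod_cast hcard2
  have h7 : ∑ b ∈ D.Kᶜ, AC f k (D.e b) ^ 2 ≤ 4 * 3840 := by
    refine h2.trans ?_
    linarith
  have h7' : 0 ≤ ∑ b ∈ D.Kᶜ, AC f k (D.e b) ^ 2 := sum_nonneg fun b _ => sq_nonneg _
  have h8 : U ^ 2 ≤ 64 * (4 * 3840) := by
    refine h5.trans ?_
    nlinarith
  nlinarith

end SixData

end Pool.Agent.Lib.MP_ea66ba_co
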