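import Mathlib
import Pool.Agent.Lib.MP_ea66ba_co.Kernel

set_option autoImplicit false

namespace Pool.Agent.Lib.MP_ea66ba_co

open Finset Matrix

variable {f : (Fin 6 → ZMod 2) → (Fin 6 → ZMod 2)}

namespace SixData

variable (D : SixData f)

lemma e_injective : Function.Injective D.e := by
  intro a b h
  have h1 : D.e (a + b) = 0 := by rw [D.e_add, h, add_self_vec]
  have h2 := D.kernel_trivial _ h1
  exact ((add_eq_zero_iff_vec _ _).1 h2).symm

lemma e_bijective : Function.Bijective D.e := Finite.injective_iff_bijective.1 D.e_injective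

/-- the sign matrix -/
def Nm (y b : Fin 6 → ZMod 2) : ℤ := D.s b * chi (b ⬝ᵥ (f y + f (y + D.e b)))

lemma Nm_sq (y b : Fin 6 → ZMod 2) : D.Nm y b * D.Nm y b = 1 := by
  rw [Nm]
  have h1 := D.s_sq b
  have h2 := chi_mul_self (b ⬝ᵥ (f y + f (y + D.e b)))
  linear_combination h1 * (chi (b ⬝ᵥ (f y + f (y + D.e b))) *
    chi (b ⬝ᵥ (f y + f (y + D.e b)))) + h2

/-- inner sum -/
def In (x d : Fin 6 → ZMod 2) : ℤ := ∑ b, D.Nm (x + D.e b) b * D.Nm (x + D.e b) (b + d)

lemma exists_functional (x d : Fin 6 → ZMod 2) : ∃ w : Fin 6 → ZMod 2, ∀ b,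
    D.q b + D.q (b + d) + D.q d + b ⬝ᵥ (f x + f (x + D.e d)) = w ⬝ᵥ D.e b := by
  let E := Equiv.ofBijective D.e D.e_bijective
  have hE : ∀ y, D.e (E.symm y) = y := fun y => E.apply_symm_apply y
  have hadd : ∀ s t, E.symm (s + t) = E.symm s + E.symm t := by
    intro s t
    apply D.e_injective
    rw [hE, D.e_add, hE, hE]
  obtain ⟨w, hw⟩ := exists_dot (fun y => D.q (E.symm y) + D.q (E.symm y + d) + D.q d +
    (E.symm y) ⬝ᵥ (f x + f (x + D.e d))) (by
      intro s t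
      simp only [hadd]
      have h3 := D.q3 (E.symm s) (E.symm t) d
      rw [add_dotProduct]
      have key : ∀ a b c k l m r u v : ZMod 2, a + b + c + k + l + m + r = 0 →
          k + r + c + (u + v) = (a + l + c + u) + (b + m + c + v) := by decide
      exact key _ _ _ _ _ _ _ _ _ h3)
  refine ⟨w, fun b => ?_⟩
  have := hw (D.e b)
  have hs : E.symm (D.e b) = b := E.symm_apply_apply b
  simp only [hs] at this
  exact this

lemma In_bound (x d : Fin 6 → ZMod 2) (hd : d ≠ 0) : |D.In x d| ≤ 12 := by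
  obtain ⟨w, hw⟩ := D.exists_functional x d
  have h1 : ∀ b, D.Nm (x + D.e b) b * D.Nm (x + D.e b) (b + d) =
      chi (D.q d + d ⬝ᵥ f (x + D.e d)) * chi (w ⬝ᵥ D.e b + d ⬝ᵥ f (x + D.e b)) := by
    intro b
    rw [Nm, Nm, s, s]
    have e1 : x + D.e b + D.e b = x := by rw [add_assoc, add_self_vec, add_zero]
    have e2 : x + D.e b + D.e (b + d) = x + D.e d := by
      rw [D.e_add, ← add_assoc, e1]
    rw [e1, e2, ← chi_add, ← chi_add, ← chi_add, ← chi_add]
    congr 1
    rw [← hw b]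
    simp only [dotProduct_add, add_dotProduct]
    generalize D.q b = a1
    generalize D.q (b + d) = a2
    generalize D.q d = a3
    generalize b ⬝ᵥ f (x + D.e b) = a4
    generalize b ⬝ᵥ f x = a5
    generalize d ⬝ᵥ f (x + D.e b) = a6
    generalize b ⬝ᵥ f (x + D.e d) = a7
    generalize d ⬝ᵥ f (x + D.e d) = a8
    have c3 : a3 + a3 = 0 := CharTwo.add_self_eq_zero a3
    have c4 : a4 + a4 = 0 := CharTwo.add_self_eq_zero a4
    linear_combination c4 - c3
  have h2 : D.In x d = chi (D.q d + d ⬝ᵥ f (x + D.e d)) * (chi (w ⬝ᵥ x) * W f d w) := by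
    rw [In]
    simp only [h1, ← mul_sum]
    congr 1
    have h3 : ∑ b, chi (w ⬝ᵥ D.e b + d ⬝ᵥ f (x + D.e b)) =
        ∑ z, chi (w ⬝ᵥ z + d ⬝ᵥ f (x + z)) :=
      Equiv.sum_comp (Equiv.ofBijective D.e D.e_bijective)
        (fun z => chi (w ⬝ᵥ z + d ⬝ᵥ f (x + z)))
    rw [h3, ← sum_shift _ x, W, mul_sum]
    refine sum_congr rfl fun z _ => ?_
    have e3 : x + (z + x) = z := by
      rw [add_comm z x, ← add_assoc, add_self_vec, zero_add]
    rw [e3, ← chi_add, dotProduct_add]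
    congr 1
    abel
  rw [h2, abs_mul, abs_mul, abs_chi, abs_chi, one_mul, one_mul]
  exact D.bound d hd w

lemma In_zero (x : Fin 6 → ZMod 2) : D.In x 0 = 64 := by
  rw [In]
  simp only [add_zero, D.Nm_sq]
  simp

lemma sum_sq_eq : ∑ y, (∑ b, D.Nm y b) ^ 2 = ∑ d, ∑ x, D.In x d := by
  have h1 : ∀ y, (∑ b, D.Nm y b) ^ 2 = ∑ b, ∑ d, D.Nm y b * D.Nm y (b + d) := by
    intro y
    rw [sq, sum_mul_sum]
    refine sum_congr rfl fun b _ => ?_
    have := sum_shift (fun d => D.Nm y b * D.Nm y d) b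
    rw [← this]
    refine sum_congr rfl fun d _ => ?_
    rw [add_comm d b]
  simp only [h1]
  have h2 : ∀ d x, D.In x d = ∑ b, D.Nm (x + D.e b) b * D.Nm (x + D.e b) (b + d) :=
    fun d x => rfl
  simp only [h2]
  have h3 : ∀ d : Fin 6 → ZMod 2,
      ∑ x, ∑ b, D.Nm (x + D.e b) b * D.Nm (x + D.e b) (b + d) =
      ∑ b, ∑ x, D.Nm x b * D.Nm x (b + d) := by
    intro d
    rw [sum_comm]
    refine sum_congr rfl fun b _ => ?_
    exact sum_shift (fun x => D.Nm x b * D.Nm x (b + d)) (D.e b)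
  simp only [h3]
  calc ∑ y, ∑ b, ∑ d, D.Nm y b * D.Nm y (b + d)
      = ∑ b, ∑ y, ∑ d, D.Nm y b * D.Nm y (b + d) := sum_comm
    _ = ∑ b, ∑ d, ∑ y, D.Nm y b * D.Nm y (b + d) := sum_congr rfl fun b _ => sum_comm
    _ = ∑ d, ∑ b, ∑ y, D.Nm y b * D.Nm y (b + d) := sum_comm

include D in
lemma contradiction : False := by
  have hK : D.K.card = 1 := by
    have : D.K = {0} := by
      ext b
      rw [D.mem_K, mem_singleton]
      constructor
      · exact D.kernel_trivial b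
      · rintro rfl
        exact D.e_zero
    rw [this, card_singleton]
  have h1 := D.outside_lower
  rw [hK] at h1
  have hKc : D.K = {0} := by
    rw [card_eq_one] at hK
    obtain ⟨a, ha⟩ := hK
    have := D.zero_mem_K
    rw [ha, mem_singleton] at this
    rw [ha, ← this]
  have h2 : ∑ b, D.T b = 64 - ∑ b ∈ D.Kᶜ, (- D.T b) := by
    rw [← sum_add_sum_compl D.K, sum_neg_distrib, sub_neg_eq_add]
    congr 1
    rw [hKc, sum_singleton, T, s, D.q_zero, chi_zero, AC_zero_left]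
    norm_num
  have h3 : ∑ b, D.T b = ∑ y, ∑ b, D.Nm y b := by
    rw [sum_comm]
    refine sum_congr rfl fun b _ => ?_
    rw [T, AC, mul_sum]
    rfl
  have h4 : ∑ b, D.T b ≤ -2792 := by
    rw [h2]
    push_cast at h1
    linarith
  have h5 : (∑ y, ∑ b, D.Nm y b) ^ 2 ≤ 64 * ∑ y, (∑ b, D.Nm y b) ^ 2 := by
    have := sq_sum_le_card_mul_sum_sq (s := (univ : Finset (Fin 6 → ZMod 2)))
      (f := fun y => ∑ b, D.Nm y b)
    have hc : ((univ : Finset (Fin 6 → ZMod 2)).card : ℤ) = 64 := by simp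
    rw [hc] at this
    exact this
  have h6 : ∑ y, (∑ b, D.Nm y b) ^ 2 ≤ 52480 := by
    rw [D.sum_sq_eq, ← add_sum_erase univ _ (mem_univ (0 : Fin 6 → ZMod 2))]
    simp only [D.In_zero]
    have h7 : ∑ d ∈ univ.erase (0 : Fin 6 → ZMod 2), ∑ x, D.In x d ≤
        ∑ d ∈ univ.erase (0 : Fin 6 → ZMod 2), ∑ x : Fin 6 → ZMod 2, (12 : ℤ) :=
      sum_le_sum fun d hd => sum_le_sum fun x _ =>
        (le_abs_self _).trans (D.In_bound x d (ne_of_mem_erase hd))
    have hc : (univ.erase (0 : Fin 6 → ZMod 2)).card = 63 := by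
      rw [card_erase_of_mem (mem_univ _), card_univ]
      simp
    have hc2 : (univ : Finset (Fin 6 → ZMod 2)).card = 64 := by simp
    rw [sum_const, sum_const, hc, hc2] at h7
    rw [sum_const, hc2]
    norm_num at h7 ⊢
    linarith
  rw [← h3] at h5
  nlinarith

end SixData

/-- the key theorem. -/
theorem six (f : (Fin 6 → ZMod 2) → (Fin 6 → ZMod 2)) (hf : ∑ v, f v = 0) :
    ∃ b, b ≠ 0 ∧ ∃ u, 16 ≤ |W f b u| := by
  by_contra hcon
  push Not at hcon
  obtain ⟨D⟩ := exists_sixData f hf hcon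
  exact D.contradiction

end Pool.Agent.Lib.MP_ea66ba_co
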