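import Mathlib
import Pool.Agent.Lib.MP_ea66ba_co.Parity

set_option autoImplicit false

/-!
A map of the space of even dimension whose Walsh coefficients are divisible by `M`,
`2 ^ n = 4 * M ^ 2`, such that the parity of the quotients is a polynomial of degree at most two,
has linearity at least `4 * M`.
-/

namespace Pool.Agent.Lib.MP_ea66ba_co

open Finset Matrix

variable {n : ℕ} {M : ℤ} {f : (Fin n → ZMod 2) → (Fin n → ZMod 2)}

/-- The data of a map with divisible Walsh coefficients, quadratic parity and linearity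
less than `4 * M`. -/
structure QData (n : ℕ) (M : ℤ) (f : (Fin n → ZMod 2) → (Fin n → ZMod 2)) where
  /-- slope map -/
  e : (Fin n → ZMod 2) → (Fin n → ZMod 2)
  /-- constant terms -/
  q : (Fin n → ZMod 2) → ZMod 2
  /-- quotients -/
  k : (Fin n → ZMod 2) → (Fin n → ZMod 2) → ℤ
  e_add : ∀ b b', e (b + b') = e b + e b'
  q_zero : q 0 = 0
  q3 : ∀ a b c, q a + q b + q c + q (a + b) + q (a + c) + q (b + c) + q (a + b + c) = 0
  hk : ∀ b u, W f b u = M * k b u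
  par : ∀ b u, ((k b u : ℤ) : ZMod 2) = q b + e b ⬝ᵥ u
  bound : ∀ b, b ≠ 0 → ∀ u, |k b u| ≤ 3
  hN : (2 : ℤ) ^ n = 4 * M ^ 2
  hM : 4 ≤ M

lemma card_vec : ((univ : Finset (Fin n → ZMod 2)).card : ℤ) = 2 ^ n := by
  rw [card_univ]
  simp

lemma card_erase_vec : (((univ : Finset (Fin n → ZMod 2)).erase 0).card : ℤ) = 2 ^ n - 1 := by
  rw [card_erase_of_mem (mem_univ _), Nat.cast_sub (card_pos.2 ⟨0, mem_univ _⟩), card_vec]
  simp

lemma ptw (k : ℤ) (hk : |k| ≤ 3) :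
    2 * k ^ 4 = k ^ 2 * (14 - 6 * chi ((k : ℤ) : ZMod 2)) - 9 * (1 - chi ((k : ℤ) : ZMod 2)) := by
  rw [abs_le] at hk
  obtain ⟨h1, h2⟩ := hk
  have e1 : chi ((1 : ℤ) : ZMod 2) = -1 := by decide
  have e2 : chi ((2 : ℤ) : ZMod 2) = 1 := by decide
  have e3 : chi ((3 : ℤ) : ZMod 2) = -1 := by decide
  have e0 : chi ((0 : ℤ) : ZMod 2) = 1 := by decide
  have e4 : chi ((-1 : ℤ) : ZMod 2) = -1 := by decide
  have e5 : chi ((-2 : ℤ) : ZMod 2) = 1 := by decide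
  have e6 : chi ((-3 : ℤ) : ZMod 2) = -1 := by decide
  interval_cases k
  · rw [e6]; norm_num
  · rw [e5]; norm_num
  · rw [e4]; norm_num
  · rw [e0]; norm_num
  · rw [e1]; norm_num
  · rw [e2]; norm_num
  · rw [e3]; norm_num

lemma sum_W_sq_all (f : (Fin n → ZMod 2) → (Fin n → ZMod 2)) (b : Fin n → ZMod 2) :
    ∑ u, W f b u ^ 2 = 2 ^ n * 2 ^ n := by
  have := sum_W_sq f b 0
  simp only [dotProduct_zero, chi_zero, mul_one, AC_zero_right] at this
  exact this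

/-- fourth moment over the nonzero components. -/
lemma moment (f : (Fin n → ZMod 2) → (Fin n → ZMod 2)) :
    2 * (2 ^ n) ^ 2 * (2 ^ n - 1) ≤
      ∑ b ∈ univ.erase (0 : Fin n → ZMod 2), ∑ e, AC f b e ^ 2 := by
  have h2 : ∑ b : Fin n → ZMod 2, ∑ e, AC f b e ^ 2 =
      2 ^ n * (2 ^ n) ^ 2 + ∑ b ∈ univ.erase (0 : Fin n → ZMod 2), ∑ e, AC f b e ^ 2 := by
    rw [← add_sum_erase univ _ (mem_univ (0 : Fin n → ZMod 2))]
    congr 1
    simp only [AC_zero_left]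
    rw [sum_const, nsmul_eq_mul, card_vec]
  have h3 : ∑ b : Fin n → ZMod 2, ∑ e, AC f b e ^ 2 =
      2 ^ n * (2 ^ n) ^ 2 + ∑ e ∈ univ.erase (0 : Fin n → ZMod 2), ∑ b, AC f b e ^ 2 := by
    rw [sum_comm, ← add_sum_erase univ _ (mem_univ (0 : Fin n → ZMod 2))]
    congr 1
    simp only [AC_zero_right]
    rw [sum_const, nsmul_eq_mul, card_vec]
  have h4 : ∑ e ∈ univ.erase (0 : Fin n → ZMod 2), (2 * (2 ^ n) ^ 2 : ℤ) ≤
      ∑ e ∈ univ.erase (0 : Fin n → ZMod 2), ∑ b, AC f b e ^ 2 :=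
    sum_le_sum fun e he => sum_b_AC_sq f e (ne_of_mem_erase he)
  rw [sum_const, nsmul_eq_mul, card_erase_vec] at h4
  linarith

namespace QData

variable (D : QData n M f)

include D in
lemma M_pos : 0 < M := lt_of_lt_of_le (by norm_num) D.hM

include D in
lemma N_pos : (0 : ℤ) < 2 ^ n := by
  rw [D.hN]
  have := D.M_pos
  positivity

include D in
lemma N_ge : (64 : ℤ) ≤ 2 ^ n := by
  rw [D.hN]
  have := D.hM
  nlinarith

/-- sign -/
def s (b : Fin n → ZMod 2) : ℤ := chi (D.q b)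

/-- signed autocorrelation at the slope -/
def T (b : Fin n → ZMod 2) : ℤ := D.s b * AC f b (D.e b)

/-- correction -/
def Z (b : Fin n → ZMod 2) : ℤ := if D.e b = 0 then D.s b else 0

lemma s_sq (b : Fin n → ZMod 2) : D.s b * D.s b = 1 := chi_mul_self _

lemma s_cases (b : Fin n → ZMod 2) : D.s b = 1 ∨ D.s b = -1 := chi_cases _

lemma e_zero : D.e 0 = 0 := by
  have := D.e_add 0 0
  rw [add_zero, add_self_vec] at this
  exact this

/-- autocorrelation energy of a component. -/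
lemma energy (b : Fin n → ZMod 2) (hb : b ≠ 0) :
    32 * ∑ e, AC f b e ^ 2 = 47 * (2 ^ n) ^ 2 - 24 * 2 ^ n * D.T b
      + 9 * (2 ^ n) ^ 2 * D.Z b := by
  have h1 : ∀ u, 2 * W f b u ^ 4 = 14 * M ^ 2 * (W f b u ^ 2 * chi (u ⬝ᵥ (0 : Fin n → ZMod 2)))
      - 6 * M ^ 2 * D.s b * (W f b u ^ 2 * chi (u ⬝ᵥ D.e b)) - 9 * M ^ 4
      + 9 * M ^ 4 * D.s b * chi (u ⬝ᵥ D.e b) := by
    intro u
    have h2 := ptw _ (D.bound b hb u)
    rw [D.par b u, chi_add] at h2
    rw [D.hk b u, dotProduct_zero, chi_zero, dotProduct_comm u, s]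
    linear_combination M ^ 4 * h2
  have h2 : ∑ u, 2 * W f b u ^ 4 = 14 * M ^ 2 * (2 ^ n * AC f b 0)
      - 6 * M ^ 2 * D.s b * (2 ^ n * AC f b (D.e b)) - 2 ^ n * (9 * M ^ 4)
      + 9 * M ^ 4 * D.s b * (if D.e b = 0 then 2 ^ n else 0) := by
    simp only [h1, sum_add_distrib, sum_sub_distrib, ← mul_sum, sum_W_sq, sum_chi_dot]
    rw [sum_const, nsmul_eq_mul, card_vec]
    ring
  have h3 := sum_AC_sq f b
  have h2' : ∑ u, 2 * W f b u ^ 4 = 2 * ∑ u, W f b u ^ 4 := by rw [mul_sum]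
  rw [h2', ← h3, AC_zero_right] at h2
  have h2Z : D.s b * (if D.e b = 0 then (2 : ℤ) ^ n else 0) = 2 ^ n * D.Z b := by
    rw [Z]
    split_ifs
    · ring
    · ring
  have h2T : D.s b * (2 ^ n * AC f b (D.e b)) = 2 ^ n * D.T b := by rw [T]; ring
  have h4 := D.N_pos
  have h5 : (2 : ℤ) ^ n ≠ 0 := h4.ne'
  apply mul_left_cancel₀ h5
  have h6 := D.hN
  rw [mul_assoc (6 * M ^ 2), h2T, mul_assoc (9 * M ^ 4), h2Z] at h2
  generalize D.T b = A at h2 ⊢
  generalize D.Z b = C at h2 ⊢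
  generalize ∑ e, AC f b e ^ 2 = B at h2 ⊢
  have h7 : (2 : ℤ) ^ n * (32 * B) = 16 * (2 * (2 ^ n * B)) := by ring
  rw [h7, h2]
  have h8 : M ^ 4 = M ^ 2 * M ^ 2 := by ring
  rw [h8]
  have h9 : 4 * M ^ 2 = 2 ^ n := h6.symm
  generalize (2 : ℤ) ^ n = N at *
  have h10 : 16 * (14 * M ^ 2 * (N * N) - 6 * M ^ 2 * (N * A) - N * (9 * (M ^ 2 * M ^ 2))
      + 9 * (M ^ 2 * M ^ 2) * (N * C)) =
      56 * (4 * M ^ 2) * (N * N) - 24 * (4 * M ^ 2) * (N * A)
        - 9 * N * ((4 * M ^ 2) * (4 * M ^ 2)) + 9 * N * C * ((4 * M ^ 2) * (4 * M ^ 2)) := by ring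
  rw [h10, h9]
  ring

lemma energy_ne (b : Fin n → ZMod 2) (hb : b ≠ 0) :
    32 * ∑ e ∈ univ.erase (0 : Fin n → ZMod 2), AC f b e ^ 2 =
      15 * (2 ^ n) ^ 2 - 24 * 2 ^ n * D.T b + 9 * (2 ^ n) ^ 2 * D.Z b := by
  have h := D.energy b hb
  rw [← add_sum_erase univ _ (mem_univ (0 : Fin n → ZMod 2)), AC_zero_right] at h
  linarith

/-- the main (fourth moment) inequality. -/
lemma main_ineq : 17 * 2 ^ n * (2 ^ n - 1) ≤
    ∑ b ∈ univ.erase (0 : Fin n → ZMod 2), (9 * 2 ^ n * D.Z b - 24 * D.T b) := by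
  have h1 : 32 * ∑ b ∈ univ.erase (0 : Fin n → ZMod 2), ∑ e, AC f b e ^ 2 =
      ∑ b ∈ univ.erase (0 : Fin n → ZMod 2),
        (47 * (2 ^ n) ^ 2 + 2 ^ n * (9 * 2 ^ n * D.Z b - 24 * D.T b)) := by
    rw [mul_sum]
    refine sum_congr rfl fun b hb => ?_
    rw [D.energy b (ne_of_mem_erase hb)]
    ring
  have h1' : ∑ b ∈ univ.erase (0 : Fin n → ZMod 2), 2 ^ n * (9 * 2 ^ n * D.Z b - 24 * D.T b) =
      2 ^ n * ∑ b ∈ univ.erase (0 : Fin n → ZMod 2), (9 * 2 ^ n * D.Z b - 24 * D.T b) := by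
    rw [mul_sum]
  rw [sum_add_distrib, h1', sum_const, nsmul_eq_mul, card_erase_vec] at h1
  have h2 := moment f
  have h5 := D.N_pos
  generalize ∑ b ∈ univ.erase (0 : Fin n → ZMod 2), (9 * 2 ^ n * D.Z b - 24 * D.T b) = S at *
  generalize ∑ b ∈ univ.erase (0 : Fin n → ZMod 2), ∑ e, AC f b e ^ 2 = B at *
  generalize (2 : ℤ) ^ n = N at *
  have h6 : N * (17 * N * (N - 1)) ≤ N * S := by nlinarith
  exact le_of_mul_le_mul_left h6 h5

/-- kernel of the slope map -/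
def K : Finset (Fin n → ZMod 2) := univ.filter fun b => D.e b = 0

lemma mem_K (b : Fin n → ZMod 2) : b ∈ D.K ↔ D.e b = 0 := by simp [K]

lemma pair_ineq (k b : Fin n → ZMod 2) (hk : D.e k = 0) :
    - D.T b - D.T (b + k) ≤ 2 ^ n + |AC f k (D.e b)| := by
  have he : D.e (b + k) = D.e b := by rw [D.e_add, hk, add_zero]
  have h1 : 0 ≤ ∑ x, (1 + D.s b * chi (b ⬝ᵥ (f x + f (x + D.e b)))) *
      (1 + D.s (b + k) * chi ((b + k) ⬝ᵥ (f x + f (x + D.e b)))) := by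
    refine sum_nonneg fun x _ => ?_
    rcases D.s_cases b with h | h <;> rcases D.s_cases (b + k) with h' | h' <;>
      rcases chi_cases (b ⬝ᵥ (f x + f (x + D.e b))) with h2 | h2 <;>
      rcases chi_cases ((b + k) ⬝ᵥ (f x + f (x + D.e b))) with h3 | h3 <;>
      rw [h, h', h2, h3] <;> norm_num
  have h2 : ∑ x, (1 + D.s b * chi (b ⬝ᵥ (f x + f (x + D.e b)))) *
      (1 + D.s (b + k) * chi ((b + k) ⬝ᵥ (f x + f (x + D.e b)))) =
      2 ^ n + D.T b + D.T (b + k) + D.s b * D.s (b + k) * AC f k (D.e b) := by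
    have h3 : ∀ x, (1 + D.s b * chi (b ⬝ᵥ (f x + f (x + D.e b)))) *
      (1 + D.s (b + k) * chi ((b + k) ⬝ᵥ (f x + f (x + D.e b)))) =
      1 + D.s b * chi (b ⬝ᵥ (f x + f (x + D.e b))) +
        D.s (b + k) * chi ((b + k) ⬝ᵥ (f x + f (x + D.e b))) +
        D.s b * D.s (b + k) * chi (k ⬝ᵥ (f x + f (x + D.e b))) := by
      intro x
      have h4 := chi_mul_self (b ⬝ᵥ (f x + f (x + D.e b)))
      rw [add_dotProduct b k, chi_add]
      linear_combination D.s b * D.s (b + k) * chi (k ⬝ᵥ (f x + f (x + D.e b))) * h4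
    simp only [h3, sum_add_distrib, ← mul_sum]
    rw [T, T, he, AC, AC, AC, sum_const, nsmul_eq_mul, card_vec, mul_one]
  rw [h2] at h1
  have h5 : D.s b * D.s (b + k) * AC f k (D.e b) ≤ |AC f k (D.e b)| := by
    rcases D.s_cases b with h | h <;> rcases D.s_cases (b + k) with h' | h' <;> rw [h, h']
    · simpa using le_abs_self _
    · simpa using neg_le_abs _
    · simpa using neg_le_abs _
    · simpa using le_abs_self _
  linarith

lemma zero_mem_K : (0 : Fin n → ZMod 2) ∈ D.K := (D.mem_K 0).2 D.e_zero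

lemma T_of_mem (b : Fin n → ZMod 2) (h : b ∈ D.K) : D.T b = 2 ^ n * D.s b := by
  rw [T, (D.mem_K b).1 h, AC_zero_right]
  ring

lemma Z_of_mem (b : Fin n → ZMod 2) (h : b ∈ D.K) : D.Z b = D.s b := by
  rw [Z, if_pos ((D.mem_K b).1 h)]

lemma Z_of_not_mem (b : Fin n → ZMod 2) (h : b ∉ D.K) : D.Z b = 0 := by
  rw [Z, if_neg fun h' => h ((D.mem_K b).2 h')]

lemma outside_lower : 17 * 2 ^ n * (2 ^ n - 1) - 15 * 2 ^ n * ((D.K.card : ℤ) - 1) ≤
    24 * ∑ b ∈ D.Kᶜ, (- D.T b) := by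
  have h := D.main_ineq
  have h1 : (univ.erase (0 : Fin n → ZMod 2)) = D.K.erase 0 ∪ D.Kᶜ := by
    ext b
    simp only [mem_erase, mem_univ, and_true, mem_union, mem_compl]
    constructor
    · intro hb
      by_cases hk : b ∈ D.K
      · exact Or.inl ⟨hb, hk⟩
      · exact Or.inr hk
    · rintro (⟨hb, _⟩ | hb)
      · exact hb
      · rintro rfl
        exact hb D.zero_mem_K
  have hdis : Disjoint (D.K.erase 0) D.Kᶜ := by
    rw [Finset.disjoint_left]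
    intro b hb hb'
    exact (mem_compl.1 hb') (mem_of_mem_erase hb)
  rw [h1, sum_union hdis] at h
  have h2 : ∑ b ∈ D.Kᶜ, (9 * 2 ^ n * D.Z b - 24 * D.T b) = 24 * ∑ b ∈ D.Kᶜ, (- D.T b) := by
    rw [mul_sum]
    exact sum_congr rfl fun b hb => by rw [D.Z_of_not_mem b (mem_compl.1 hb)]; ring
  have hN := D.N_pos
  have h3 : ∑ b ∈ D.K.erase 0, (9 * 2 ^ n * D.Z b - 24 * D.T b) ≤
      ∑ b ∈ D.K.erase 0, (15 * 2 ^ n : ℤ) := by
    refine sum_le_sum fun b hb => ?_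
    have hb' := mem_of_mem_erase hb
    rw [D.Z_of_mem b hb', D.T_of_mem b hb']
    rcases D.s_cases b with h | h <;> rw [h] <;> linarith
  rw [sum_const, card_erase_of_mem D.zero_mem_K, nsmul_eq_mul] at h3
  have hpos : 1 ≤ D.K.card := card_pos.2 ⟨0, D.zero_mem_K⟩
  rw [Nat.cast_sub hpos] at h3
  push_cast at h3
  rw [h2] at h
  linarith

lemma sum_outside_shift (k : Fin n → ZMod 2) (hk : D.e k = 0) (g : (Fin n → ZMod 2) → ℤ) :
    ∑ b ∈ D.Kᶜ, g (b + k) = ∑ b ∈ D.Kᶜ, g b := by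
  refine sum_bij' (fun b _ => b + k) (fun b _ => b + k) ?_ ?_ ?_ ?_ ?_
  · intro b hb
    rw [mem_compl, D.mem_K] at hb ⊢
    rwa [D.e_add, hk, add_zero]
  · intro b hb
    rw [mem_compl, D.mem_K] at hb ⊢
    rwa [D.e_add, hk, add_zero]
  · intro b _
    rw [add_assoc, add_self_vec, add_zero]
  · intro b _
    rw [add_assoc, add_self_vec, add_zero]
  · intro b _
    rfl

lemma card_K_le : (D.K.card : ℤ) ≤ 2 ^ n := by
  have h : D.K.card ≤ (univ : Finset (Fin n → ZMod 2)).card := card_le_card (subset_univ _)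
  have h2 : (D.K.card : ℤ) ≤ ((univ : Finset (Fin n → ZMod 2)).card : ℤ) := by exact_mod_cast h
  rwa [card_vec] at h2

lemma card_compl_K : ((D.Kᶜ).card : ℤ) = 2 ^ n - D.K.card := by
  have h : D.K.card + (D.Kᶜ).card = (univ : Finset (Fin n → ZMod 2)).card := by
    rw [card_add_card_compl, card_univ]
  have h2 : (D.K.card : ℤ) + ((D.Kᶜ).card : ℤ) = ((univ : Finset (Fin n → ZMod 2)).card : ℤ) := by
    exact_mod_cast h
  rw [card_vec] at h2
  linarith

lemma outside_upper (k : Fin n → ZMod 2) (hk : D.e k = 0) :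
    2 * ∑ b ∈ D.Kᶜ, (- D.T b) ≤ 2 ^ n * (2 ^ n - (D.K.card : ℤ)) +
      ∑ b ∈ D.Kᶜ, |AC f k (D.e b)| := by
  have h1 : ∑ b ∈ D.Kᶜ, (- D.T b - D.T (b + k)) ≤ ∑ b ∈ D.Kᶜ, (2 ^ n + |AC f k (D.e b)|) :=
    sum_le_sum fun b _ => D.pair_ineq k b hk
  rw [sum_add_distrib, sum_const, nsmul_eq_mul, D.card_compl_K, sum_sub_distrib,
    D.sum_outside_shift k hk D.T] at h1
  rw [sum_neg_distrib] at h1 ⊢
  linarith

/-- no kernel element with positive sign. -/
lemma s_neg_of_mem (k : Fin n → ZMod 2) (hk : k ∈ D.K) (hk0 : k ≠ 0) : D.s k = -1 := by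
  rcases D.s_cases k with h | h
  swap
  · exact h
  exfalso
  have h1 := D.energy_ne k hk0
  rw [D.T_of_mem k hk, D.Z_of_mem k hk, h] at h1
  have h1' : ∑ e ∈ univ.erase (0 : Fin n → ZMod 2), AC f k e ^ 2 = 0 := by linarith
  have h2 : ∀ e : Fin n → ZMod 2, e ≠ 0 → AC f k e = 0 := by
    intro e he
    have h3 := (sum_eq_zero_iff_of_nonneg (fun e _ => sq_nonneg (AC f k e))).1 h1' e
      (mem_erase.2 ⟨he, mem_univ _⟩)
    exact pow_eq_zero_iff (two_ne_zero) |>.1 h3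
  have h4 := D.outside_upper k ((D.mem_K k).1 hk)
  have h5 : ∑ b ∈ D.Kᶜ, |AC f k (D.e b)| = 0 := by
    refine sum_eq_zero fun b hb => ?_
    rw [mem_compl, D.mem_K] at hb
    rw [h2 _ hb, abs_zero]
  have h6 := D.outside_lower
  have h7 := D.card_K_le
  have h8 := D.N_ge
  rw [h5] at h4
  generalize ∑ b ∈ D.Kᶜ, (- D.T b) = S at *
  generalize (D.K.card : ℤ) = c at *
  generalize (2 : ℤ) ^ n = N at *
  nlinarith

lemma add_mem_K (a b : Fin n → ZMod 2) (ha : a ∈ D.K) (hb : b ∈ D.K) : a + b ∈ D.K := by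
  rw [D.mem_K] at *
  rw [D.e_add, ha, hb, add_zero]

lemma q_of_s (b : Fin n → ZMod 2) (h : D.s b = -1) : D.q b = 1 := by
  have : ∀ x : ZMod 2, chi x = -1 → x = 1 := by decide
  exact this _ h

lemma card_K_small : D.K.card ≤ 4 := by
  by_contra hcon
  push Not at hcon
  obtain ⟨a, ha, ha'⟩ : ∃ a ∈ D.K, a ∉ ({0} : Finset (Fin n → ZMod 2)) :=
    exists_mem_notMem_of_card_lt_card (by simp; omega)
  obtain ⟨b, hb, hb'⟩ : ∃ b ∈ D.K, b ∉ ({0, a} : Finset (Fin n → ZMod 2)) :=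
    exists_mem_notMem_of_card_lt_card (lt_of_le_of_lt card_le_two (by omega))
  obtain ⟨c, hc, hc'⟩ : ∃ c ∈ D.K, c ∉ ({0, a, b, a + b} : Finset (Fin n → ZMod 2)) :=
    exists_mem_notMem_of_card_lt_card (lt_of_le_of_lt card_le_four (by omega))
  simp only [mem_singleton, mem_insert, not_or] at ha' hb' hc'
  have key : ∀ x ∈ D.K, x ≠ 0 → D.q x = 1 := fun x hx hx0 =>
    D.q_of_s x (D.s_neg_of_mem x hx hx0)
  have h3 := D.q3 a b c
  have hab := D.add_mem_K a b ha hb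
  rw [key a ha ha', key b hb hb'.1, key c hc hc'.1, key (a + b) hab, key (a + c)
    (D.add_mem_K a c ha hc), key (b + c) (D.add_mem_K b c hb hc), key (a + b + c)
    (D.add_mem_K _ c hab hc)] at h3
  · revert h3; decide
  · intro h
    exact hc'.2.2.2 ((add_eq_zero_iff_vec _ _).1 h)
  · intro h
    exact hc'.2.2.1 ((add_eq_zero_iff_vec _ _).1 h)
  · intro h
    exact hc'.2.1 ((add_eq_zero_iff_vec _ _).1 h)
  · intro h
    exact hb'.2 ((add_eq_zero_iff_vec _ _).1 h)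

lemma fiber_card (y : Fin n → ZMod 2) : (univ.filter fun b => D.e b = y).card ≤ D.K.card := by
  by_cases hne : (univ.filter fun b => D.e b = y).Nonempty
  · obtain ⟨b0, hb0⟩ := hne
    simp only [mem_filter, mem_univ, true_and] at hb0
    refine card_le_card_of_injOn (fun b => b + b0) ?_ ?_
    · intro b hb
      simp only [coe_filter, mem_univ, true_and, Set.mem_ofPred_eq] at hb
      simp only [mem_coe, D.mem_K]
      rw [D.e_add, hb, hb0, add_self_vec]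
    · intro b _ b' _ h
      exact add_right_cancel h
  · rw [not_nonempty_iff_eq_empty] at hne
    rw [hne]
    simp

lemma sum_fiber (g : (Fin n → ZMod 2) → ℤ) (hg : ∀ y, 0 ≤ g y) :
    ∑ b ∈ D.Kᶜ, g (D.e b) ≤ D.K.card * ∑ y ∈ univ.erase (0 : Fin n → ZMod 2), g y := by
  have h1 : ∑ b ∈ D.Kᶜ, g (D.e b) = ∑ y ∈ univ.erase (0 : Fin n → ZMod 2),
      ∑ b ∈ D.Kᶜ with D.e b = y, g (D.e b) := by
    symm
    apply sum_fiberwise_of_maps_to
    intro b hb
    rw [mem_compl, D.mem_K] at hb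
    exact mem_erase.2 ⟨hb, mem_univ _⟩
  rw [h1, mul_sum]
  refine sum_le_sum fun y _ => ?_
  have h2 : ∑ b ∈ D.Kᶜ with D.e b = y, g (D.e b) = ∑ b ∈ D.Kᶜ with D.e b = y, g y :=
    sum_congr rfl fun b hb => by rw [(mem_filter.1 hb).2]
  rw [h2, sum_const, nsmul_eq_mul]
  refine mul_le_mul_of_nonneg_right ?_ (hg y)
  have h3 : (D.Kᶜ.filter fun b => D.e b = y).card ≤ (univ.filter fun b => D.e b = y).card :=
    card_le_card (filter_subset_filter _ (subset_univ _))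
  exact_mod_cast h3.trans (D.fiber_card y)

/-- the kernel of the slope map is trivial. -/
lemma kernel_trivial (k : Fin n → ZMod 2) (hk : D.e k = 0) : k = 0 := by
  by_contra hk0
  have hkK : k ∈ D.K := (D.mem_K k).2 hk
  have hs := D.s_neg_of_mem k hkK hk0
  have h1 := D.energy_ne k hk0
  rw [D.T_of_mem k hkK, D.Z_of_mem k hkK, hs] at h1
  have hcard := D.card_K_small
  have hcard2 : 2 ≤ D.K.card := by
    have : ({0, k} : Finset (Fin n → ZMod 2)) ⊆ D.K := by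
      intro x hx
      simp only [mem_insert, mem_singleton] at hx
      rcases hx with rfl | rfl
      · exact D.zero_mem_K
      · exact hkK
    have h := card_le_card this
    rwa [card_pair (Ne.symm hk0)] at h
  have h2 : ∑ b ∈ D.Kᶜ, AC f k (D.e b) ^ 2 ≤
      D.K.card * ∑ y ∈ univ.erase (0 : Fin n → ZMod 2), AC f k y ^ 2 :=
    D.sum_fiber (fun y => AC f k y ^ 2) (fun y => sq_nonneg _)
  have h3 := D.outside_upper k hk
  have h4 := D.outside_lower
  have h5 : (∑ b ∈ D.Kᶜ, |AC f k (D.e b)|) ^ 2 ≤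
      (2 ^ n - (D.K.card : ℤ)) * ∑ b ∈ D.Kᶜ, AC f k (D.e b) ^ 2 := by
    have := sq_sum_le_card_mul_sum_sq (s := D.Kᶜ) (f := fun b => |AC f k (D.e b)|)
    simp only [sq_abs] at this
    rw [D.card_compl_K] at this
    exact this
  have c1 : (D.K.card : ℤ) ≤ 4 := by exact_mod_cast hcard
  have c2 : 2 ≤ (D.K.card : ℤ) := by exact_mod_cast hcard2
  have h7' : 0 ≤ ∑ b ∈ D.Kᶜ, AC f k (D.e b) ^ 2 := sum_nonneg fun b _ => sq_nonneg _
  have hN := D.N_ge
  generalize ∑ b ∈ D.Kᶜ, AC f k (D.e b) ^ 2 = R at *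
  generalize ∑ y ∈ univ.erase (0 : Fin n → ZMod 2), AC f k y ^ 2 = Y at *
  generalize ∑ b ∈ D.Kᶜ, |AC f k (D.e b)| = U at *
  generalize ∑ b ∈ D.Kᶜ, (- D.T b) = S at *
  generalize (D.K.card : ℤ) = c at *
  generalize (2 : ℤ) ^ n = N at *
  have hY : 32 * Y = 30 * N ^ 2 := by linarith
  have hY0 : 0 ≤ Y := by nlinarith
  have h8 : 8 * R ≤ 30 * N ^ 2 := by nlinarith
  have h9 : 8 * U ^ 2 ≤ 30 * N ^ 3 := by
    have h10 : U ^ 2 ≤ N * R := by nlinarith
    nlinarith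
  have h11 : 5 * N ^ 2 - 14 * N ≤ 12 * U := by nlinarith
  have h12 : 4 * N ^ 2 ≤ 12 * U := by nlinarith
  have h13 : N ^ 2 ≤ 3 * U := by linarith
  have h14 : (N ^ 2) ^ 2 ≤ (3 * U) ^ 2 := pow_le_pow_left₀ (by positivity) h13 2
  have h15 : 8 * N ^ 4 ≤ 270 * N ^ 3 := by nlinarith
  have h16 : 0 < N ^ 3 := by positivity
  nlinarith

lemma e_injective : Function.Injective D.e := by
  intro a b h
  have h1 : D.e (a + b) = 0 := by rw [D.e_add, h, add_self_vec]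
  have h2 := D.kernel_trivial _ h1
  exact ((add_eq_zero_iff_vec _ _).1 h2).symm

lemma e_bijective : Function.Bijective D.e := Finite.injective_iff_bijective.1 D.e_injective

/-- the sign matrix -/
def Nm (y b : Fin n → ZMod 2) : ℤ := D.s b * chi (b ⬝ᵥ (f y + f (y + D.e b)))

lemma Nm_sq (y b : Fin n → ZMod 2) : D.Nm y b * D.Nm y b = 1 := by
  rw [Nm]
  have h1 := D.s_sq b
  have h2 := chi_mul_self (b ⬝ᵥ (f y + f (y + D.e b)))
  linear_combination h1 * (chi (b ⬝ᵥ (f y + f (y + D.e b))) *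
    chi (b ⬝ᵥ (f y + f (y + D.e b)))) + h2

/-- inner sum -/
def In (x d : Fin n → ZMod 2) : ℤ := ∑ b, D.Nm (x + D.e b) b * D.Nm (x + D.e b) (b + d)

lemma exists_functional (x d : Fin n → ZMod 2) : ∃ w : Fin n → ZMod 2, ∀ b,
    D.q b + D.q (b + d) + D.q d + b ⬝ᵥ (f x + f (x + D.e d)) = w ⬝ᵥ D.e b := by
  let E := Equiv.ofBijective D.e D.e_bijective
  have hE : ∀ y, D.e (E.symm y) = y := fun y => E.apply_symm_apply y
  have hadd : ∀ s t, E.symm (s + t) = E.symm s + E.symm t := by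
    intro s t
    apply D.e_injective
    rw [hE, D.e_add, hE, hE]
  obtain ⟨w, hw⟩ := exists_dot (fun y => D.q (E.symm y) + D.q (E.symm y + d) + D.q d +
    (E.symm y) ⬝ᵥ (f x + f (x + D.e d))) (by
      intro s t
      simp only [hadd]
      have h3 := D.q3 (E.symm s) (E.symm t) d
      rw [add_dotProduct]
      have key : ∀ a b c k l m r u v : ZMod 2, a + b + c + k + l + m + r = 0 →
          k + r + c + (u + v) = (a + l + c + u) + (b + m + c + v) := by decide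
      exact key _ _ _ _ _ _ _ _ _ h3)
  refine ⟨w, fun b => ?_⟩
  have := hw (D.e b)
  have hs : E.symm (D.e b) = b := E.symm_apply_apply b
  simp only [hs] at this
  exact this

lemma In_bound (x d : Fin n → ZMod 2) (hd : d ≠ 0) : |D.In x d| ≤ 3 * M := by
  obtain ⟨w, hw⟩ := D.exists_functional x d
  have h1 : ∀ b, D.Nm (x + D.e b) b * D.Nm (x + D.e b) (b + d) =
      chi (D.q d + d ⬝ᵥ f (x + D.e d)) * chi (w ⬝ᵥ D.e b + d ⬝ᵥ f (x + D.e b)) := by
    intro b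
    rw [Nm, Nm, s, s]
    have e1 : x + D.e b + D.e b = x := by rw [add_assoc, add_self_vec, add_zero]
    have e2 : x + D.e b + D.e (b + d) = x + D.e d := by
      rw [D.e_add, ← add_assoc, e1]
    rw [e1, e2, ← chi_add, ← chi_add, ← chi_add, ← chi_add]
    congr 1
    rw [← hw b]
    simp only [dotProduct_add, add_dotProduct]
    generalize D.q b = a1
    generalize D.q (b + d) = a2
    generalize D.q d = a3
    generalize b ⬝ᵥ f (x + D.e b) = a4
    generalize b ⬝ᵥ f x = a5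
    generalize d ⬝ᵥ f (x + D.e b) = a6
    generalize b ⬝ᵥ f (x + D.e d) = a7
    generalize d ⬝ᵥ f (x + D.e d) = a8
    have c3 : a3 + a3 = 0 := CharTwo.add_self_eq_zero a3
    have c4 : a4 + a4 = 0 := CharTwo.add_self_eq_zero a4
    linear_combination c4 - c3
  have h2 : D.In x d = chi (D.q d + d ⬝ᵥ f (x + D.e d)) * (chi (w ⬝ᵥ x) * W f d w) := by
    rw [In]
    simp only [h1, ← mul_sum]
    congr 1
    have h3 : ∑ b, chi (w ⬝ᵥ D.e b + d ⬝ᵥ f (x + D.e b)) =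
        ∑ z, chi (w ⬝ᵥ z + d ⬝ᵥ f (x + z)) :=
      Equiv.sum_comp (Equiv.ofBijective D.e D.e_bijective)
        (fun z => chi (w ⬝ᵥ z + d ⬝ᵥ f (x + z)))
    rw [h3, ← sum_shift _ x, W, mul_sum]
    refine sum_congr rfl fun z _ => ?_
    have e3 : x + (z + x) = z := by
      rw [add_comm z x, ← add_assoc, add_self_vec, zero_add]
    rw [e3, ← chi_add, dotProduct_add]
    congr 1
    abel
  rw [h2, abs_mul, abs_mul, abs_chi, abs_chi, one_mul, one_mul, D.hk, abs_mul,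
    abs_of_pos D.M_pos]
  have h3 := D.bound d hd w
  have h4 := D.M_pos
  nlinarith

lemma In_zero (x : Fin n → ZMod 2) : D.In x 0 = 2 ^ n := by
  rw [In]
  simp only [add_zero, D.Nm_sq]
  rw [sum_const, nsmul_eq_mul, card_vec, mul_one]

lemma sum_sq_eq : ∑ y, (∑ b, D.Nm y b) ^ 2 = ∑ d, ∑ x, D.In x d := by
  have h1 : ∀ y, (∑ b, D.Nm y b) ^ 2 = ∑ b, ∑ d, D.Nm y b * D.Nm y (b + d) := by
    intro y
    rw [sq, sum_mul_sum]
    refine sum_congr rfl fun b _ => ?_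
    have := sum_shift (fun d => D.Nm y b * D.Nm y d) b
    rw [← this]
    refine sum_congr rfl fun d _ => ?_
    rw [add_comm d b]
  simp only [h1]
  have h2 : ∀ d x, D.In x d = ∑ b, D.Nm (x + D.e b) b * D.Nm (x + D.e b) (b + d) :=
    fun d x => rfl
  simp only [h2]
  have h3 : ∀ d : Fin n → ZMod 2,
      ∑ x, ∑ b, D.Nm (x + D.e b) b * D.Nm (x + D.e b) (b + d) =
      ∑ b, ∑ x, D.Nm x b * D.Nm x (b + d) := by
    intro d
    rw [sum_comm]
    refine sum_congr rfl fun b _ => ?_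
    exact sum_shift (fun x => D.Nm x b * D.Nm x (b + d)) (D.e b)
  simp only [h3]
  calc ∑ y, ∑ b, ∑ d, D.Nm y b * D.Nm y (b + d)
      = ∑ b, ∑ y, ∑ d, D.Nm y b * D.Nm y (b + d) := sum_comm
    _ = ∑ b, ∑ d, ∑ y, D.Nm y b * D.Nm y (b + d) := sum_congr rfl fun b _ => sum_comm
    _ = ∑ d, ∑ b, ∑ y, D.Nm y b * D.Nm y (b + d) := sum_comm

include D in
lemma contradiction : False := by
  have hKc : D.K = {0} := by
    ext b
    rw [D.mem_K, mem_singleton]
    constructor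
    · exact D.kernel_trivial b
    · rintro rfl
      exact D.e_zero
  have h1 := D.outside_lower
  rw [hKc, card_singleton] at h1
  have h2 : ∑ b, D.T b = 2 ^ n - ∑ b ∈ ({0} : Finset (Fin n → ZMod 2))ᶜ, (- D.T b) := by
    rw [← sum_add_sum_compl ({0} : Finset (Fin n → ZMod 2)), sum_neg_distrib, sub_neg_eq_add]
    congr 1
    rw [sum_singleton, T, s, D.q_zero, chi_zero, AC_zero_left, one_mul]
  have h3 : ∑ b, D.T b = ∑ y, ∑ b, D.Nm y b := by
    rw [sum_comm]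
    refine sum_congr rfl fun b _ => ?_
    rw [T, AC, mul_sum]
    rfl
  have h5 : (∑ y, ∑ b, D.Nm y b) ^ 2 ≤ 2 ^ n * ∑ y, (∑ b, D.Nm y b) ^ 2 := by
    have := sq_sum_le_card_mul_sum_sq (s := (univ : Finset (Fin n → ZMod 2)))
      (f := fun y => ∑ b, D.Nm y b)
    rw [card_vec] at this
    exact this
  have h6 : ∑ y, (∑ b, D.Nm y b) ^ 2 ≤ 2 ^ n * 2 ^ n + (2 ^ n - 1) * (2 ^ n * (3 * M)) := by
    rw [D.sum_sq_eq, ← add_sum_erase univ _ (mem_univ (0 : Fin n → ZMod 2))]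
    simp only [D.In_zero]
    have h7 : ∑ d ∈ univ.erase (0 : Fin n → ZMod 2), ∑ x, D.In x d ≤
        ∑ d ∈ univ.erase (0 : Fin n → ZMod 2), ∑ x : Fin n → ZMod 2, (3 * M : ℤ) :=
      sum_le_sum fun d hd => sum_le_sum fun x _ =>
        (le_abs_self _).trans (D.In_bound x d (ne_of_mem_erase hd))
    rw [sum_const, sum_const, nsmul_eq_mul, nsmul_eq_mul, card_erase_vec, card_vec] at h7
    rw [sum_const, nsmul_eq_mul, card_vec]
    linarith
  rw [← h3] at h5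
  have h8 := D.hN
  have h9 := D.hM
  have h10 := D.N_pos
  have hN64 := D.N_ge
  generalize ∑ b ∈ ({0} : Finset (Fin n → ZMod 2))ᶜ, (- D.T b) = S at *
  generalize ∑ b, D.T b = T at *
  generalize ∑ y, (∑ b, D.Nm y b) ^ 2 = R at *
  generalize (2 : ℤ) ^ n = N at *
  push_cast at h1
  have h11 : 24 * T ≤ - (16 * N ^ 2) := by nlinarith
  have h12 : (16 * N ^ 2) ^ 2 ≤ (24 * T) ^ 2 := by
    have h13 : 0 ≤ 16 * N ^ 2 := by positivity
    nlinarith
  have h14 : T ^ 2 ≤ N * (N * N + (N - 1) * (N * (3 * M))) := by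
    refine h5.trans ?_
    exact mul_le_mul_of_nonneg_left h6 h10.le
  have h15 : N * (N * N + (N - 1) * (N * (3 * M))) ≤ N ^ 3 * (1 + 3 * M) := by
    have h16 : 0 ≤ N ^ 2 * (3 * M) := by positivity
    nlinarith
  have h17 : 256 * N ^ 4 ≤ 576 * (N ^ 3 * (1 + 3 * M)) := by nlinarith
  have h18 : 256 * N ≤ 576 * (1 + 3 * M) := by
    have h19 : 0 < N ^ 3 := by positivity
    have h20 : N ^ 3 * (256 * N) ≤ N ^ 3 * (576 * (1 + 3 * M)) := by nlinarith
    exact le_of_mul_le_mul_left h20 h19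
  rw [h8] at h18
  nlinarith

end QData

end Pool.Agent.Lib.MP_ea66ba_co
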