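import Mathlib
import Pool.Agent.Lib.MP_ea66ba_co.QuadCrit

set_option autoImplicit false

/-!
Permutations for which the numbers of common zeros of a component with two linear forms are
divisible: the Walsh coefficients have bilinear parity.  Degree conditions for this.
-/

namespace Pool.Agent.Lib.MP_ea66ba_co

open Finset Matrix

variable {n : ℕ}

/-- number of points where `h` is one -/
def wt (h : (Fin n → ZMod 2) → ZMod 2) : ℤ := ∑ v, ((h v).val : ℤ)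

lemma wt_add (g h : (Fin n → ZMod 2) → ZMod 2) :
    wt (fun v => g v + h v) = wt g + wt h - 2 * wt (fun v => g v * h v) := by
  simp only [wt, mul_sum, ← sum_add_distrib, ← sum_sub_distrib]
  refine sum_congr rfl fun v _ => ?_
  have : ∀ x y : ZMod 2, ((x + y).val : ℤ) = (x.val : ℤ) + (y.val : ℤ) - 2 * ((x * y).val : ℤ) := by
    decide
  exact this _ _

lemma wt_cast (h : (Fin n → ZMod 2) → ZMod 2) : ((wt h : ℤ) : ZMod 2) = ∑ v, h v := by
  rw [wt]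
  push_cast
  simp

lemma two_dvd_wt (h : (Fin n → ZMod 2) → ZMod 2) (h0 : ∑ v, h v = 0) : (2 : ℤ) ∣ wt h := by
  have := wt_cast h
  rw [h0, ZMod.intCast_zmod_eq_zero_iff_dvd] at this
  exact_mod_cast this

lemma sum_chi_eq (h : (Fin n → ZMod 2) → ZMod 2) : ∑ v, chi (h v) = 2 ^ n - 2 * wt h := by
  simp only [chi_eq, wt, sum_sub_distrib, mul_sum]
  rw [sum_const, nsmul_eq_mul, card_vec, mul_one]

variable (f : Equiv.Perm (Fin n → ZMod 2))

lemma wt_comp (b : Fin n → ZMod 2) :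
    2 * wt (fun v => b ⬝ᵥ f v) = 2 ^ n - if b = 0 then 2 ^ n else 0 := by
  have h1 := sum_chi_eq (fun v => b ⬝ᵥ f v)
  have h2 : ∑ v, chi (b ⬝ᵥ f v) = ∑ y, chi (y ⬝ᵥ b) := by
    rw [← Equiv.sum_comp f (fun y => chi (y ⬝ᵥ b))]
    exact sum_congr rfl fun v _ => by rw [dotProduct_comm]
  rw [h2, sum_chi_dot] at h1
  linarith

lemma W_formula (b u : Fin n → ZMod 2) :
    W f b u = - 2 ^ n + (if b = 0 then 2 ^ n else 0) + (if u = 0 then 2 ^ n else 0)
      + 4 * wt (fun v => (b ⬝ᵥ f v) * (u ⬝ᵥ v)) := by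
  have h1 : W f b u = 2 ^ n - 2 * wt (fun v => b ⬝ᵥ f v + u ⬝ᵥ v) :=
    sum_chi_eq (fun v => b ⬝ᵥ f v + u ⬝ᵥ v)
  have h2 := wt_comp f b
  have h3 := wt_comp (Equiv.refl _) u
  simp only [Equiv.refl_apply] at h3
  rw [h1, wt_add]
  linarith

/-- points where a component and two linear forms are one -/
def cnt3 (f : (Fin n → ZMod 2) → (Fin n → ZMod 2)) (b u u' : Fin n → ZMod 2) : ℤ :=
  wt (fun v => (b ⬝ᵥ f v) * (u ⬝ᵥ v) * (u' ⬝ᵥ v))

lemma cnt_eq (g : (Fin n → ZMod 2) → (Fin n → ZMod 2)) (b u : Fin n → ZMod 2) :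
    wt (fun v => (b ⬝ᵥ g v) * (u ⬝ᵥ v)) = cnt3 g b u u := by
  rw [cnt3]
  congr 1
  funext v
  have : ∀ x y : ZMod 2, x * y = x * y * y := by decide
  exact this _ _

lemma cnt_add (g : (Fin n → ZMod 2) → (Fin n → ZMod 2)) (b u u' : Fin n → ZMod 2) :
    wt (fun v => (b ⬝ᵥ g v) * ((u + u') ⬝ᵥ v)) =
      wt (fun v => (b ⬝ᵥ g v) * (u ⬝ᵥ v)) + wt (fun v => (b ⬝ᵥ g v) * (u' ⬝ᵥ v))
        - 2 * cnt3 g b u u' := by
  have h1 := wt_add (fun v => (b ⬝ᵥ g v) * (u ⬝ᵥ v)) (fun v => (b ⬝ᵥ g v) * (u' ⬝ᵥ v))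
  have h2 : (fun v => (b ⬝ᵥ g v) * ((u + u') ⬝ᵥ v)) =
      fun v => (b ⬝ᵥ g v) * (u ⬝ᵥ v) + (b ⬝ᵥ g v) * (u' ⬝ᵥ v) := by
    funext v
    rw [add_dotProduct, mul_add]
  have h3 : (fun v => (b ⬝ᵥ g v) * (u ⬝ᵥ v) * ((b ⬝ᵥ g v) * (u' ⬝ᵥ v))) =
      fun v => (b ⬝ᵥ g v) * (u ⬝ᵥ v) * (u' ⬝ᵥ v) := by
    funext v
    have : ∀ x y z : ZMod 2, x * y * (x * z) = x * y * z := by decide
    exact this _ _ _
  rw [h2, h1, h3, cnt3]

lemma cnt_symm (b u : Fin n → ZMod 2) :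
    wt (fun v => (b ⬝ᵥ f v) * (u ⬝ᵥ v)) = wt (fun y => (u ⬝ᵥ f.symm y) * (b ⬝ᵥ y)) := by
  rw [wt, wt, ← Equiv.sum_comp f (fun y => (((u ⬝ᵥ f.symm y) * (b ⬝ᵥ y)).val : ℤ))]
  refine sum_congr rfl fun v _ => ?_
  rw [Equiv.symm_apply_apply, mul_comm]

/-- parity of the quotient of a sum. -/
lemma parity_step (r x y z w : ℤ) (hr : r ≠ 0) (hx : r ∣ x) (hy : r ∣ y) (hw : r ∣ w)
    (h : z = x + y - 2 * w) :
    ((z / r : ℤ) : ZMod 2) = ((x / r : ℤ) : ZMod 2) + ((y / r : ℤ) : ZMod 2) := by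
  obtain ⟨a, rfl⟩ := hx
  obtain ⟨b, rfl⟩ := hy
  obtain ⟨c, rfl⟩ := hw
  have h1 : z = r * (a + b - 2 * c) := by rw [h]; ring
  rw [h1, Int.mul_ediv_cancel_left _ hr, Int.mul_ediv_cancel_left _ hr,
    Int.mul_ediv_cancel_left _ hr]
  push_cast
  have : (2 : ZMod 2) = 0 := by decide
  rw [this]
  ring

/-- a permutation with divisible numbers `cnt3` has linearity at least `16 * r`,
where `2 ^ n = 64 * r ^ 2`. -/
theorem crit (r : ℤ) (hr : 1 ≤ r) (hN : (2 : ℤ) ^ n = 64 * r ^ 2)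
    (H1 : ∀ b u u', r ∣ cnt3 f b u u') (H2 : ∀ b u u', r ∣ cnt3 f.symm b u u') :
    ∃ b, b ≠ 0 ∧ ∃ u, 16 * r ≤ |W f b u| := by
  by_contra hcon
  push Not at hcon
  have hr0 : r ≠ 0 := by omega
  set c : (Fin n → ZMod 2) → (Fin n → ZMod 2) → ℤ :=
    fun b u => wt (fun v => (b ⬝ᵥ f v) * (u ⬝ᵥ v)) with hc
  have hcr : ∀ b u, r ∣ c b u := by
    intro b u
    rw [hc]
    simp only
    rw [cnt_eq]
    exact H1 b u u
  have hp1 : ∀ b u u', ((c b (u + u') / r : ℤ) : ZMod 2) =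
      ((c b u / r : ℤ) : ZMod 2) + ((c b u' / r : ℤ) : ZMod 2) := fun b u u' =>
    parity_step r _ _ _ _ hr0 (hcr b u) (hcr b u') (H1 b u u') (cnt_add f b u u')
  have hp2 : ∀ b b' u, ((c (b + b') u / r : ℤ) : ZMod 2) =
      ((c b u / r : ℤ) : ZMod 2) + ((c b' u / r : ℤ) : ZMod 2) := by
    intro b b' u
    refine parity_step r _ _ _ _ hr0 (hcr b u) (hcr b' u) (H2 u b b') ?_
    rw [hc]
    simp only
    rw [cnt_symm f (b + b') u, cnt_symm f b u, cnt_symm f b' u]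
    exact cnt_add f.symm u b b'
  have hex : ∀ b, ∃ w : Fin n → ZMod 2, ∀ u, ((c b u / r : ℤ) : ZMod 2) = w ⬝ᵥ u := fun b =>
    exists_dot (fun u => ((c b u / r : ℤ) : ZMod 2)) (hp1 b)
  choose e he using hex
  have hadd : ∀ b b', e (b + b') = e b + e b' := by
    intro b b'
    funext i
    have h1 : e (b + b') ⬝ᵥ Pi.single i 1 = (e b + e b') ⬝ᵥ Pi.single i 1 := by
      rw [add_dotProduct, ← he, ← he, ← he, hp2]
    simpa using h1
  have hWk : ∀ b u, ∃ k : ℤ, W f b u = (4 * r) * k ∧ ((k : ℤ) : ZMod 2) = e b ⬝ᵥ u := by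
    intro b u
    obtain ⟨a, ha⟩ := hcr b u
    have h1 : W f b u = - 2 ^ n + (if b = 0 then 2 ^ n else 0) + (if u = 0 then 2 ^ n else 0)
      + 4 * c b u := W_formula f b u
    refine ⟨2 * (8 * r * ((if b = 0 then 1 else 0) + (if u = 0 then 1 else 0) - 1)) + a, ?_, ?_⟩
    · rw [h1, ha, hN]
      split_ifs <;> ring
    · rw [← he b u, ha, Int.mul_ediv_cancel_left _ hr0, Int.cast_add, Int.cast_mul]
      have : ((2 : ℤ) : ZMod 2) = 0 := by decide
      rw [this, zero_mul, zero_add]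
  choose k hk1 hk2 using hWk
  have D : QData n (4 * r) f :=
    { e := e
      q := fun _ => 0
      k := k
      e_add := hadd
      q_zero := rfl
      q3 := fun _ _ _ => by simp
      hk := hk1
      par := fun b u => by rw [zero_add]; exact hk2 b u
      bound := by
        intro b hb u
        have h1 := hcon b hb u
        rw [hk1 b u, abs_mul, abs_of_pos (by omega : (0 : ℤ) < 4 * r)] at h1
        have h2 : |k b u| < 4 := by nlinarith
        omega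
      hN := by rw [hN]; ring
      hM := by omega }
  exact D.contradiction

/-- `h` is the function of a polynomial of total degree at most `d`. -/
def IsDeg (d : ℕ) (h : (Fin n → ZMod 2) → ZMod 2) : Prop :=
  ∃ p : MvPolynomial (Fin n) (ZMod 2), p.totalDegree ≤ d ∧ ∀ v, h v = MvPolynomial.eval v p

lemma IsDeg.mul {a b : ℕ} {g h : (Fin n → ZMod 2) → ZMod 2} (hg : IsDeg a g) (hh : IsDeg b h) :
    IsDeg (a + b) (fun v => g v * h v) := by
  obtain ⟨p, hp, hp'⟩ := hg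
  obtain ⟨q, hq, hq'⟩ := hh
  refine ⟨p * q, (MvPolynomial.totalDegree_mul p q).trans (add_le_add hp hq), fun v => ?_⟩
  rw [map_mul, ← hp', ← hq']

lemma IsDeg.comb {d : ℕ} (g : (Fin n → ZMod 2) → (Fin n → ZMod 2))
    (hg : ∀ i, IsDeg d (fun v => g v i)) (b : Fin n → ZMod 2) :
    IsDeg d (fun v => b ⬝ᵥ g v) := by
  choose p hp hp' using hg
  refine ⟨∑ i, MvPolynomial.C (b i) * p i, ?_, fun v => ?_⟩
  · refine MvPolynomial.totalDegree_finsetSum_le fun i _ => ?_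
    refine (MvPolynomial.totalDegree_mul _ _).trans ?_
    rw [MvPolynomial.totalDegree_C, zero_add]
    exact hp i
  · rw [map_sum]
    simp only [dotProduct]
    refine sum_congr rfl fun i _ => ?_
    rw [map_mul, MvPolynomial.eval_C, ← hp' i v]

lemma IsDeg.lin (u : Fin n → ZMod 2) : IsDeg 1 (fun v : Fin n → ZMod 2 => u ⬝ᵥ v) := by
  refine IsDeg.comb (fun v => v) (fun i => ⟨MvPolynomial.X i, ?_, fun v => ?_⟩) u
  · exact (MvPolynomial.totalDegree_X i).le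
  · rw [MvPolynomial.eval_X]

lemma IsDeg.sum_eq_zero {d : ℕ} {h : (Fin n → ZMod 2) → ZMod 2} (hh : IsDeg d h) (hd : d < n) :
    ∑ v, h v = 0 := by
  obtain ⟨p, hp, hp'⟩ := hh
  have h1 : p.totalDegree < (Fintype.card (ZMod 2) - 1) * Fintype.card (Fin n) := by
    rw [ZMod.card, Fintype.card_fin]
    omega
  have h2 := MvPolynomial.sum_eval_eq_zero p h1
  rw [← h2]
  exact sum_congr rfl fun v _ => hp' v

end Pool.Agent.Lib.MP_ea66ba_co
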