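import Mathlib
import Pool.Agent.Lib.MP_ea66ba_co.PermDeg

set_option autoImplicit false

/-!
An additive slope map `e` with arbitrary kernel: sums of autocorrelations over its image, over
cosets of the kernel, and near-orthogonality of the sign matrix.
-/

namespace Pool.Agent.Lib.MP_ea66ba_co

open Finset Matrix

variable {n : ℕ}

/-- kernel of an additive map -/
def Ker (e : (Fin n → ZMod 2) → (Fin n → ZMod 2)) : Finset (Fin n → ZMod 2) :=
  univ.filter fun b => e b = 0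

lemma mem_Ker (e : (Fin n → ZMod 2) → (Fin n → ZMod 2)) (b : Fin n → ZMod 2) :
    b ∈ Ker e ↔ e b = 0 := by simp [Ker]

/-- character sum over the kernel -/
def nu (e : (Fin n → ZMod 2) → (Fin n → ZMod 2)) (g : Fin n → ZMod 2) : ℤ :=
  ∑ b ∈ Ker e, chi (b ⬝ᵥ g)

/-- inner character sum -/
def tau (e : (Fin n → ZMod 2) → (Fin n → ZMod 2)) (g u : Fin n → ZMod 2) : ℤ :=
  ∑ b, chi (b ⬝ᵥ g + u ⬝ᵥ e b)

variable (e : (Fin n → ZMod 2) → (Fin n → ZMod 2)) (he : ∀ b b', e (b + b') = e b + e b')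

include he in
lemma tau_nonneg (g u : Fin n → ZMod 2) : 0 ≤ tau e g u := by
  obtain ⟨w, hw⟩ := exists_dot (fun b => b ⬝ᵥ g + u ⬝ᵥ e b) (by
    intro s t
    rw [add_dotProduct, he, dotProduct_add]
    abel)
  have h : tau e g u = ∑ b, chi (b ⬝ᵥ w) :=
    sum_congr rfl fun b _ => by rw [hw b, dotProduct_comm]
  rw [h, sum_chi_dot]
  split_ifs <;> positivity

lemma sum_tau (g : Fin n → ZMod 2) : ∑ u, tau e g u = 2 ^ n * nu e g := by
  simp only [tau]
  rw [sum_comm, nu, mul_sum, Ker, sum_filter]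
  refine sum_congr rfl fun b _ => ?_
  have h : ∑ u, chi (b ⬝ᵥ g + u ⬝ᵥ e b) = chi (b ⬝ᵥ g) * ∑ u, chi (u ⬝ᵥ e b) := by
    rw [mul_sum]
    exact sum_congr rfl fun u _ => by rw [chi_add]
  rw [h, sum_chi_dot]
  split_ifs
  · ring
  · ring

include he in
lemma nu_nonneg (g : Fin n → ZMod 2) : 0 ≤ nu e g := by
  have h1 := sum_tau e g
  have h2 : 0 ≤ ∑ u, tau e g u := sum_nonneg fun u _ => tau_nonneg e he g u
  rw [h1] at h2
  exact nonneg_of_mul_nonneg_right h2 (by positivity)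

variable (f : (Fin n → ZMod 2) → (Fin n → ZMod 2))

lemma AC_add_dot (b e' : Fin n → ZMod 2) :
    AC f b e' = ∑ x, chi (b ⬝ᵥ (f x + f (x + e'))) := rfl

lemma sum_nu_eq (d : Fin n → ZMod 2) :
    ∑ x, nu e (f x + f (x + d)) = ∑ k ∈ Ker e, AC f k d := by
  simp only [nu, AC]
  rw [sum_comm]

include he in
/-- sum of the autocorrelations of a component over the image. -/
lemma image_sum (B : ℤ) (k : Fin n → ZMod 2) (hB : ∀ u, W f k u ^ 2 ≤ B) :
    ∑ b, AC f k (e b) ≤ B * (Ker e).card := by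
  have h1 : 2 ^ n * ∑ b, AC f k (e b) = ∑ u, W f k u ^ 2 * tau e 0 u := by
    rw [mul_sum]
    simp only [← sum_W_sq, tau, mul_sum]
    rw [sum_comm]
    refine sum_congr rfl fun u _ => sum_congr rfl fun b _ => ?_
    rw [dotProduct_zero, zero_add]
  have h2 : ∑ u, W f k u ^ 2 * tau e 0 u ≤ ∑ u, B * tau e 0 u :=
    sum_le_sum fun u _ => mul_le_mul_of_nonneg_right (hB u) (tau_nonneg e he 0 u)
  have h3 : nu e 0 = (Ker e).card := by
    simp [nu, chi_zero]
  rw [← mul_sum, sum_tau, h3] at h2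
  rw [← h1] at h2
  have h4 : (0 : ℤ) < 2 ^ n := by positivity
  have h5 : 2 ^ n * ∑ b, AC f k (e b) ≤ 2 ^ n * (B * (Ker e).card) := by linarith
  exact le_of_mul_le_mul_left h5 h4

lemma sum_Ker_compl (F : (Fin n → ZMod 2) → ℤ) :
    ∑ b, F b = ∑ b ∈ Ker e, F b + ∑ b ∈ (Ker e)ᶜ, F b := (sum_add_sum_compl _ _).symm

/-- part outside the kernel -/
def outside : ℤ := ∑ b ∈ (Ker e)ᶜ, AC f b (e b)

include he in
lemma shift_compl (k : Fin n → ZMod 2) (hk : e k = 0) (g : (Fin n → ZMod 2) → ℤ) :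
    ∑ b ∈ (Ker e)ᶜ, g (b + k) = ∑ b ∈ (Ker e)ᶜ, g b := by
  refine sum_bij' (fun b _ => b + k) (fun b _ => b + k) ?_ ?_ ?_ ?_ ?_
  · intro b hb
    rw [mem_compl, mem_Ker] at hb ⊢
    rwa [he, hk, add_zero]
  · intro b hb
    rw [mem_compl, mem_Ker] at hb ⊢
    rwa [he, hk, add_zero]
  · intro b _
    rw [add_assoc, add_self_vec, add_zero]
  · intro b _
    rw [add_assoc, add_self_vec, add_zero]
  · intro b _
    rfl

include he in
/-- the bound by cosets of the kernel. -/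
lemma coset_bound (B : ℤ) (hB : ∀ k, k ≠ 0 → ∀ u, W f k u ^ 2 ≤ B) :
    (Ker e).card * outside e f ≤ 2 ^ n * (2 ^ n - (Ker e).card) +
      ((Ker e).card - 1) * ((B - 2 ^ n) * (Ker e).card) := by
  have h1 : (Ker e).card * outside e f =
      ∑ b ∈ (Ker e)ᶜ, ∑ k ∈ Ker e, AC f (b + k) (e b) := by
    rw [sum_comm]
    have h2 : ∀ k ∈ Ker e, ∑ b ∈ (Ker e)ᶜ, AC f (b + k) (e b) = outside e f := by
      intro k hk
      rw [mem_Ker] at hk
      rw [outside, ← shift_compl e he k hk (fun b => AC f b (e b))]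
      refine sum_congr rfl fun b _ => ?_
      rw [he, hk, add_zero]
    rw [sum_congr rfl h2, sum_const, nsmul_eq_mul]
  have h3 : ∀ b, ∑ k ∈ Ker e, AC f (b + k) (e b) ≤ ∑ k ∈ Ker e, AC f k (e b) := by
    intro b
    rw [← sum_nu_eq]
    have h4 : ∑ k ∈ Ker e, AC f (b + k) (e b) =
        ∑ x, chi (b ⬝ᵥ (f x + f (x + e b))) * nu e (f x + f (x + e b)) := by
      simp only [AC, nu, mul_sum]
      rw [sum_comm]
      refine sum_congr rfl fun x _ => sum_congr rfl fun k _ => ?_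
      rw [add_dotProduct b k, chi_add]
    rw [h4]
    refine sum_le_sum fun x _ => ?_
    have h5 := nu_nonneg e he (f x + f (x + e b))
    rcases chi_cases (b ⬝ᵥ (f x + f (x + e b))) with h | h <;> rw [h] <;> linarith
  have h6 : (Ker e).card * outside e f ≤ ∑ k ∈ Ker e, ∑ b ∈ (Ker e)ᶜ, AC f k (e b) := by
    rw [h1, sum_comm]
    rw [sum_comm (s := Ker e) (t := (Ker e)ᶜ)]
    rw [sum_comm (s := Ker e) (t := (Ker e)ᶜ)]
    exact sum_le_sum fun b _ => h3 b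
  have e0 : e 0 = 0 := by
    have := he 0 0
    rw [add_zero, add_self_vec] at this
    exact this
  have hz : (0 : Fin n → ZMod 2) ∈ Ker e := (mem_Ker e 0).2 e0
  have h7 : ∀ k, ∑ b ∈ (Ker e)ᶜ, AC f k (e b) = ∑ b, AC f k (e b) - 2 ^ n * (Ker e).card := by
    intro k
    rw [sum_Ker_compl e (fun b => AC f k (e b))]
    have h8 : ∑ b ∈ Ker e, AC f k (e b) = 2 ^ n * (Ker e).card := by
      have h9 : ∑ b ∈ Ker e, AC f k (e b) = ∑ b ∈ Ker e, (2 : ℤ) ^ n :=
        sum_congr rfl fun b hb => by rw [(mem_Ker e b).1 hb, AC_zero_right]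
      rw [h9, sum_const, nsmul_eq_mul, mul_comm]
    rw [h8]
    ring
  rw [← add_sum_erase _ _ hz] at h6
  have h10 : ∑ b ∈ (Ker e)ᶜ, AC f 0 (e b) = 2 ^ n * (2 ^ n - (Ker e).card) := by
    rw [h7]
    simp only [AC_zero_left]
    rw [sum_const, nsmul_eq_mul, card_vec]
    ring
  have h11 : ∑ k ∈ (Ker e).erase 0, ∑ b ∈ (Ker e)ᶜ, AC f k (e b) ≤
      ∑ k ∈ (Ker e).erase 0, ((B - 2 ^ n) * (Ker e).card : ℤ) := by
    refine sum_le_sum fun k hk => ?_
    rw [h7]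
    have := image_sum e he f B k (hB k (ne_of_mem_erase hk))
    linarith
  have hpos : 1 ≤ (Ker e).card := card_pos.2 ⟨0, hz⟩
  rw [sum_const, nsmul_eq_mul, card_erase_of_mem hz, Nat.cast_sub hpos, Nat.cast_one] at h11
  linarith

/-- the sign matrix -/
def Sm (y b : Fin n → ZMod 2) : ℤ := chi (b ⬝ᵥ (f y + f (y + e b)))

/-- inner sum -/
def Is (x d : Fin n → ZMod 2) : ℤ := ∑ b, Sm e f (x + e b) b * Sm e f (x + e b) (b + d)

include he in
lemma Is_bound (L : ℤ) (x d : Fin n → ZMod 2) (hL : ∀ u, |W f d u| ≤ L) :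
    Is e f x d ≤ L * nu e (f x + f (x + e d)) := by
  have h1 : ∀ b, Sm e f (x + e b) b * Sm e f (x + e b) (b + d) =
      chi (d ⬝ᵥ f (x + e d)) * chi (b ⬝ᵥ (f x + f (x + e d)) + d ⬝ᵥ f (x + e b)) := by
    intro b
    rw [Sm, Sm]
    have e1 : x + e b + e b = x := by rw [add_assoc, add_self_vec, add_zero]
    have e2 : x + e b + e (b + d) = x + e d := by
      rw [he, ← add_assoc, e1]
    rw [e1, e2, ← chi_add, ← chi_add]
    congr 1
    simp only [dotProduct_add, add_dotProduct]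
    generalize b ⬝ᵥ f (x + e b) = a4
    generalize b ⬝ᵥ f x = a5
    generalize d ⬝ᵥ f (x + e b) = a6
    generalize b ⬝ᵥ f (x + e d) = a7
    generalize d ⬝ᵥ f (x + e d) = a8
    have c4 : a4 + a4 = 0 := CharTwo.add_self_eq_zero a4
    linear_combination c4
  set g := f x + f (x + e d) with hg
  have h2 : 2 ^ n * ∑ b, chi (b ⬝ᵥ g + d ⬝ᵥ f (x + e b)) =
      ∑ u, chi (u ⬝ᵥ x) * W f d u * tau e g u := by
    have h3 : ∀ u, chi (u ⬝ᵥ x) * W f d u * tau e g u =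
        ∑ b, ∑ v, chi (b ⬝ᵥ g + d ⬝ᵥ f v) * chi (u ⬝ᵥ (v + (x + e b))) := by
      intro u
      rw [tau, mul_sum]
      refine sum_congr rfl fun b _ => ?_
      rw [W, mul_sum, sum_mul]
      refine sum_congr rfl fun v _ => ?_
      simp only [dotProduct_add, chi_add]
      ring
    simp only [h3]
    rw [sum_comm, mul_sum]
    refine sum_congr rfl fun b _ => ?_
    rw [sum_comm]
    simp only [← mul_sum, sum_chi_dot]
    have h4 : ∀ v : Fin n → ZMod 2, (v + (x + e b) = 0) ↔ (v = x + e b) := by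
      intro v
      rw [add_comm v, add_eq_zero_iff_vec]
    simp only [h4, mul_ite, mul_zero]
    rw [sum_ite_eq' univ (x + e b) (fun v => chi (b ⬝ᵥ g + d ⬝ᵥ f v) * 2 ^ n)]
    simp [mul_comm]
  have h5 : |∑ u, chi (u ⬝ᵥ x) * W f d u * tau e g u| ≤ ∑ u, L * tau e g u := by
    refine (abs_sum_le_sum_abs _ _).trans (sum_le_sum fun u _ => ?_)
    rw [abs_mul, abs_mul, abs_chi, one_mul, abs_of_nonneg (tau_nonneg e he g u)]
    exact mul_le_mul_of_nonneg_right (hL u) (tau_nonneg e he g u)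
  rw [← mul_sum, sum_tau, ← h2, abs_mul, abs_of_pos (by positivity : (0 : ℤ) < 2 ^ n)] at h5
  have h6 : |∑ b, chi (b ⬝ᵥ g + d ⬝ᵥ f (x + e b))| ≤ L * nu e g := by
    have h7 : (0 : ℤ) < 2 ^ n := by positivity
    have h8 : 2 ^ n * |∑ b, chi (b ⬝ᵥ g + d ⬝ᵥ f (x + e b))| ≤ 2 ^ n * (L * nu e g) := by
      linarith
    exact le_of_mul_le_mul_left h8 h7
  have h9 : Is e f x d = chi (d ⬝ᵥ f (x + e d)) * ∑ b, chi (b ⬝ᵥ g + d ⬝ᵥ f (x + e b)) := by
    rw [Is, mul_sum]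
    exact sum_congr rfl fun b _ => h1 b
  rw [h9]
  refine (le_abs_self _).trans ?_
  rw [abs_mul, abs_chi, one_mul]
  exact h6

lemma Is_zero (x : Fin n → ZMod 2) : Is e f x 0 = 2 ^ n := by
  rw [Is]
  have : ∀ b, Sm e f (x + e b) b * Sm e f (x + e b) (b + 0) = 1 := fun b => by
    rw [add_zero]
    exact chi_mul_self _
  rw [sum_congr rfl fun b _ => this b, sum_const, nsmul_eq_mul, card_vec, mul_one]

lemma sum_sq_Sm : ∑ y, (∑ b, Sm e f y b) ^ 2 = ∑ d, ∑ x, Is e f x d := by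
  have h1 : ∀ y, (∑ b, Sm e f y b) ^ 2 = ∑ b, ∑ d, Sm e f y b * Sm e f y (b + d) := by
    intro y
    rw [sq, sum_mul_sum]
    refine sum_congr rfl fun b _ => ?_
    have := sum_shift (fun d => Sm e f y b * Sm e f y d) b
    rw [← this]
    refine sum_congr rfl fun d _ => ?_
    rw [add_comm d b]
  simp only [h1]
  have h2 : ∀ d x, Is e f x d = ∑ b, Sm e f (x + e b) b * Sm e f (x + e b) (b + d) :=
    fun d x => rfl
  simp only [h2]
  have h3 : ∀ d : Fin n → ZMod 2,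
      ∑ x, ∑ b, Sm e f (x + e b) b * Sm e f (x + e b) (b + d) =
      ∑ b, ∑ x, Sm e f x b * Sm e f x (b + d) := by
    intro d
    rw [sum_comm]
    refine sum_congr rfl fun b _ => ?_
    exact sum_shift (fun x => Sm e f x b * Sm e f x (b + d)) (e b)
  simp only [h3]
  calc ∑ y, ∑ b, ∑ d, Sm e f y b * Sm e f y (b + d)
      = ∑ b, ∑ y, ∑ d, Sm e f y b * Sm e f y (b + d) := sum_comm
    _ = ∑ b, ∑ d, ∑ y, Sm e f y b * Sm e f y (b + d) := sum_congr rfl fun b _ => sum_comm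
    _ = ∑ d, ∑ b, ∑ y, Sm e f y b * Sm e f y (b + d) := sum_comm

include he in
/-- the bound by near-orthogonality. -/
lemma near_bound (L B : ℤ) (hL0 : 0 ≤ L) (hL : ∀ d, d ≠ 0 → ∀ u, |W f d u| ≤ L)
    (hB : ∀ k, k ≠ 0 → ∀ u, W f k u ^ 2 ≤ B) :
    (∑ b, AC f b (e b)) ^ 2 ≤ 2 ^ n * (2 ^ n * 2 ^ n + L * (2 ^ n * (2 ^ n - 1) +
      ((Ker e).card - 1) * (B * (Ker e).card - 2 ^ n))) := by
  have e0 : e 0 = 0 := by
    have := he 0 0
    rw [add_zero, add_self_vec] at this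
    exact this
  have hz : (0 : Fin n → ZMod 2) ∈ Ker e := (mem_Ker e 0).2 e0
  have h3 : ∑ b, AC f b (e b) = ∑ y, ∑ b, Sm e f y b := by
    rw [sum_comm]
    rfl
  have h5 : (∑ y, ∑ b, Sm e f y b) ^ 2 ≤ 2 ^ n * ∑ y, (∑ b, Sm e f y b) ^ 2 := by
    have := sq_sum_le_card_mul_sum_sq (s := (univ : Finset (Fin n → ZMod 2)))
      (f := fun y => ∑ b, Sm e f y b)
    rw [card_vec] at this
    exact this
  have h6 : ∑ y, (∑ b, Sm e f y b) ^ 2 ≤ 2 ^ n * 2 ^ n + L * (2 ^ n * (2 ^ n - 1) +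
      ((Ker e).card - 1) * (B * (Ker e).card - 2 ^ n)) := by
    rw [sum_sq_Sm, ← add_sum_erase univ _ (mem_univ (0 : Fin n → ZMod 2))]
    simp only [Is_zero]
    have h7 : ∑ d ∈ univ.erase (0 : Fin n → ZMod 2), ∑ x, Is e f x d ≤
        ∑ d ∈ univ.erase (0 : Fin n → ZMod 2), L * ∑ k ∈ Ker e, AC f k (e d) := by
      refine sum_le_sum fun d hd => ?_
      rw [← sum_nu_eq, mul_sum]
      exact sum_le_sum fun x _ => Is_bound e he f L x d (hL d (ne_of_mem_erase hd))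
    have h7' : ∑ d ∈ univ.erase (0 : Fin n → ZMod 2), ∑ k ∈ Ker e, AC f k (e d) =
        ∑ k ∈ Ker e, ∑ d ∈ univ.erase (0 : Fin n → ZMod 2), AC f k (e d) := sum_comm
    rw [← mul_sum, h7'] at h7
    have h8 : ∀ k, ∑ d ∈ univ.erase (0 : Fin n → ZMod 2), AC f k (e d) =
        ∑ d, AC f k (e d) - 2 ^ n := by
      intro k
      rw [← add_sum_erase univ _ (mem_univ (0 : Fin n → ZMod 2)), e0, AC_zero_right]
      ring
    have h9 : ∑ k ∈ Ker e, ∑ d ∈ univ.erase (0 : Fin n → ZMod 2), AC f k (e d) ≤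
        2 ^ n * (2 ^ n - 1) + ((Ker e).card - 1) * (B * (Ker e).card - 2 ^ n) := by
      rw [← add_sum_erase _ _ hz]
      have h10 : ∑ d ∈ univ.erase (0 : Fin n → ZMod 2), AC f 0 (e d) = 2 ^ n * (2 ^ n - 1) := by
        rw [h8]
        simp only [AC_zero_left]
        rw [sum_const, nsmul_eq_mul, card_vec]
        ring
      have h11 : ∑ k ∈ (Ker e).erase 0, ∑ d ∈ univ.erase (0 : Fin n → ZMod 2), AC f k (e d) ≤
          ∑ k ∈ (Ker e).erase 0, (B * (Ker e).card - 2 ^ n : ℤ) := by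
        refine sum_le_sum fun k hk => ?_
        rw [h8]
        have := image_sum e he f B k (hB k (ne_of_mem_erase hk))
        linarith
      have hpos : 1 ≤ (Ker e).card := card_pos.2 ⟨0, hz⟩
      rw [sum_const, nsmul_eq_mul, card_erase_of_mem hz, Nat.cast_sub hpos, Nat.cast_one] at h11
      linarith
    have h12 : L * ∑ k ∈ Ker e, ∑ d ∈ univ.erase (0 : Fin n → ZMod 2), AC f k (e d) ≤
        L * (2 ^ n * (2 ^ n - 1) + ((Ker e).card - 1) * (B * (Ker e).card - 2 ^ n)) :=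
      mul_le_mul_of_nonneg_left h9 hL0
    rw [sum_const, nsmul_eq_mul, card_vec]
    linarith
  rw [h3]
  refine h5.trans (mul_le_mul_of_nonneg_left h6 (by positivity))

end Pool.Agent.Lib.MP_ea66ba_co
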