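import Mathlib
import Pool.Agent.Lib.MP_ea66ba_co.Slope

set_option autoImplicit false

/-!
Maps of the 8-dimensional space whose components have weights divisible by four: linearity at
least 28 if fewer than 64 of the components have degree at most six.
-/

namespace Pool.Agent.Lib.MP_ea66ba_co

open Finset Matrix

/-- slope of a component: the vector of its coefficients of degree seven -/
def slope {n : ℕ} (f : (Fin n → ZMod 2) → (Fin n → ZMod 2)) (b : Fin n → ZMod 2) :
    Fin n → ZMod 2 := ∑ v, (b ⬝ᵥ f v) • v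

lemma slope_add {n : ℕ} (f : (Fin n → ZMod 2) → (Fin n → ZMod 2)) (b b' : Fin n → ZMod 2) :
    slope f (b + b') = slope f b + slope f b' := by
  simp only [slope, add_dotProduct, add_smul, sum_add_distrib]

lemma slope_dot {n : ℕ} (f : (Fin n → ZMod 2) → (Fin n → ZMod 2)) (b u : Fin n → ZMod 2) :
    slope f b ⬝ᵥ u = ∑ v, (b ⬝ᵥ f v) * (u ⬝ᵥ v) := by
  rw [slope, sum_dotProduct]
  refine sum_congr rfl fun v _ => ?_
  rw [smul_dotProduct, smul_eq_mul, dotProduct_comm v u]

lemma ptw_six (k : ℤ) (hk : |k| ≤ 6) :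
    2 * k ^ 4 ≤ 62 * k ^ 2 + 10 * (k ^ 2 * chi ((k : ℤ) : ZMod 2))
      - 25 * (1 - chi ((k : ℤ) : ZMod 2)) := by
  rw [abs_le] at hk
  obtain ⟨h1, h2⟩ := hk
  have hodd : ∀ j : ℤ, chi ((2 * j + 1 : ℤ) : ZMod 2) = -1 := by
    intro j
    push_cast
    have : (2 : ZMod 2) = 0 := by decide
    rw [this, zero_mul, zero_add, chi_one]
  have heven : ∀ j : ℤ, chi ((2 * j : ℤ) : ZMod 2) = 1 := by
    intro j
    push_cast
    have : (2 : ZMod 2) = 0 := by decide
    rw [this, zero_mul, chi_zero]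
  rcases Int.even_or_odd' k with ⟨j, hj | hj⟩
  · rw [hj, heven j]
    have h3 : -3 ≤ j := by omega
    have h4 : j ≤ 3 := by omega
    clear heven hodd hj h1 h2
    interval_cases j <;> norm_num
  · rw [hj, hodd j]
    have h3 : -3 ≤ j := by omega
    have h4 : j ≤ 2 := by omega
    clear heven hodd hj h1 h2
    interval_cases j <;> norm_num

lemma scale_six (k c : ℤ) (h : 2 * k ^ 4 ≤ 62 * k ^ 2 + 10 * (k ^ 2 * c) - 25 * (1 - c)) :
    2 * (4 * k) ^ 4 ≤ 992 * ((4 * k) ^ 2 * 1) + 160 * ((4 * k) ^ 2 * c) - 6400 + 6400 * c := by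
  have h1 : 2 * (4 * k) ^ 4 = 256 * (2 * k ^ 4) := by ring
  have h2 : 992 * ((4 * k) ^ 2 * 1) + 160 * ((4 * k) ^ 2 * c) - 6400 + 6400 * c =
      256 * (62 * k ^ 2 + 10 * (k ^ 2 * c) - 25 * (1 - c)) := by ring
  rw [h1, h2]
  linarith

/-- the final contradiction. -/
lemma final_num (j : ℕ) (hj : j < 6) (S X Y c : ℤ) (hc : c = 2 ^ j) (h1 : 33423360 ≤ X + Y)
    (h2 : 512 * X ≤ (c - 1) * 75497472)
    (h3 : 512 * Y ≤ (256 - c) * 63373312 + 40960 * S)
    (h4 : c * S ≤ 256 * (256 - c) + (c - 1) * ((576 - 256) * c))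
    (h5 : (256 * c + S) ^ 2 ≤ 256 * (256 * 256 + 24 * (256 * (256 - 1) +
      (c - 1) * (576 * c - 256)))) : False := by
  subst hc
  interval_cases j
  · norm_num at h2 h3 h4 h5
    nlinarith
  · norm_num at h2 h3 h4 h5
    nlinarith
  · norm_num at h2 h3 h4 h5
    nlinarith
  · norm_num at h2 h3 h4
    linarith
  · norm_num at h2 h3 h4
    linarith
  · norm_num at h2 h3 h4
    linarith

variable (f : (Fin 8 → ZMod 2) → (Fin 8 → ZMod 2)) (hw : ∀ b, (4 : ℤ) ∣ wt (fun v => b ⬝ᵥ f v))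

include hw in
lemma exists_k (b u : Fin 8 → ZMod 2) :
    ∃ k : ℤ, W f b u = 4 * k ∧ ((k : ℤ) : ZMod 2) = slope f b ⬝ᵥ u := by
  have h1 : W f b u = 2 ^ 8 - 2 * wt (fun v => b ⬝ᵥ f v + u ⬝ᵥ v) :=
    sum_chi_eq (fun v => b ⬝ᵥ f v + u ⬝ᵥ v)
  obtain ⟨a, ha⟩ := hw b
  have h3 := wt_comp (Equiv.refl _) u
  simp only [Equiv.refl_apply] at h3
  rw [wt_add, ha] at h1
  refine ⟨2 * (32 * (if u = 0 then 1 else 0) - a)
    + wt (fun v => (b ⬝ᵥ f v) * (u ⬝ᵥ v)), ?_, ?_⟩
  · rw [h1]
    have h4 : (if u = 0 then (2 : ℤ) ^ 8 else 0) = 256 * (if u = 0 then 1 else 0) := by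
      split_ifs <;> norm_num
    rw [h4] at h3
    linarith
  · rw [Int.cast_add, Int.cast_mul, wt_cast, slope_dot]
    have : ((2 : ℤ) : ZMod 2) = 0 := by decide
    rw [this, zero_mul, zero_add]

include hw in
lemma comp_bound (b : Fin 8 → ZMod 2) (hb : ∀ u, |W f b u| < 28) :
    512 * ∑ e, AC f b e ^ 2 ≤ 65011712 + 40960 * AC f b (slope f b)
      - (1638400 - if slope f b = 0 then 1638400 else 0) := by
  have h1 : ∀ u, 2 * W f b u ^ 4 ≤ 992 * (W f b u ^ 2 * chi (u ⬝ᵥ (0 : Fin 8 → ZMod 2)))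
      + 160 * (W f b u ^ 2 * chi (u ⬝ᵥ slope f b)) - 6400
      + 6400 * chi (u ⬝ᵥ slope f b) := by
    intro u
    obtain ⟨k, hk, hk2⟩ := exists_k f hw b u
    have h2 := hb u
    rw [hk, abs_mul] at h2
    norm_num at h2
    have h3 : |k| ≤ 6 := by omega
    have h4 := ptw_six k h3
    rw [hk2, dotProduct_comm] at h4
    rw [hk, dotProduct_zero, chi_zero]
    exact scale_six k _ h4
  have h2 : ∑ u, 2 * W f b u ^ 4 ≤ 992 * (2 ^ 8 * AC f b 0)
      + 160 * (2 ^ 8 * AC f b (slope f b)) - 6400 * 256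
      + 6400 * (if slope f b = 0 then 2 ^ 8 else 0) := by
    refine (sum_le_sum fun u _ => h1 u).trans (le_of_eq ?_)
    simp only [sum_add_distrib, sum_sub_distrib, ← mul_sum, sum_W_sq, sum_chi_dot]
    rw [sum_const, nsmul_eq_mul, card_vec]
    norm_num
  have h3 := sum_AC_sq f b
  rw [← mul_sum, ← h3, AC_zero_right] at h2
  split_ifs at h2 ⊢ <;> norm_num at h2 ⊢ <;> linarith

include hw in
/-- maps of the 8-dimensional space, few components of degree at most six. -/
theorem eight_rank (hc : (Ker (slope f)).card < 64) :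
    ∃ b, b ≠ 0 ∧ ∃ u, (28 : ℤ) ≤ |W f b u| := by
  by_contra hcon
  push Not at hcon
  have he := slope_add f
  have hL : ∀ d, d ≠ 0 → ∀ u, |W f d u| ≤ 24 := by
    intro d hd u
    obtain ⟨k, hk, -⟩ := exists_k f hw d u
    have h2 := hcon d hd u
    rw [hk, abs_mul] at h2 ⊢
    norm_num at h2 ⊢
    omega
  have hB : ∀ k, k ≠ 0 → ∀ u, W f k u ^ 2 ≤ 576 := by
    intro k hk u
    have h1 := hL k hk u
    rw [abs_le] at h1
    nlinarith
  have e0 : slope f 0 = 0 := by
    have := he 0 0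
    rw [add_zero, add_self_vec] at this
    exact this
  have hz : (0 : Fin 8 → ZMod 2) ∈ Ker (slope f) := (mem_Ker _ 0).2 e0
  have hpos : 1 ≤ (Ker (slope f)).card := card_pos.2 ⟨0, hz⟩
  -- the cardinality of the kernel is a power of two
  have hdvd : (Ker (slope f)).card ∣ 2 ^ 8 := by
    let E : (Fin 8 → ZMod 2) →+ (Fin 8 → ZMod 2) :=
      { toFun := slope f, map_zero' := e0, map_add' := he }
    have h1 : Nat.card E.ker = (Ker (slope f)).card := by
      rw [Nat.card_eq_fintype_card]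
      exact Fintype.card_of_subtype (Ker (slope f)) (by
        intro x
        rw [mem_Ker, AddMonoidHom.mem_ker]
        rfl)
    have h2 : Nat.card (Fin 8 → ZMod 2) = 2 ^ 8 := by
      rw [Nat.card_eq_fintype_card]
      simp
    rw [← h1, ← h2]
    exact AddSubgroup.card_addSubgroup_dvd_card E.ker
  obtain ⟨j, hj, hj2⟩ := (Nat.dvd_prime_pow Nat.prime_two).1 hdvd
  have p8 : (2 : ℤ) ^ 8 = 256 := by norm_num
  -- the moment inequality
  have h1 := moment f
  have hsplit : (univ.erase (0 : Fin 8 → ZMod 2)) =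
      (Ker (slope f)).erase 0 ∪ (Ker (slope f))ᶜ := by
    ext b
    simp only [mem_erase, mem_univ, and_true, mem_union, mem_compl]
    constructor
    · intro hb
      by_cases hk : b ∈ Ker (slope f)
      · exact Or.inl ⟨hb, hk⟩
      · exact Or.inr hk
    · rintro (⟨hb, _⟩ | hb)
      · exact hb
      · rintro rfl
        exact hb hz
  have hdis : Disjoint ((Ker (slope f)).erase 0) (Ker (slope f))ᶜ := by
    rw [Finset.disjoint_left]
    intro b hb hb'
    exact (mem_compl.1 hb') (mem_of_mem_erase hb)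
  rw [hsplit, sum_union hdis] at h1
  have h2 : ∑ b ∈ (Ker (slope f)).erase 0, 512 * ∑ e, AC f b e ^ 2 ≤
      ∑ b ∈ (Ker (slope f)).erase 0, (75497472 : ℤ) := by
    refine sum_le_sum fun b hb => ?_
    have h3 := comp_bound f hw b (hcon b (ne_of_mem_erase hb))
    have h4 := (mem_Ker _ b).1 (mem_of_mem_erase hb)
    rw [h4, AC_zero_right, if_pos rfl, p8] at h3
    linarith
  have h3 : ∑ b ∈ (Ker (slope f))ᶜ, 512 * ∑ e, AC f b e ^ 2 ≤
      ∑ b ∈ (Ker (slope f))ᶜ, (63373312 + 40960 * AC f b (slope f b) : ℤ) := by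
    refine sum_le_sum fun b hb => ?_
    have hb' : slope f b ≠ 0 := fun h => (mem_compl.1 hb) ((mem_Ker _ b).2 h)
    have hb0 : b ≠ 0 := by
      rintro rfl
      exact hb' e0
    have h3 := comp_bound f hw b (hcon b hb0)
    rw [if_neg hb'] at h3
    linarith
  have hcc : (((Ker (slope f))ᶜ).card : ℤ) = 256 - (Ker (slope f)).card := by
    have h : (Ker (slope f)).card + ((Ker (slope f))ᶜ).card =
        (univ : Finset (Fin 8 → ZMod 2)).card := by
      rw [card_add_card_compl, card_univ]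
    have h2 : ((Ker (slope f)).card : ℤ) + (((Ker (slope f))ᶜ).card : ℤ) =
        ((univ : Finset (Fin 8 → ZMod 2)).card : ℤ) := by
      exact_mod_cast h
    rw [card_vec, p8] at h2
    linarith
  rw [← mul_sum, sum_const, nsmul_eq_mul, card_erase_of_mem hz, Nat.cast_sub hpos,
    Nat.cast_one] at h2
  rw [← mul_sum, sum_add_distrib, ← mul_sum, sum_const, nsmul_eq_mul, hcc] at h3
  have h4 := coset_bound (slope f) he f 576 hB
  have h5 := near_bound (slope f) he f 24 576 (by norm_num) hL hB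
  have h9 : ∑ b ∈ Ker (slope f), AC f b (slope f b) = 256 * (Ker (slope f)).card := by
    have h10 : ∑ b ∈ Ker (slope f), AC f b (slope f b) = ∑ b ∈ Ker (slope f), (256 : ℤ) :=
      sum_congr rfl fun b hb => by
        rw [(mem_Ker _ b).1 hb, AC_zero_right, p8]
    rw [h10, sum_const, nsmul_eq_mul, mul_comm]
  have h6 : ∑ b, AC f b (slope f b) =
      256 * (Ker (slope f)).card + outside (slope f) f := by
    rw [sum_Ker_compl (slope f) (fun b => AC f b (slope f b)), h9, outside]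
  rw [h6] at h5
  have h7 : ∑ b ∈ (Ker (slope f))ᶜ, AC f b (slope f b) = outside (slope f) f := rfl
  rw [h7] at h3
  generalize outside (slope f) f = S at *
  generalize ∑ b ∈ (Ker (slope f)).erase 0, ∑ e, AC f b e ^ 2 = X at *
  generalize ∑ b ∈ (Ker (slope f))ᶜ, ∑ e, AC f b e ^ 2 = Y at *
  rw [p8] at h1 h4 h5
  have hj6 : j < 6 := by
    by_contra hcon6
    push Not at hcon6
    have : 2 ^ 6 ≤ 2 ^ j := Nat.pow_le_pow_right (by norm_num) hcon6
    rw [hj2] at hc
    omega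
  have hc2 : ((Ker (slope f)).card : ℤ) = 2 ^ j := by
    rw [hj2]
    push_cast
    rfl
  exact final_num j hj6 S X Y _ hc2 (by linarith) h2 h3 h4 h5

/-- components of permutations have weight 128 or 0. -/
lemma perm_weight (g : Equiv.Perm (Fin 8 → ZMod 2)) (b : Fin 8 → ZMod 2) :
    (4 : ℤ) ∣ wt (fun v => b ⬝ᵥ g v) := by
  have h := wt_comp g b
  split_ifs at h
  · have h2 : wt (fun v => b ⬝ᵥ g v) = 0 := by linarith
    rw [h2]
    exact dvd_zero _
  · have h2 : wt (fun v => b ⬝ᵥ g v) = 4 * 32 := by norm_num at h; linarith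
    rw [h2]
    exact dvd_mul_right _ _

end Pool.Agent.Lib.MP_ea66ba_co
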