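import Mathlib
import Pool.Agent.Lib.MP_ea66ba_co.EightPerm

set_option autoImplicit false

/-!
Near-orthogonality of the sign matrix with quadratic signs, and maps of the 8-dimensional space
with value sum zero.
-/

namespace Pool.Agent.Lib.MP_ea66ba_co

open Finset Matrix

variable {n : ℕ}

section quadratic

variable (e : (Fin n → ZMod 2) → (Fin n → ZMod 2)) (he : ∀ b b', e (b + b') = e b + e b')
  (q : (Fin n → ZMod 2) → ZMod 2) (β : (Fin n → ZMod 2) → (Fin n → ZMod 2) → ZMod 2)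
  (hβ : ∀ b b' d, β (b + b') d = β b d + β b' d) (hs : ∀ b d, β b d = β d b)
  (hq : ∀ b d, q (b + d) = q b + q d + β b d)
  (f : (Fin n → ZMod 2) → (Fin n → ZMod 2))

/-- character sum over the kernel -/
def nuq (d g : Fin n → ZMod 2) : ℤ := ∑ b ∈ Ker e, chi (β b d + b ⬝ᵥ g)

/-- inner character sum -/
def tauq (d g u : Fin n → ZMod 2) : ℤ := ∑ b, chi (β b d + b ⬝ᵥ g + u ⬝ᵥ e b)

include he hβ in
lemma tauq_nonneg (d g u : Fin n → ZMod 2) : 0 ≤ tauq e β d g u := by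
  obtain ⟨w, hw⟩ := exists_dot (fun b => β b d + b ⬝ᵥ g + u ⬝ᵥ e b) (by
    intro s t
    rw [add_dotProduct, he, dotProduct_add, hβ]
    abel)
  have h : tauq e β d g u = ∑ b, chi (b ⬝ᵥ w) :=
    sum_congr rfl fun b _ => by rw [hw b, dotProduct_comm]
  rw [h, sum_chi_dot]
  split_ifs <;> positivity

lemma sum_tauq (d g : Fin n → ZMod 2) : ∑ u, tauq e β d g u = 2 ^ n * nuq e β d g := by
  simp only [tauq]
  rw [sum_comm, nuq, mul_sum, Ker, sum_filter]
  refine sum_congr rfl fun b _ => ?_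
  have h : ∑ u, chi (β b d + b ⬝ᵥ g + u ⬝ᵥ e b) =
      chi (β b d + b ⬝ᵥ g) * ∑ u, chi (u ⬝ᵥ e b) := by
    rw [mul_sum]
    exact sum_congr rfl fun u _ => by rw [chi_add]
  rw [h, sum_chi_dot]
  split_ifs
  · ring
  · ring

lemma sum_nuq_eq (d t : Fin n → ZMod 2) :
    ∑ x, nuq e β d (f x + f (x + t)) = ∑ k ∈ Ker e, chi (β k d) * AC f k t := by
  simp only [nuq, AC, mul_sum]
  rw [sum_comm]
  exact sum_congr rfl fun k _ => sum_congr rfl fun x _ => by rw [chi_add]

lemma nuq_le (d g : Fin n → ZMod 2) : nuq e β d g ≤ (Ker e).card := by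
  have h : nuq e β d g ≤ ∑ b ∈ Ker e, (1 : ℤ) := by
    refine sum_le_sum fun b _ => ?_
    rcases chi_cases (β b d + b ⬝ᵥ g) with h | h <;> rw [h] <;> norm_num
  rwa [sum_const, nsmul_eq_mul, mul_one] at h

include he hβ hs in
/-- twisted sum of the autocorrelations of a component over the image. -/
lemma image_sumq (B : ℤ) (hB0 : 0 ≤ B) (k : Fin n → ZMod 2) (hB : ∀ u, W f k u ^ 2 ≤ B) :
    ∑ d, chi (β k d) * AC f k (e d) ≤ B * (Ker e).card := by
  have h1 : 2 ^ n * ∑ d, chi (β k d) * AC f k (e d) = ∑ u, W f k u ^ 2 * tauq e β k 0 u := by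
    rw [mul_sum]
    have h2 : ∀ d, 2 ^ n * (chi (β k d) * AC f k (e d)) =
        chi (β k d) * ∑ u, W f k u ^ 2 * chi (u ⬝ᵥ e d) := by
      intro d
      rw [sum_W_sq]
      ring
    simp only [h2, tauq, mul_sum]
    rw [sum_comm]
    refine sum_congr rfl fun u _ => sum_congr rfl fun d _ => ?_
    rw [dotProduct_zero, add_zero, chi_add, hs d k]
    ring
  have h2 : ∑ u, W f k u ^ 2 * tauq e β k 0 u ≤ ∑ u, B * tauq e β k 0 u :=
    sum_le_sum fun u _ => mul_le_mul_of_nonneg_right (hB u) (tauq_nonneg e he β hβ k 0 u)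
  rw [← mul_sum, sum_tauq] at h2
  rw [← h1] at h2
  have h3 := nuq_le e β k 0
  have h4 : (0 : ℤ) < 2 ^ n := by positivity
  have h5 : B * (2 ^ n * nuq e β k 0) ≤ 2 ^ n * (B * (Ker e).card) := by
    have : B * (2 ^ n * nuq e β k 0) = 2 ^ n * (B * nuq e β k 0) := by ring
    rw [this]
    exact mul_le_mul_of_nonneg_left (mul_le_mul_of_nonneg_left h3 hB0) h4.le
  exact le_of_mul_le_mul_left (h2.trans h5) h4

/-- the sign matrix -/
def Smq (y b : Fin n → ZMod 2) : ℤ := chi (q b) * chi (b ⬝ᵥ (f y + f (y + e b)))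

/-- inner sum -/
def Isq (x d : Fin n → ZMod 2) : ℤ := ∑ b, Smq e q f (x + e b) b * Smq e q f (x + e b) (b + d)

include he hβ hq in
lemma Isq_bound (L : ℤ) (x d : Fin n → ZMod 2) (hL : ∀ u, |W f d u| ≤ L) :
    Isq e q f x d ≤ L * nuq e β d (f x + f (x + e d)) := by
  have h1 : ∀ b, Smq e q f (x + e b) b * Smq e q f (x + e b) (b + d) =
      chi (q d + d ⬝ᵥ f (x + e d)) *
        chi (β b d + b ⬝ᵥ (f x + f (x + e d)) + d ⬝ᵥ f (x + e b)) := by
    intro b
    rw [Smq, Smq]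
    have e1 : x + e b + e b = x := by rw [add_assoc, add_self_vec, add_zero]
    have e2 : x + e b + e (b + d) = x + e d := by
      rw [he, ← add_assoc, e1]
    rw [e1, e2, ← chi_add, ← chi_add, ← chi_add, ← chi_add, hq]
    congr 1
    simp only [dotProduct_add, add_dotProduct]
    generalize q b = a1
    generalize q d = a2
    generalize β b d = a3
    generalize b ⬝ᵥ f (x + e b) = a4
    generalize b ⬝ᵥ f x = a5
    generalize d ⬝ᵥ f (x + e b) = a6
    generalize b ⬝ᵥ f (x + e d) = a7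
    generalize d ⬝ᵥ f (x + e d) = a8
    have c1 : a1 + a1 = 0 := CharTwo.add_self_eq_zero a1
    have c4 : a4 + a4 = 0 := CharTwo.add_self_eq_zero a4
    linear_combination c1 + c4
  set g := f x + f (x + e d) with hg
  have h2 : 2 ^ n * ∑ b, chi (β b d + b ⬝ᵥ g + d ⬝ᵥ f (x + e b)) =
      ∑ u, chi (u ⬝ᵥ x) * W f d u * tauq e β d g u := by
    have h3 : ∀ u, chi (u ⬝ᵥ x) * W f d u * tauq e β d g u =
        ∑ b, ∑ v, chi (β b d + b ⬝ᵥ g + d ⬝ᵥ f v) * chi (u ⬝ᵥ (v + (x + e b))) := by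
      intro u
      rw [tauq, mul_sum]
      refine sum_congr rfl fun b _ => ?_
      rw [W, mul_sum, sum_mul]
      refine sum_congr rfl fun v _ => ?_
      simp only [dotProduct_add, chi_add]
      ring
    simp only [h3]
    rw [sum_comm, mul_sum]
    refine sum_congr rfl fun b _ => ?_
    rw [sum_comm]
    simp only [← mul_sum, sum_chi_dot]
    have h4 : ∀ v : Fin n → ZMod 2, (v + (x + e b) = 0) ↔ (v = x + e b) := by
      intro v
      rw [add_comm v, add_eq_zero_iff_vec]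
    simp only [h4, mul_ite, mul_zero]
    rw [sum_ite_eq' univ (x + e b) (fun v => chi (β b d + b ⬝ᵥ g + d ⬝ᵥ f v) * 2 ^ n)]
    simp [mul_comm]
  have h5 : |∑ u, chi (u ⬝ᵥ x) * W f d u * tauq e β d g u| ≤ ∑ u, L * tauq e β d g u := by
    refine (abs_sum_le_sum_abs _ _).trans (sum_le_sum fun u _ => ?_)
    rw [abs_mul, abs_mul, abs_chi, one_mul, abs_of_nonneg (tauq_nonneg e he β hβ d g u)]
    exact mul_le_mul_of_nonneg_right (hL u) (tauq_nonneg e he β hβ d g u)
  rw [← mul_sum, sum_tauq, ← h2, abs_mul, abs_of_pos (by positivity : (0 : ℤ) < 2 ^ n)] at h5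
  have h6 : |∑ b, chi (β b d + b ⬝ᵥ g + d ⬝ᵥ f (x + e b))| ≤ L * nuq e β d g := by
    have h7 : (0 : ℤ) < 2 ^ n := by positivity
    have h8 : 2 ^ n * |∑ b, chi (β b d + b ⬝ᵥ g + d ⬝ᵥ f (x + e b))| ≤
        2 ^ n * (L * nuq e β d g) := by
      linarith
    exact le_of_mul_le_mul_left h8 h7
  have h9 : Isq e q f x d = chi (q d + d ⬝ᵥ f (x + e d)) *
      ∑ b, chi (β b d + b ⬝ᵥ g + d ⬝ᵥ f (x + e b)) := by
    rw [Isq, mul_sum]
    exact sum_congr rfl fun b _ => h1 b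
  rw [h9]
  refine (le_abs_self _).trans ?_
  rw [abs_mul, abs_chi, one_mul]
  exact h6

lemma Smq_sq (y b : Fin n → ZMod 2) : Smq e q f y b * Smq e q f y b = 1 := by
  rw [Smq]
  have h1 := chi_mul_self (q b)
  have h2 := chi_mul_self (b ⬝ᵥ (f y + f (y + e b)))
  linear_combination h1 * (chi (b ⬝ᵥ (f y + f (y + e b))) *
    chi (b ⬝ᵥ (f y + f (y + e b)))) + h2

lemma Isq_zero (x : Fin n → ZMod 2) : Isq e q f x 0 = 2 ^ n := by
  rw [Isq]
  have : ∀ b, Smq e q f (x + e b) b * Smq e q f (x + e b) (b + 0) = 1 := fun b => by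
    rw [add_zero]
    exact Smq_sq e q f _ _
  rw [sum_congr rfl fun b _ => this b, sum_const, nsmul_eq_mul, card_vec, mul_one]

lemma sum_sq_Smq : ∑ y, (∑ b, Smq e q f y b) ^ 2 = ∑ d, ∑ x, Isq e q f x d := by
  have h1 : ∀ y, (∑ b, Smq e q f y b) ^ 2 = ∑ b, ∑ d, Smq e q f y b * Smq e q f y (b + d) := by
    intro y
    rw [sq, sum_mul_sum]
    refine sum_congr rfl fun b _ => ?_
    have := sum_shift (fun d => Smq e q f y b * Smq e q f y d) b
    rw [← this]
    refine sum_congr rfl fun d _ => ?_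
    rw [add_comm d b]
  simp only [h1]
  have h2 : ∀ d x, Isq e q f x d = ∑ b, Smq e q f (x + e b) b * Smq e q f (x + e b) (b + d) :=
    fun d x => rfl
  simp only [h2]
  have h3 : ∀ d : Fin n → ZMod 2,
      ∑ x, ∑ b, Smq e q f (x + e b) b * Smq e q f (x + e b) (b + d) =
      ∑ b, ∑ x, Smq e q f x b * Smq e q f x (b + d) := by
    intro d
    rw [sum_comm]
    refine sum_congr rfl fun b _ => ?_
    exact sum_shift (fun x => Smq e q f x b * Smq e q f x (b + d)) (e b)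
  simp only [h3]
  calc ∑ y, ∑ b, ∑ d, Smq e q f y b * Smq e q f y (b + d)
      = ∑ b, ∑ y, ∑ d, Smq e q f y b * Smq e q f y (b + d) := sum_comm
    _ = ∑ b, ∑ d, ∑ y, Smq e q f y b * Smq e q f y (b + d) :=
        sum_congr rfl fun b _ => sum_comm
    _ = ∑ d, ∑ b, ∑ y, Smq e q f y b * Smq e q f y (b + d) := sum_comm

include he hβ hs hq in
/-- the bound by near-orthogonality. -/
lemma near_boundq (L B : ℤ) (hL0 : 0 ≤ L) (hB0 : 0 ≤ B)
    (hL : ∀ d, d ≠ 0 → ∀ u, |W f d u| ≤ L) (hB : ∀ k, k ≠ 0 → ∀ u, W f k u ^ 2 ≤ B) :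
    (∑ b, chi (q b) * AC f b (e b)) ^ 2 ≤ 2 ^ n * (2 ^ n * 2 ^ n + L * (2 ^ n * (2 ^ n - 1) +
      ((Ker e).card - 1) * (B * (Ker e).card - 2 ^ n))) := by
  have e0 : e 0 = 0 := by
    have := he 0 0
    rw [add_zero, add_self_vec] at this
    exact this
  have β0 : ∀ d, β 0 d = 0 := by
    intro d
    have := hβ 0 0 d
    rw [add_zero] at this
    have h2 : ∀ a : ZMod 2, a = a + a → a = 0 := by decide
    exact h2 _ this
  have hz : (0 : Fin n → ZMod 2) ∈ Ker e := (mem_Ker e 0).2 e0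
  have h3 : ∑ b, chi (q b) * AC f b (e b) = ∑ y, ∑ b, Smq e q f y b := by
    rw [sum_comm]
    refine sum_congr rfl fun b _ => ?_
    rw [AC, mul_sum]
    rfl
  have h5 : (∑ y, ∑ b, Smq e q f y b) ^ 2 ≤ 2 ^ n * ∑ y, (∑ b, Smq e q f y b) ^ 2 := by
    have := sq_sum_le_card_mul_sum_sq (s := (univ : Finset (Fin n → ZMod 2)))
      (f := fun y => ∑ b, Smq e q f y b)
    rw [card_vec] at this
    exact this
  have h6 : ∑ y, (∑ b, Smq e q f y b) ^ 2 ≤ 2 ^ n * 2 ^ n + L * (2 ^ n * (2 ^ n - 1) +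
      ((Ker e).card - 1) * (B * (Ker e).card - 2 ^ n)) := by
    rw [sum_sq_Smq, ← add_sum_erase univ _ (mem_univ (0 : Fin n → ZMod 2))]
    simp only [Isq_zero]
    have h7 : ∑ d ∈ univ.erase (0 : Fin n → ZMod 2), ∑ x, Isq e q f x d ≤
        ∑ d ∈ univ.erase (0 : Fin n → ZMod 2),
          L * ∑ k ∈ Ker e, chi (β k d) * AC f k (e d) := by
      refine sum_le_sum fun d hd => ?_
      rw [← sum_nuq_eq, mul_sum]
      exact sum_le_sum fun x _ => Isq_bound e he q β hβ hq f L x d (hL d (ne_of_mem_erase hd))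
    have h7' : ∑ d ∈ univ.erase (0 : Fin n → ZMod 2), ∑ k ∈ Ker e, chi (β k d) * AC f k (e d) =
        ∑ k ∈ Ker e, ∑ d ∈ univ.erase (0 : Fin n → ZMod 2), chi (β k d) * AC f k (e d) :=
      sum_comm
    rw [← mul_sum, h7'] at h7
    have h8 : ∀ k, ∑ d ∈ univ.erase (0 : Fin n → ZMod 2), chi (β k d) * AC f k (e d) =
        ∑ d, chi (β k d) * AC f k (e d) - 2 ^ n := by
      intro k
      rw [← add_sum_erase univ _ (mem_univ (0 : Fin n → ZMod 2)), e0, AC_zero_right, hs k 0,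
        β0, chi_zero]
      ring
    have h9 : ∑ k ∈ Ker e, ∑ d ∈ univ.erase (0 : Fin n → ZMod 2), chi (β k d) * AC f k (e d) ≤
        2 ^ n * (2 ^ n - 1) + ((Ker e).card - 1) * (B * (Ker e).card - 2 ^ n) := by
      rw [← add_sum_erase _ _ hz]
      have h10 : ∑ d ∈ univ.erase (0 : Fin n → ZMod 2), chi (β 0 d) * AC f 0 (e d) =
          2 ^ n * (2 ^ n - 1) := by
        rw [h8]
        simp only [AC_zero_left, β0, chi_zero]
        rw [sum_const, nsmul_eq_mul, card_vec]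
        ring
      have h11 : ∑ k ∈ (Ker e).erase 0,
          ∑ d ∈ univ.erase (0 : Fin n → ZMod 2), chi (β k d) * AC f k (e d) ≤
          ∑ k ∈ (Ker e).erase 0, (B * (Ker e).card - 2 ^ n : ℤ) := by
        refine sum_le_sum fun k hk => ?_
        rw [h8]
        have := image_sumq e he β hβ hs f B hB0 k (hB k (ne_of_mem_erase hk))
        linarith
      have hpos : 1 ≤ (Ker e).card := card_pos.2 ⟨0, hz⟩
      rw [sum_const, nsmul_eq_mul, card_erase_of_mem hz, Nat.cast_sub hpos, Nat.cast_one] at h11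
      linarith
    have h12 : L * ∑ k ∈ Ker e, ∑ d ∈ univ.erase (0 : Fin n → ZMod 2),
        chi (β k d) * AC f k (e d) ≤
        L * (2 ^ n * (2 ^ n - 1) + ((Ker e).card - 1) * (B * (Ker e).card - 2 ^ n)) :=
      mul_le_mul_of_nonneg_left h9 hL0
    rw [sum_const, nsmul_eq_mul, card_vec]
    linarith
  rw [h3]
  refine h5.trans (mul_le_mul_of_nonneg_left h6 (by positivity))

end quadratic

/-- the final contradiction. -/
lemma final_numq (S X c : ℤ) (hc1 : 1 ≤ c) (hc : c ≤ 4) (h1 : 33423360 ≤ X)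
    (h2 : 512 * X ≤ 255 * 63373312 + (c - 1) * 1638400 + 40960 * (S - 256))
    (h5 : S ^ 2 ≤ 256 * (256 * 256 + 24 * (256 * (256 - 1) +
      (c - 1) * (576 * c - 256)))) : False := by
  interval_cases c
  · norm_num at h2 h5
    nlinarith
  · norm_num at h2 h5
    nlinarith
  · norm_num at h2 h5
    nlinarith
  · norm_num at h2 h5
    nlinarith

lemma bound_le (w k : ℤ) (h : w = 4 * k) (h2 : |w| < 28) : |w| ≤ 24 := by
  rw [abs_lt] at h2
  rw [abs_le]
  omega

lemma sq_le_of (w : ℤ) (h : |w| ≤ 24) : w ^ 2 ≤ 576 := by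
  rw [abs_le] at h
  nlinarith

lemma bound_six (w k : ℤ) (h : w = 4 * k) (h2 : |w| < 28) : |k| ≤ 6 := by
  rw [abs_lt] at h2
  rw [abs_le]
  omega

/-- maps of the 8-dimensional space with value sum zero, at most four components of degree at
most six. -/
theorem eight_sum (f : (Fin 8 → ZMod 2) → (Fin 8 → ZMod 2)) (hf : ∑ v, f v = 0)
    (hc : (Ker (slope f)).card ≤ 4) : ∃ b, b ≠ 0 ∧ ∃ u, (28 : ℤ) ≤ |W f b u| := by
  by_contra hcon
  push Not at hcon
  have he := slope_add f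
  -- weights are even
  have hev : ∀ b, ∃ a : ℤ, wt (fun v => b ⬝ᵥ f v) = 2 * a := by
    intro b
    have h1 : ∑ v, b ⬝ᵥ f v = 0 := by rw [← dotProduct_sum, hf, dotProduct_zero]
    obtain ⟨a, ha⟩ := two_dvd_wt _ h1
    exact ⟨a, ha⟩
  choose a ha using hev
  set q : (Fin 8 → ZMod 2) → ZMod 2 := fun b => ((a b : ℤ) : ZMod 2) with hqdef
  set β : (Fin 8 → ZMod 2) → (Fin 8 → ZMod 2) → ZMod 2 :=
    fun b d => ∑ v, (b ⬝ᵥ f v) * (d ⬝ᵥ f v) with hβdef
  have hβ : ∀ b b' d, β (b + b') d = β b d + β b' d := by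
    intro b b' d
    simp only [hβdef, add_dotProduct, add_mul, sum_add_distrib]
  have hs : ∀ b d, β b d = β d b := by
    intro b d
    simp only [hβdef, mul_comm]
  have hq : ∀ b d, q (b + d) = q b + q d + β b d := by
    intro b d
    have h1 : wt (fun v => (b + d) ⬝ᵥ f v) = wt (fun v => b ⬝ᵥ f v) + wt (fun v => d ⬝ᵥ f v)
        - 2 * wt (fun v => (b ⬝ᵥ f v) * (d ⬝ᵥ f v)) := by
      rw [← wt_add]
      congr 1
      funext v
      rw [add_dotProduct]
    rw [ha, ha, ha] at h1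
    have h2 : a (b + d) = a b + a d - wt (fun v => (b ⬝ᵥ f v) * (d ⬝ᵥ f v)) := by linarith
    simp only [hqdef, hβdef]
    rw [h2, Int.cast_sub, Int.cast_add, wt_cast, CharTwo.sub_eq_add]
  have hk : ∀ b u, ∃ k : ℤ, W f b u = 4 * k ∧ ((k : ℤ) : ZMod 2) = q b + slope f b ⬝ᵥ u := by
    intro b u
    have h1 : W f b u = 2 ^ 8 - 2 * wt (fun v => b ⬝ᵥ f v + u ⬝ᵥ v) :=
      sum_chi_eq (fun v => b ⬝ᵥ f v + u ⬝ᵥ v)
    have h3 := wt_comp (Equiv.refl _) u
    simp only [Equiv.refl_apply] at h3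
    rw [wt_add, ha] at h1
    refine ⟨2 * (32 * (if u = 0 then 1 else 0) - a b) + a b
      + wt (fun v => (b ⬝ᵥ f v) * (u ⬝ᵥ v)), ?_, ?_⟩
    · rw [h1]
      have h4 : (if u = 0 then (2 : ℤ) ^ 8 else 0) = 256 * (if u = 0 then 1 else 0) := by
        split_ifs <;> norm_num
      rw [h4] at h3
      linarith
    · rw [Int.cast_add, Int.cast_add, Int.cast_mul, wt_cast, slope_dot]
      have : ((2 : ℤ) : ZMod 2) = 0 := by decide
      rw [this, zero_mul, zero_add]
  have hL : ∀ d, d ≠ 0 → ∀ u, |W f d u| ≤ 24 := by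
    intro d hd u
    obtain ⟨k, hk, -⟩ := hk d u
    exact bound_le _ k hk (hcon d hd u)
  have hB : ∀ k, k ≠ 0 → ∀ u, W f k u ^ 2 ≤ 576 := fun k hk u => sq_le_of _ (hL k hk u)
  have e0 : slope f 0 = 0 := by
    have := he 0 0
    rw [add_zero, add_self_vec] at this
    exact this
  have hz : (0 : Fin 8 → ZMod 2) ∈ Ker (slope f) := (mem_Ker _ 0).2 e0
  have hpos : 1 ≤ (Ker (slope f)).card := card_pos.2 ⟨0, hz⟩
  have p8 : (2 : ℤ) ^ 8 = 256 := by norm_num
  have h1 := moment f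
  have hcomp : ∀ b, b ≠ 0 → 512 * ∑ e, AC f b e ^ 2 ≤ 63373312
      + 40960 * (chi (q b) * AC f b (slope f b)) + (if slope f b = 0 then 1638400 else 0) := by
    intro b hb
    have h1 : ∀ u, 2 * W f b u ^ 4 ≤ 992 * (W f b u ^ 2 * chi (u ⬝ᵥ (0 : Fin 8 → ZMod 2)))
        + 160 * chi (q b) * (W f b u ^ 2 * chi (u ⬝ᵥ slope f b)) - 6400
        + 6400 * chi (q b) * chi (u ⬝ᵥ slope f b) := by
      intro u
      obtain ⟨k, hk, hk2⟩ := hk b u
      have h4 := ptw_six k (bound_six _ k hk (hcon b hb u))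
      rw [hk2, dotProduct_comm, chi_add] at h4
      rw [hk, dotProduct_zero, chi_zero]
      have h5 := scale_six k _ h4
      linarith
    have h2 : ∑ u, 2 * W f b u ^ 4 ≤ 992 * (2 ^ 8 * AC f b 0)
        + 160 * chi (q b) * (2 ^ 8 * AC f b (slope f b)) - 6400 * 256
        + 6400 * chi (q b) * (if slope f b = 0 then 2 ^ 8 else 0) := by
      refine (sum_le_sum fun u _ => h1 u).trans (le_of_eq ?_)
      simp only [sum_add_distrib, sum_sub_distrib, ← mul_sum, sum_W_sq, sum_chi_dot]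
      rw [sum_const, nsmul_eq_mul, card_vec]
      norm_num
    have h3 := sum_AC_sq f b
    rw [← mul_sum, ← h3, AC_zero_right, p8] at h2
    rcases chi_cases (q b) with h | h <;> rw [h] at h2 ⊢ <;> split_ifs at h2 ⊢ <;> linarith
  have h2 : 512 * ∑ b ∈ univ.erase (0 : Fin 8 → ZMod 2), ∑ e, AC f b e ^ 2 ≤
      ∑ b ∈ univ.erase (0 : Fin 8 → ZMod 2), (63373312
      + 40960 * (chi (q b) * AC f b (slope f b)) + (if slope f b = 0 then 1638400 else 0)) := by
    rw [mul_sum]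
    exact sum_le_sum fun b hb => hcomp b (ne_of_mem_erase hb)
  have h3 : ∑ b ∈ univ.erase (0 : Fin 8 → ZMod 2), (if slope f b = 0 then (1638400 : ℤ) else 0) =
      ((Ker (slope f)).card - 1) * 1638400 := by
    rw [← sum_filter]
    have h4 : (univ.erase (0 : Fin 8 → ZMod 2)).filter (fun b => slope f b = 0) =
        (Ker (slope f)).erase 0 := by
      ext b
      simp only [mem_filter, mem_erase, mem_univ, and_true, mem_Ker]
    rw [h4, sum_const, nsmul_eq_mul, card_erase_of_mem hz, Nat.cast_sub hpos, Nat.cast_one]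
  have h4 : ∑ b, chi (q b) * AC f b (slope f b) =
      256 + ∑ b ∈ univ.erase (0 : Fin 8 → ZMod 2), chi (q b) * AC f b (slope f b) := by
    have q0 : q 0 = 0 := by
      have h5 := ha 0
      have h6 : wt (fun v => (0 : Fin 8 → ZMod 2) ⬝ᵥ f v) = 0 := by
        simp only [wt, zero_dotProduct, ZMod.val_zero]
        simp
      rw [h6] at h5
      have h7 : a 0 = 0 := by linarith
      simp only [hqdef, h7]
      simp
    rw [← add_sum_erase univ _ (mem_univ (0 : Fin 8 → ZMod 2)), AC_zero_left, q0, chi_zero,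
      one_mul, p8]
  have h5 := near_boundq (slope f) he q β hβ hs hq f 24 576 (by norm_num) (by norm_num) hL hB
  rw [sum_add_distrib, sum_add_distrib, ← mul_sum, h3, sum_const, nsmul_eq_mul,
    card_erase_vec, p8] at h2
  rw [p8] at h1 h5
  have h6 : ∑ b ∈ univ.erase (0 : Fin 8 → ZMod 2), chi (q b) * AC f b (slope f b) =
      ∑ b, chi (q b) * AC f b (slope f b) - 256 := by linarith
  rw [h6] at h2
  refine final_numq _ (∑ b ∈ univ.erase (0 : Fin 8 → ZMod 2), ∑ e, AC f b e ^ 2)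
    ((Ker (slope f)).card : ℤ) (by exact_mod_cast hpos)
    (by exact_mod_cast hc) (by linarith) ?_ h5
  linarith

end Pool.Agent.Lib.MP_ea66ba_co
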