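import Mathlib
import Pool.Agent.Lib.MP_ea66ba_co.SlopeQ

set_option autoImplicit false

/-!
Sums over cosets of the kernel of the slope map with quadratic signs, and maps of the
8-dimensional space with value sum zero and fewer than 64 components of degree at most six.
-/

namespace Pool.Agent.Lib.MP_ea66ba_co

open Finset Matrix

variable {n : ℕ}

section quadratic

variable (e : (Fin n → ZMod 2) → (Fin n → ZMod 2)) (he : ∀ b b', e (b + b') = e b + e b')
  (q : (Fin n → ZMod 2) → ZMod 2) (β : (Fin n → ZMod 2) → (Fin n → ZMod 2) → ZMod 2)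
  (hβ : ∀ b b' d, β (b + b') d = β b d + β b' d) (hs : ∀ b d, β b d = β d b)
  (hq : ∀ b d, q (b + d) = q b + q d + β b d)
  (f : (Fin n → ZMod 2) → (Fin n → ZMod 2))

/-- Gauss sum over the kernel -/
def Gam (b g : Fin n → ZMod 2) : ℤ := ∑ k ∈ Ker e, chi (q k + β k b + k ⬝ᵥ g)

/-- radical of the kernel -/
def RadK : Finset (Fin n → ZMod 2) := (Ker e).filter fun d => ∀ k ∈ Ker e, β k d = 0

lemma mem_RadK (d : Fin n → ZMod 2) :
    d ∈ RadK e β ↔ d ∈ Ker e ∧ ∀ k ∈ Ker e, β k d = 0 := by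
  rw [RadK, mem_filter]

include he in
lemma Ker_add (a b : Fin n → ZMod 2) (ha : a ∈ Ker e) (hb : b ∈ Ker e) : a + b ∈ Ker e := by
  rw [mem_Ker] at *
  rw [he, ha, hb, add_zero]

include he in
lemma e_zero' : e 0 = 0 := by
  have := he 0 0
  rw [add_zero, add_self_vec] at this
  exact this

include hβ in
lemma β_zero (d : Fin n → ZMod 2) : β 0 d = 0 := by
  have := hβ 0 0 d
  rw [add_zero] at this
  have h2 : ∀ a : ZMod 2, a = a + a → a = 0 := by decide
  exact h2 _ this

include hβ hs in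
lemma β_add_right (b d d' : Fin n → ZMod 2) : β b (d + d') = β b d + β b d' := by
  rw [hs b (d + d'), hβ, hs d b, hs d' b]

include he hβ hs in
lemma RadK_add (a b : Fin n → ZMod 2) (ha : a ∈ RadK e β) (hb : b ∈ RadK e β) :
    a + b ∈ RadK e β := by
  rw [mem_RadK] at *
  refine ⟨Ker_add e he a b ha.1 hb.1, fun k hk => ?_⟩
  rw [β_add_right β hβ hs, ha.2 k hk, hb.2 k hk, add_zero]

include he hβ hs in
lemma zero_mem_RadK : (0 : Fin n → ZMod 2) ∈ RadK e β := by
  rw [mem_RadK]
  refine ⟨(mem_Ker e 0).2 (e_zero' e he), fun k _ => ?_⟩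
  rw [hs, β_zero β hβ]

/-- sum of an additive sign over a set closed under addition. -/
lemma sum_char (S : Finset (Fin n → ZMod 2)) (hS : ∀ a ∈ S, ∀ b ∈ S, a + b ∈ S)
    (l : (Fin n → ZMod 2) → ZMod 2) (hl : ∀ a ∈ S, ∀ b ∈ S, l (a + b) = l a + l b) :
    (∑ d ∈ S, chi (l d) = 0 ∧ ∃ r ∈ S, l r ≠ 0) ∨
      (∑ d ∈ S, chi (l d) = S.card ∧ ∀ r ∈ S, l r = 0) := by
  by_cases hall : ∀ r ∈ S, l r = 0
  · right
    refine ⟨?_, hall⟩
    have h2 : ∑ d ∈ S, chi (l d) = ∑ d ∈ S, (1 : ℤ) :=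
      sum_congr rfl fun d hd => by rw [hall d hd, chi_zero]
    rw [h2, sum_const, nsmul_eq_mul, mul_one]
  · left
    push Not at hall
    obtain ⟨r, hr, hr'⟩ := hall
    refine ⟨?_, r, hr, hr'⟩
    have hr1 : l r = 1 := by
      have : ∀ a : ZMod 2, a ≠ 0 → a = 1 := by decide
      exact this _ hr'
    have h2 : ∑ d ∈ S, chi (l d) = ∑ d ∈ S, - chi (l d) := by
      refine sum_bij' (fun d _ => d + r) (fun d _ => d + r) ?_ ?_ ?_ ?_ ?_
      · intro d hd
        exact hS d hd r hr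
      · intro d hd
        exact hS d hd r hr
      · intro d _
        rw [add_assoc, add_self_vec, add_zero]
      · intro d _
        rw [add_assoc, add_self_vec, add_zero]
      · intro d hd
        rw [hl d hd r hr, hr1, chi_add, chi_one]
        ring
    rw [sum_neg_distrib] at h2
    linarith

include he hβ hs hq in
lemma Gam_sq (b g : Fin n → ZMod 2) : Gam e q β b g ^ 2 =
    (Ker e).card * ∑ d ∈ RadK e β, chi (q d + β d b + d ⬝ᵥ g) := by
  have hz : (0 : Fin n → ZMod 2) ∈ Ker e := (mem_Ker e 0).2 (e_zero' e he)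
  have h1 : Gam e q β b g ^ 2 = ∑ k ∈ Ker e, ∑ d ∈ Ker e,
      chi (q d + β d b + d ⬝ᵥ g) * chi (β k d) := by
    rw [sq, Gam, sum_mul_sum]
    refine sum_congr rfl fun k hk => ?_
    refine sum_bij' (fun d _ => k + d) (fun d _ => k + d) ?_ ?_ ?_ ?_ ?_
    · intro d hd
      exact Ker_add e he k d hk hd
    · intro d hd
      exact Ker_add e he k d hk hd
    · intro d _
      rw [← add_assoc, add_self_vec, zero_add]
    · intro d _
      rw [← add_assoc, add_self_vec, zero_add]
    · intro d _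
      have hkk : β k k = 0 := by
        have h2 := hq k k
        rw [add_self_vec] at h2
        have h3 : q 0 = 0 := by
          have h4 := hq 0 0
          rw [add_zero, β_zero β hβ, add_zero] at h4
          have h5 : ∀ a : ZMod 2, a = a + a → a = 0 := by decide
          exact h5 _ h4
        rw [h3] at h2
        have h6 : ∀ a c : ZMod 2, 0 = a + a + c → c = 0 := by decide
        exact h6 _ _ h2
      rw [← chi_add, ← chi_add, hq k d, hβ, add_dotProduct, β_add_right β hβ hs, hkk]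
      congr 1
      generalize q k = a1
      generalize q d = a2
      generalize β k b = a3
      generalize β d b = a4
      generalize k ⬝ᵥ g = a5
      generalize d ⬝ᵥ g = a6
      generalize β k d = a7
      revert a1 a2 a3 a4 a5 a6 a7
      decide
  rw [h1, sum_comm]
  simp only [← mul_sum]
  have h2 : ∀ d ∈ Ker e, ∑ k ∈ Ker e, chi (β k d) =
      if (∀ k ∈ Ker e, β k d = 0) then ((Ker e).card : ℤ) else 0 := by
    intro d _
    rcases sum_char (Ker e) (fun a ha b hb => Ker_add e he a b ha hb) (fun k => β k d)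
      (fun a _ b _ => hβ a b d) with ⟨h, r, hr, hr'⟩ | ⟨h, hall⟩
    · rw [h, if_neg]
      intro hcon
      exact hr' (hcon r hr)
    · rw [h, if_pos hall]
  rw [sum_congr rfl fun d hd => by rw [h2 d hd], RadK, sum_filter, mul_sum]
  refine sum_congr rfl fun d _ => ?_
  split_ifs
  · ring
  · ring

include he hβ hs hq in
lemma Gam_cases (b g : Fin n → ZMod 2) : Gam e q β b g ^ 2 = 0 ∨
    Gam e q β b g ^ 2 = (Ker e).card * (RadK e β).card := by
  rw [Gam_sq e he q β hβ hs hq]
  rcases sum_char (RadK e β) (fun a ha b hb => RadK_add e he β hβ hs a b ha hb)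
    (fun d => q d + β d b + d ⬝ᵥ g) (fun a ha b' hb' => by
      rw [mem_RadK] at ha hb'
      rw [hq, hβ, add_dotProduct, hb'.2 a ha.1]
      ring) with ⟨h, _⟩ | ⟨h, _⟩
  · left
    rw [h, mul_zero]
  · right
    rw [h]

/-- cardinalities of sets closed under addition divide the order of the space. -/
lemma card_dvd_of_closed (S : Finset (Fin n → ZMod 2)) (h0 : (0 : Fin n → ZMod 2) ∈ S)
    (hS : ∀ a ∈ S, ∀ b ∈ S, a + b ∈ S) : S.card ∣ 2 ^ n := by
  let R : AddSubgroup (Fin n → ZMod 2) :=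
    { carrier := {d | d ∈ S}
      add_mem' := fun {a b} ha hb => hS a ha b hb
      zero_mem' := h0
      neg_mem' := fun {a} ha => by
        have : -a = a := by
          funext i
          exact CharTwo.neg_eq (a i)
        rw [this]
        exact ha }
  have h1 : Nat.card R = S.card := Nat.subtype_card S (fun x => Iff.rfl)
  have h2 : Nat.card (Fin n → ZMod 2) = 2 ^ n := by
    rw [Nat.card_eq_fintype_card]
    simp
  rw [← h1, ← h2]
  exact AddSubgroup.card_addSubgroup_dvd_card R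

include he hβ hs hq in
lemma Gam_large (a b' : ℕ) (ha : (Ker e).card = 2 ^ a) (hb : (RadK e β).card = 2 ^ b')
    (b g : Fin n → ZMod 2) :
    2 ^ ((a + b' + 1) / 2) * |Gam e q β b g| ≤ Gam e q β b g ^ 2 := by
  rcases Gam_cases e he q β hβ hs hq b g with h | h
  · have : Gam e q β b g = 0 := pow_eq_zero_iff (two_ne_zero) |>.1 h
    rw [this]
    simp
  · have h4 : (Gam e q β b g).natAbs ^ 2 = 2 ^ (a + b') := by
      have h5 : (((Gam e q β b g).natAbs ^ 2 : ℕ) : ℤ) = ((2 ^ (a + b') : ℕ) : ℤ) := by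
        push_cast
        rw [sq_abs, h, ha, hb, pow_add]
        push_cast
        rfl
      exact_mod_cast h5
    have h5 : (Gam e q β b g).natAbs ∣ 2 ^ (a + b') := by
      rw [← h4]
      exact dvd_pow_self _ two_ne_zero
    obtain ⟨l, hl, hl2⟩ := (Nat.dvd_prime_pow Nat.prime_two).1 h5
    rw [hl2, ← pow_mul] at h4
    have h6 : l * 2 = a + b' := Nat.pow_right_injective le_rfl h4
    have h7 : (a + b' + 1) / 2 = l := by omega
    have h8 : |Gam e q β b g| = 2 ^ l := by
      rw [← Int.natCast_natAbs, hl2]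
      push_cast
      rfl
    have h9 : Gam e q β b g ^ 2 = |Gam e q β b g| * |Gam e q β b g| := by rw [← sq, sq_abs]
    rw [h9, h8, h7]

include he hβ hs in
lemma image_sumq_nonneg (k : Fin n → ZMod 2) :
    0 ≤ ∑ d, chi (β k d) * AC f k (e d) := by
  have h1 : 2 ^ n * ∑ d, chi (β k d) * AC f k (e d) = ∑ u, W f k u ^ 2 * tauq e β k 0 u := by
    rw [mul_sum]
    have h2 : ∀ d, 2 ^ n * (chi (β k d) * AC f k (e d)) =
        chi (β k d) * ∑ u, W f k u ^ 2 * chi (u ⬝ᵥ e d) := by
      intro d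
      rw [sum_W_sq]
      ring
    simp only [h2, tauq, mul_sum]
    rw [sum_comm]
    refine sum_congr rfl fun u _ => sum_congr rfl fun d _ => ?_
    rw [dotProduct_zero, add_zero, chi_add, hs d k]
    ring
  have h2 : 0 ≤ ∑ u, W f k u ^ 2 * tauq e β k 0 u :=
    sum_nonneg fun u _ => mul_nonneg (sq_nonneg _) (tauq_nonneg e he β hβ k 0 u)
  rw [← h1] at h2
  exact nonneg_of_mul_nonneg_right h2 (by positivity)

/-- part outside the kernel -/
def outq : ℤ := ∑ b ∈ (Ker e)ᶜ, chi (q b) * AC f b (e b)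

include he hβ hs hq in
/-- the bound by cosets of the kernel, with quadratic signs. -/
lemma coset_boundq (B : ℤ) (hB0 : 2 ^ n ≤ B)
    (hB : ∀ k, k ≠ 0 → ∀ u, W f k u ^ 2 ≤ B) (a b' : ℕ)
    (ha : (Ker e).card = 2 ^ a) (hb : (RadK e β).card = 2 ^ b') :
    2 ^ ((a + b' + 1) / 2) * outq e q f ≤ 2 ^ n * (2 ^ n - (Ker e).card) +
      ((RadK e β).card - 1) * (max (B - 2 ^ n) (2 ^ n) * (Ker e).card) := by
  have hpos : 0 < (Ker e).card := by rw [ha]; positivity
  -- sums over the cosets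
  have h1 : (Ker e).card * outq e q f =
      ∑ b ∈ (Ker e)ᶜ, ∑ x, chi (q b) * chi (b ⬝ᵥ (f x + f (x + e b))) *
        Gam e q β b (f x + f (x + e b)) := by
    have h2 : ∀ k ∈ Ker e, ∑ b ∈ (Ker e)ᶜ, chi (q (b + k)) * AC f (b + k) (e b) =
        outq e q f := by
      intro k hk
      rw [mem_Ker] at hk
      rw [outq, ← shift_compl e he k hk (fun b => chi (q b) * AC f b (e b))]
      refine sum_congr rfl fun b _ => ?_
      rw [he, hk, add_zero]
    have h3 : (Ker e).card * outq e q f =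
        ∑ b ∈ (Ker e)ᶜ, ∑ k ∈ Ker e, chi (q (b + k)) * AC f (b + k) (e b) := by
      rw [sum_comm, sum_congr rfl h2, sum_const, nsmul_eq_mul]
    rw [h3]
    refine sum_congr rfl fun b _ => ?_
    simp only [AC, Gam, mul_sum]
    rw [sum_comm]
    refine sum_congr rfl fun x _ => sum_congr rfl fun k _ => ?_
    rw [hq, add_dotProduct b k, hs b k]
    simp only [chi_add]
    ring
  set w : ℤ := 2 ^ ((a + b' + 1) / 2) with hw
  have hw0 : 0 < w := by rw [hw]; positivity
  have h4 : w * ((Ker e).card * outq e q f) ≤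
      ∑ b ∈ (Ker e)ᶜ, ∑ x, Gam e q β b (f x + f (x + e b)) ^ 2 := by
    rw [h1, mul_sum]
    refine sum_le_sum fun b _ => ?_
    rw [mul_sum]
    refine sum_le_sum fun x _ => ?_
    have h5 := Gam_large e he q β hβ hs hq a b' ha hb b (f x + f (x + e b))
    refine le_trans ?_ h5
    have h6 : chi (q b) * chi (b ⬝ᵥ (f x + f (x + e b))) *
        Gam e q β b (f x + f (x + e b)) ≤ |Gam e q β b (f x + f (x + e b))| := by
      rcases chi_cases (q b) with h | h <;>
        rcases chi_cases (b ⬝ᵥ (f x + f (x + e b))) with h' | h' <;> rw [h, h']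
      · simpa using le_abs_self _
      · simpa using neg_le_abs _
      · simpa using neg_le_abs _
      · simpa using le_abs_self _
    exact mul_le_mul_of_nonneg_left h6 hw0.le
  have h5 : ∑ b ∈ (Ker e)ᶜ, ∑ x, Gam e q β b (f x + f (x + e b)) ^ 2 =
      (Ker e).card * ∑ d ∈ RadK e β, chi (q d) *
        ∑ b ∈ (Ker e)ᶜ, chi (β d b) * AC f d (e b) := by
    simp only [Gam_sq e he q β hβ hs hq, ← mul_sum]
    congr 1
    calc ∑ b ∈ (Ker e)ᶜ, ∑ x, ∑ d ∈ RadK e β, chi (q d + β d b + d ⬝ᵥ (f x + f (x + e b)))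
        = ∑ b ∈ (Ker e)ᶜ, ∑ d ∈ RadK e β, ∑ x,
            chi (q d + β d b + d ⬝ᵥ (f x + f (x + e b))) :=
          sum_congr rfl fun b _ => sum_comm
      _ = ∑ d ∈ RadK e β, ∑ b ∈ (Ker e)ᶜ, ∑ x,
            chi (q d + β d b + d ⬝ᵥ (f x + f (x + e b))) := sum_comm
      _ = _ := by
          refine sum_congr rfl fun d _ => ?_
          rw [mul_sum]
          refine sum_congr rfl fun b _ => ?_
          rw [AC, mul_sum, mul_sum]
          refine sum_congr rfl fun x _ => ?_
          rw [chi_add, chi_add]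
          ring
  have hz : (0 : Fin n → ZMod 2) ∈ RadK e β := zero_mem_RadK e he β hβ hs
  have hrpos : 1 ≤ (RadK e β).card := card_pos.2 ⟨0, hz⟩
  have q0 : q 0 = 0 := by
    have h6 := hq 0 0
    rw [add_zero, β_zero β hβ, add_zero] at h6
    have h7 : ∀ a : ZMod 2, a = a + a → a = 0 := by decide
    exact h7 _ h6
  have h6 : ∀ d ∈ (RadK e β).erase 0, chi (q d) *
      ∑ b ∈ (Ker e)ᶜ, chi (β d b) * AC f d (e b) ≤
      max (B - 2 ^ n) (2 ^ n) * (Ker e).card := by
    intro d hd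
    have hd0 := ne_of_mem_erase hd
    have hdR := (mem_RadK e β d).1 (mem_of_mem_erase hd)
    have h7 : ∑ b ∈ Ker e, chi (β d b) * AC f d (e b) = 2 ^ n * (Ker e).card := by
      have h8 : ∀ b ∈ Ker e, chi (β d b) * AC f d (e b) = 2 ^ n := by
        intro b hb
        rw [hs d b, hdR.2 b hb, chi_zero, (mem_Ker e b).1 hb, AC_zero_right, one_mul]
      rw [sum_congr rfl h8, sum_const, nsmul_eq_mul, mul_comm]
    have h8 : ∑ b ∈ (Ker e)ᶜ, chi (β d b) * AC f d (e b) =
        ∑ b, chi (β d b) * AC f d (e b) - 2 ^ n * (Ker e).card := by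
      rw [← h7, ← sum_add_sum_compl (Ker e) (fun b => chi (β d b) * AC f d (e b))]
      ring
    have h9 := image_sumq e he β hβ hs f B (le_trans (by positivity) hB0) d (hB d hd0)
    have h10 := image_sumq_nonneg e he β hβ hs f d
    have hc0 : (0 : ℤ) ≤ (Ker e).card := by positivity
    have h11 : (B - 2 ^ n) * (Ker e).card ≤ max (B - 2 ^ n) (2 ^ n) * (Ker e).card :=
      mul_le_mul_of_nonneg_right (le_max_left _ _) hc0
    have h12 : (2 ^ n) * ((Ker e).card : ℤ) ≤ max (B - 2 ^ n) (2 ^ n) * (Ker e).card :=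
      mul_le_mul_of_nonneg_right (le_max_right _ _) hc0
    rw [h8]
    rcases chi_cases (q d) with h | h <;> rw [h] <;> linarith
  have h7 : ∑ d ∈ RadK e β, chi (q d) * ∑ b ∈ (Ker e)ᶜ, chi (β d b) * AC f d (e b) ≤
      2 ^ n * (2 ^ n - (Ker e).card) +
      ((RadK e β).card - 1) * (max (B - 2 ^ n) (2 ^ n) * (Ker e).card) := by
    rw [← add_sum_erase _ _ hz]
    have h8 : chi (q 0) * ∑ b ∈ (Ker e)ᶜ, chi (β 0 b) * AC f 0 (e b) =
        2 ^ n * (2 ^ n - (Ker e).card) := by
      have h9 : ∀ b ∈ (Ker e)ᶜ, chi (β 0 b) * AC f 0 (e b) = 2 ^ n := by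
        intro b _
        rw [β_zero β hβ, chi_zero, AC_zero_left, one_mul]
      have h10 : ((Ker e)ᶜ.card : ℤ) = 2 ^ n - (Ker e).card := by
        have h11 := card_compl_add_card (Ker e)
        have h12 : (Fintype.card (Fin n → ZMod 2) : ℤ) = 2 ^ n := by
          simp
        rw [← h11] at h12
        push_cast at h12
        linarith
      rw [sum_congr rfl h9, q0, chi_zero, one_mul, sum_const, nsmul_eq_mul, h10]
      ring
    have h9 := sum_le_sum h6
    rw [sum_const, nsmul_eq_mul, card_erase_of_mem hz, Nat.cast_sub hrpos, Nat.cast_one] at h9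
    rw [h8]
    linarith
  rw [h5] at h4
  have h8 : (0 : ℤ) < (Ker e).card := by exact_mod_cast hpos
  have h9 : (Ker e).card * (w * outq e q f) ≤ (Ker e).card *
      (2 ^ n * (2 ^ n - (Ker e).card) +
      ((RadK e β).card - 1) * (max (B - 2 ^ n) (2 ^ n) * (Ker e).card)) := by
    have h10 := mul_le_mul_of_nonneg_left h7 h8.le
    have h11 : (Ker e).card * (w * outq e q f) = w * ((Ker e).card * outq e q f) := by ring
    rw [h11]
    exact h4.trans h10
  exact le_of_mul_le_mul_left h9 h8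

end quadratic

/-- the Gauss sum over the kernel is zero, or plus or minus a power of two. -/
lemma pow_cases (G : ℤ) (m : ℕ) (h : G ^ 2 = 0 ∨ G ^ 2 = 2 ^ m) :
    G ≤ 0 ∨ ∃ l, 2 * l = m ∧ G = 2 ^ l := by
  rcases h with h | h
  · left
    have : G = 0 := pow_eq_zero_iff (two_ne_zero) |>.1 h
    rw [this]
  · have h4 : G.natAbs ^ 2 = 2 ^ m := by
      have h5 : ((G.natAbs ^ 2 : ℕ) : ℤ) = ((2 ^ m : ℕ) : ℤ) := by
        push_cast
        rw [sq_abs, h]
      exact_mod_cast h5
    have h5 : G.natAbs ∣ 2 ^ m := by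
      rw [← h4]
      exact dvd_pow_self _ two_ne_zero
    obtain ⟨l, hl, hl2⟩ := (Nat.dvd_prime_pow Nat.prime_two).1 h5
    rw [hl2, ← pow_mul] at h4
    have h6 : l * 2 = m := Nat.pow_right_injective le_rfl h4
    rcases Int.natAbs_eq G with h7 | h7
    · right
      refine ⟨l, by omega, ?_⟩
      rw [h7, hl2]
      push_cast
      rfl
    · left
      rw [h7]
      simp

/-- the final contradiction, at most 64 components of degree at most six. -/
lemma final_full (a b' : ℕ) (ha : 3 ≤ a) (ha' : a ≤ 6) (hb : b' ≤ a) (O X G : ℤ)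
    (h1 : 33423360 ≤ X) (hG : G ≤ 0 ∨ ∃ l, 2 * l = a + b' ∧ G = 2 ^ l) (hG' : G < 64)
    (h2 : 512 * X ≤ 255 * 63373312 + 40960 * O + (G - 1) * 12124160)
    (h3 : 2 ^ ((a + b' + 1) / 2) * O ≤ 256 * (256 - 2 ^ a) + (2 ^ b' - 1) * (320 * 2 ^ a)) :
    False := by
  rcases hG with hG | ⟨l, hl, hG⟩
  · interval_cases a <;> interval_cases b' <;> norm_num at h2 h3 <;> linarith
  · have hl5 : l ≤ 5 := by
      by_contra hlt
      have h6 : 6 ≤ l := by omega
      have h7 : (2 : ℤ) ^ 6 ≤ 2 ^ l := pow_le_pow_right₀ (by norm_num) h6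
      rw [hG] at hG'
      norm_num at h7
      linarith
    have hb2 : b' = 2 * l - a := by omega
    have hla : a ≤ 2 * l := by omega
    subst hb2
    rw [hG] at h2
    interval_cases l <;> interval_cases a <;> norm_num at h2 h3 <;> linarith

/-- fourth moment if one autocorrelation direction is used by all components outside the
kernel. -/
lemma one_slope (f : (Fin 8 → ZMod 2) → (Fin 8 → ZMod 2)) (t : Fin 8 → ZMod 2) (ht : t ≠ 0)
    (K : Finset (Fin 8 → ZMod 2)) (hK : 0 ∈ K) (T : (Fin 8 → ZMod 2) → ℤ)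
    (hT : ∀ b ∈ Kᶜ, T b ^ 2 = AC f b t ^ 2) (hc : Kᶜ.card = 128) :
    33357824 * 128 + (∑ b ∈ Kᶜ, T b) ^ 2 ≤
      128 * ∑ b ∈ univ.erase (0 : Fin 8 → ZMod 2), ∑ e, AC f b e ^ 2 := by
  have h1 : ∑ b ∈ univ.erase (0 : Fin 8 → ZMod 2), ∑ e, AC f b e ^ 2 =
      ∑ b ∈ univ.erase (0 : Fin 8 → ZMod 2), AC f b 0 ^ 2 +
      (∑ b ∈ univ.erase (0 : Fin 8 → ZMod 2), AC f b t ^ 2 +
      ∑ e ∈ (univ.erase (0 : Fin 8 → ZMod 2)).erase t,
        ∑ b ∈ univ.erase (0 : Fin 8 → ZMod 2), AC f b e ^ 2) := by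
    rw [sum_comm, ← add_sum_erase univ
      (fun e => ∑ b ∈ univ.erase (0 : Fin 8 → ZMod 2), AC f b e ^ 2)
      (mem_univ (0 : Fin 8 → ZMod 2)),
      ← add_sum_erase (univ.erase (0 : Fin 8 → ZMod 2))
      (fun e => ∑ b ∈ univ.erase (0 : Fin 8 → ZMod 2), AC f b e ^ 2)
      (mem_erase.2 ⟨ht, mem_univ t⟩)]
  have h2 : ∑ b ∈ univ.erase (0 : Fin 8 → ZMod 2), AC f b 0 ^ 2 = 255 * 65536 := by
    simp only [AC_zero_right]
    rw [sum_const, nsmul_eq_mul, card_erase_vec]
    norm_num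
  have h3 : ∀ e ∈ (univ.erase (0 : Fin 8 → ZMod 2)).erase t, (65536 : ℤ) ≤
      ∑ b ∈ univ.erase (0 : Fin 8 → ZMod 2), AC f b e ^ 2 := by
    intro e he
    have he0 : e ≠ 0 := ne_of_mem_erase (mem_of_mem_erase he)
    have h4 := sum_b_AC_sq f e he0
    have p8 : (2 : ℤ) ^ 8 = 256 := by norm_num
    rw [← add_sum_erase univ (fun b => AC f b e ^ 2) (mem_univ (0 : Fin 8 → ZMod 2)),
      AC_zero_left, p8] at h4
    linarith
  have h4 := sum_le_sum h3
  have h5 : (((univ.erase (0 : Fin 8 → ZMod 2)).erase t).card : ℤ) = 254 := by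
    rw [card_erase_of_mem (mem_erase.2 ⟨ht, mem_univ t⟩),
      card_erase_of_mem (mem_univ (0 : Fin 8 → ZMod 2)), card_univ]
    simp
  rw [sum_const, nsmul_eq_mul, h5] at h4
  have h6 : ∑ b ∈ Kᶜ, AC f b t ^ 2 ≤ ∑ b ∈ univ.erase (0 : Fin 8 → ZMod 2), AC f b t ^ 2 := by
    refine sum_le_sum_of_subset_of_nonneg ?_ (fun b _ _ => sq_nonneg _)
    intro b hb
    rw [mem_erase]
    refine ⟨?_, mem_univ b⟩
    rintro rfl
    exact (mem_compl.1 hb) hK
  have h7 : (∑ b ∈ Kᶜ, T b) ^ 2 ≤ 128 * ∑ b ∈ Kᶜ, T b ^ 2 := by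
    have := sq_sum_le_card_mul_sum_sq (s := Kᶜ) (f := T)
    rw [hc] at this
    exact_mod_cast this
  rw [sum_congr rfl hT] at h7
  rw [h1, h2]
  linarith

/-- the final contradiction, 128 components of degree at most six. -/
lemma final_two (O X G : ℤ) (hG : G ≤ 64) (h1 : 33357824 * 128 + O ^ 2 ≤ 128 * X)
    (h2 : 512 * X ≤ 255 * 63373312 + 40960 * O + (G - 1) * 12124160) : False := by
  nlinarith [sq_nonneg (O - 5120)]

/-- all components outside a kernel of order 128 have the same slope. -/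
lemma same_slope (e : (Fin 8 → ZMod 2) → (Fin 8 → ZMod 2)) (he : ∀ b b', e (b + b') = e b + e b')
    (hc : (Ker e).card = 128) : ∃ t, t ≠ 0 ∧ ∀ b ∈ (Ker e)ᶜ, e b = t := by
  have h1 : (Ker e)ᶜ.card = 128 := by
    have h11 := card_compl_add_card (Ker e)
    have h12 : Fintype.card (Fin 8 → ZMod 2) = 256 := by simp
    omega
  have h2 : (Ker e)ᶜ.Nonempty := by
    rw [← card_pos, h1]
    norm_num
  obtain ⟨b0, hb0⟩ := h2
  have hb0' : e b0 ≠ 0 := by
    rw [mem_compl, mem_Ker] at hb0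
    exact hb0
  refine ⟨e b0, hb0', ?_⟩
  have hinj : Function.Injective (fun k : Fin 8 → ZMod 2 => b0 + k) :=
    fun x y h => add_left_cancel h
  have h3 : (Ker e).image (fun k => b0 + k) = (Ker e)ᶜ := by
    apply eq_of_subset_of_card_le
    · intro b hb
      rw [mem_image] at hb
      obtain ⟨k, hk, rfl⟩ := hb
      rw [mem_compl, mem_Ker, he, (mem_Ker e k).1 hk, add_zero]
      exact hb0'
    · rw [card_image_of_injective _ hinj, h1, hc]
  intro b hb
  rw [← h3, mem_image] at hb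
  obtain ⟨k, hk, rfl⟩ := hb
  rw [he, (mem_Ker e k).1 hk, add_zero]

/-- maps of the 8-dimensional space with value sum zero: the sum of the signs of half the
weights over the components of degree at most six is less than 64, or equal to 64 and there are
more than 64 such components. -/
theorem eight_full (f : (Fin 8 → ZMod 2) → (Fin 8 → ZMod 2)) (hf : ∑ v, f v = 0)
    (a : (Fin 8 → ZMod 2) → ℤ) (ha : ∀ b, wt (fun v => b ⬝ᵥ f v) = 2 * a b)
    (hc : ∑ b ∈ Ker (slope f), chi ((a b : ℤ) : ZMod 2) < 64 ∨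
      (64 < (Ker (slope f)).card ∧ ∑ b ∈ Ker (slope f), chi ((a b : ℤ) : ZMod 2) ≤ 64)) :
    ∃ b, b ≠ 0 ∧ ∃ u, (28 : ℤ) ≤ |W f b u| := by
  by_cases hc4 : (Ker (slope f)).card ≤ 4
  · exact eight_sum f hf hc4
  by_contra hcon
  push Not at hcon
  have he := slope_add f
  set q : (Fin 8 → ZMod 2) → ZMod 2 := fun b => ((a b : ℤ) : ZMod 2) with hqdef
  set β : (Fin 8 → ZMod 2) → (Fin 8 → ZMod 2) → ZMod 2 :=
    fun b d => ∑ v, (b ⬝ᵥ f v) * (d ⬝ᵥ f v) with hβdef
  have hβ : ∀ b b' d, β (b + b') d = β b d + β b' d := by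
    intro b b' d
    simp only [hβdef, add_dotProduct, add_mul, sum_add_distrib]
  have hs : ∀ b d, β b d = β d b := by
    intro b d
    simp only [hβdef, mul_comm]
  have hq : ∀ b d, q (b + d) = q b + q d + β b d := by
    intro b d
    have h1 : wt (fun v => (b + d) ⬝ᵥ f v) = wt (fun v => b ⬝ᵥ f v) + wt (fun v => d ⬝ᵥ f v)
        - 2 * wt (fun v => (b ⬝ᵥ f v) * (d ⬝ᵥ f v)) := by
      rw [← wt_add]
      congr 1
      funext v
      rw [add_dotProduct]
    rw [ha, ha, ha] at h1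
    have h2 : a (b + d) = a b + a d - wt (fun v => (b ⬝ᵥ f v) * (d ⬝ᵥ f v)) := by linarith
    simp only [hqdef, hβdef]
    rw [h2, Int.cast_sub, Int.cast_add, wt_cast, CharTwo.sub_eq_add]
  have hk : ∀ b u, ∃ k : ℤ, W f b u = 4 * k ∧ ((k : ℤ) : ZMod 2) = q b + slope f b ⬝ᵥ u := by
    intro b u
    have h1 : W f b u = 2 ^ 8 - 2 * wt (fun v => b ⬝ᵥ f v + u ⬝ᵥ v) :=
      sum_chi_eq (fun v => b ⬝ᵥ f v + u ⬝ᵥ v)
    have h3 := wt_comp (Equiv.refl _) u
    simp only [Equiv.refl_apply] at h3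
    rw [wt_add, ha] at h1
    refine ⟨2 * (32 * (if u = 0 then 1 else 0) - a b) + a b
      + wt (fun v => (b ⬝ᵥ f v) * (u ⬝ᵥ v)), ?_, ?_⟩
    · rw [h1]
      have h4 : (if u = 0 then (2 : ℤ) ^ 8 else 0) = 256 * (if u = 0 then 1 else 0) := by
        split_ifs <;> norm_num
      rw [h4] at h3
      linarith
    · rw [Int.cast_add, Int.cast_add, Int.cast_mul, wt_cast, slope_dot]
      have : ((2 : ℤ) : ZMod 2) = 0 := by decide
      rw [this, zero_mul, zero_add]
  have hL : ∀ d, d ≠ 0 → ∀ u, |W f d u| ≤ 24 := by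
    intro d hd u
    obtain ⟨k, hk, -⟩ := hk d u
    exact bound_le _ k hk (hcon d hd u)
  have hB : ∀ k, k ≠ 0 → ∀ u, W f k u ^ 2 ≤ 576 := fun k hk u => sq_le_of _ (hL k hk u)
  have e0 : slope f 0 = 0 := by
    have := he 0 0
    rw [add_zero, add_self_vec] at this
    exact this
  have hz : (0 : Fin 8 → ZMod 2) ∈ Ker (slope f) := (mem_Ker _ 0).2 e0
  have hpos : 1 ≤ (Ker (slope f)).card := card_pos.2 ⟨0, hz⟩
  have p8 : (2 : ℤ) ^ 8 = 256 := by norm_num
  have h1 := moment f
  have hcomp : ∀ b, b ≠ 0 → 512 * ∑ e, AC f b e ^ 2 ≤ 63373312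
      + 40960 * (chi (q b) * AC f b (slope f b)) +
      (if slope f b = 0 then 1638400 * chi (q b) else 0) := by
    intro b hb
    have h1 : ∀ u, 2 * W f b u ^ 4 ≤ 992 * (W f b u ^ 2 * chi (u ⬝ᵥ (0 : Fin 8 → ZMod 2)))
        + 160 * chi (q b) * (W f b u ^ 2 * chi (u ⬝ᵥ slope f b)) - 6400
        + 6400 * chi (q b) * chi (u ⬝ᵥ slope f b) := by
      intro u
      obtain ⟨k, hk, hk2⟩ := hk b u
      have h4 := ptw_six k (bound_six _ k hk (hcon b hb u))
      rw [hk2, dotProduct_comm, chi_add] at h4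
      rw [hk, dotProduct_zero, chi_zero]
      have h5 := scale_six k _ h4
      linarith
    have h2 : ∑ u, 2 * W f b u ^ 4 ≤ 992 * (2 ^ 8 * AC f b 0)
        + 160 * chi (q b) * (2 ^ 8 * AC f b (slope f b)) - 6400 * 256
        + 6400 * chi (q b) * (if slope f b = 0 then 2 ^ 8 else 0) := by
      refine (sum_le_sum fun u _ => h1 u).trans (le_of_eq ?_)
      simp only [sum_add_distrib, sum_sub_distrib, ← mul_sum, sum_W_sq, sum_chi_dot]
      rw [sum_const, nsmul_eq_mul, card_vec]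
      norm_num
    have h3 := sum_AC_sq f b
    rw [← mul_sum, ← h3, AC_zero_right, p8] at h2
    rcases chi_cases (q b) with h | h <;> rw [h] at h2 ⊢ <;> split_ifs at h2 ⊢ <;> linarith
  -- the components outside and inside the kernel
  have hout : ∀ b ∈ (Ker (slope f))ᶜ, 512 * ∑ e, AC f b e ^ 2 ≤ 63373312
      + 40960 * (chi (q b) * AC f b (slope f b)) := by
    intro b hb
    rw [mem_compl, mem_Ker] at hb
    have hb0 : b ≠ 0 := by
      rintro rfl
      exact hb e0
    have := hcomp b hb0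
    rw [if_neg hb, add_zero] at this
    exact this
  have hin : ∀ b ∈ (Ker (slope f)).erase 0,
      512 * ∑ e, AC f b e ^ 2 ≤ 63373312 + 12124160 * chi (q b) := by
    intro b hb
    have hb0 := ne_of_mem_erase hb
    have hbk := (mem_Ker _ b).1 (mem_of_mem_erase hb)
    have := hcomp b hb0
    rw [if_pos hbk, hbk, AC_zero_right, p8] at this
    linarith
  have hsplit : ∑ b ∈ univ.erase (0 : Fin 8 → ZMod 2), ∑ e, AC f b e ^ 2 =
      ∑ b ∈ (Ker (slope f))ᶜ, ∑ e, AC f b e ^ 2 +
      ∑ b ∈ (Ker (slope f)).erase 0, ∑ e, AC f b e ^ 2 := by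
    have h3 := sum_add_sum_compl (Ker (slope f)) (fun b => ∑ e, AC f b e ^ 2)
    rw [← add_sum_erase univ _ (mem_univ (0 : Fin 8 → ZMod 2)),
      ← add_sum_erase (Ker (slope f)) _ hz] at h3
    linarith
  have hcc : ((Ker (slope f))ᶜ.card : ℤ) = 256 - (Ker (slope f)).card := by
    have h11 := card_compl_add_card (Ker (slope f))
    have h12 : (Fintype.card (Fin 8 → ZMod 2) : ℤ) = 256 := by
      simp
    rw [← h11] at h12
    push_cast at h12
    linarith
  have q0 : q 0 = 0 := by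
    have h5 := ha 0
    have h6 : wt (fun v => (0 : Fin 8 → ZMod 2) ⬝ᵥ f v) = 0 := by
      simp only [wt, zero_dotProduct, ZMod.val_zero]
      simp
    rw [h6] at h5
    have h7 : a 0 = 0 := by linarith
    simp only [hqdef, h7]
    simp
  set G : ℤ := ∑ b ∈ Ker (slope f), chi (q b) with hG
  have hGs : ∑ b ∈ (Ker (slope f)).erase 0, chi (q b) = G - 1 := by
    rw [hG, ← add_sum_erase (Ker (slope f)) _ hz, q0, chi_zero]
    ring
  have h2 : 512 * ∑ b ∈ univ.erase (0 : Fin 8 → ZMod 2), ∑ e, AC f b e ^ 2 ≤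
      255 * 63373312 + 40960 * outq (slope f) q f + (G - 1) * 12124160 := by
    rw [hsplit, mul_add, mul_sum, mul_sum]
    have h3 := sum_le_sum hout
    have h4 := sum_le_sum hin
    rw [sum_add_distrib, sum_const, nsmul_eq_mul, hcc,
      ← mul_sum (Ker (slope f))ᶜ (fun b => chi (q b) * AC f b (slope f b)) 40960] at h3
    rw [sum_add_distrib, sum_const, nsmul_eq_mul, card_erase_of_mem hz, Nat.cast_sub hpos,
      Nat.cast_one, ← mul_sum ((Ker (slope f)).erase 0) (fun b => chi (q b)) 12124160, hGs] at h4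
    rw [outq]
    linarith
  have hdvd : (Ker (slope f)).card ∣ 2 ^ 8 :=
    card_dvd_of_closed _ hz (fun a ha b hb => Ker_add (slope f) he a b ha hb)
  obtain ⟨a1, ha1, ha2⟩ := (Nat.dvd_prime_pow Nat.prime_two).1 hdvd
  have hzR := zero_mem_RadK (slope f) he β hβ hs
  have hdvd' : (RadK (slope f) β).card ∣ 2 ^ 8 :=
    card_dvd_of_closed _ hzR (fun a ha b hb => RadK_add (slope f) he β hβ hs a b ha hb)
  obtain ⟨b1, hb1, hb2⟩ := (Nat.dvd_prime_pow Nat.prime_two).1 hdvd'
  have hle : (RadK (slope f) β).card ≤ (Ker (slope f)).card :=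
    card_le_card (filter_subset _ _)
  rw [ha2, hb2] at hle
  have hba : b1 ≤ a1 := (Nat.pow_le_pow_iff_right (by norm_num)).1 hle
  have h5 := coset_boundq (slope f) he q β hβ hs hq f 576 (by norm_num) hB a1 b1 ha2 hb2
  have hG0 : Gam (slope f) q β 0 0 = G := by
    rw [Gam, hG]
    refine sum_congr rfl fun k _ => ?_
    rw [hs k 0, β_zero β hβ, dotProduct_zero, add_zero, add_zero]
  have hGc := Gam_cases (slope f) he q β hβ hs hq 0 0
  rw [hG0, ha2, hb2] at hGc
  push_cast at hGc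
  rw [← pow_add] at hGc
  have hGp := pow_cases G (a1 + b1) hGc
  rw [p8] at h1 h5
  rw [ha2] at hc4
  have ha3 : 3 ≤ a1 := by
    by_contra hlt
    have h6 : a1 ≤ 2 := by omega
    have h7 : 2 ^ a1 ≤ 2 ^ 2 := Nat.pow_le_pow_right (by norm_num) h6
    omega
  rcases Nat.lt_or_ge 6 a1 with h6 | h6
  · have hG64 : G ≤ 64 := by
      rcases hc with hc | hc
      · exact hc.le
      · exact hc.2
    rcases Nat.lt_or_ge 7 a1 with h7 | h7
    · -- all components have degree at most six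
      have h8 : a1 = 8 := by omega
      rw [h8] at ha2
      have h9 : outq (slope f) q f = 0 := by
        have h10 : (Ker (slope f))ᶜ = ∅ := by
          rw [← card_eq_zero]
          have h11 := card_compl_add_card (Ker (slope f))
          have h12 : Fintype.card (Fin 8 → ZMod 2) = 256 := by simp
          omega
        rw [outq, h10, sum_empty]
      rw [h9] at h2
      linarith
    · have h8 : a1 = 7 := by omega
      rw [h8] at ha2
      norm_num at ha2
      obtain ⟨t, ht, hte⟩ := same_slope (slope f) he ha2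
      have h9 : (Ker (slope f))ᶜ.card = 128 := by
        have h11 := card_compl_add_card (Ker (slope f))
        have h12 : Fintype.card (Fin 8 → ZMod 2) = 256 := by simp
        omega
      have h10 := one_slope f t ht (Ker (slope f)) hz
        (fun b => chi (q b) * AC f b (slope f b)) (fun b hb => by
          rw [hte b hb, mul_pow, sq (chi (q b)), chi_mul_self, one_mul]) h9
      exact final_two _ _ G hG64 h10 h2
  · have hG64 : G < 64 := by
      rcases hc with hc | hc
      · exact hc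
      · exfalso
        have h7 : 2 ^ a1 ≤ 2 ^ 6 := Nat.pow_le_pow_right (by norm_num) h6
        have h8 := hc.1
        omega
    rw [ha2, hb2] at h5
    have hmax : max ((576 : ℤ) - 256) 256 = 320 := by norm_num
    rw [hmax] at h5
    push_cast at h5
    exact final_full a1 b1 ha3 h6 hba _ _ G (by linarith) hGp hG64 h2 h5

end Pool.Agent.Lib.MP_ea66ba_co
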