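import Mathlib
import Pool.Agent.Lib.MP_ea66ba_co.PermDeg

set_option autoImplicit false

/-!
Divisibility of the weights of polynomials of small degree (McEliece), in the form needed here:
the weight of a polynomial of degree at most `d` times `j` linear forms is divisible by `2 ^ k`
if `k * d + j < n`.
-/

namespace Pool.Agent.Lib.MP_ea66ba_co

open Finset Matrix

variable {n : ℕ}

/-- product of linear forms -/
def lprod (ws : List (Fin n → ZMod 2)) (v : Fin n → ZMod 2) : ZMod 2 :=
  (ws.map fun w => w ⬝ᵥ v).prod

lemma lprod_append (ws ws' : List (Fin n → ZMod 2)) (v : Fin n → ZMod 2) :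
    lprod (ws ++ ws') v = lprod ws v * lprod ws' v := by
  rw [lprod, List.map_append, List.prod_append, ← lprod, ← lprod]

lemma chi_prod_dvd (ws : List (Fin n → ZMod 2)) : ∀ w0 : Fin n → ZMod 2,
    (2 : ℤ) ^ n ∣ ∑ v, chi (w0 ⬝ᵥ v) * (ws.map fun w => 1 - chi (w ⬝ᵥ v)).prod := by
  induction ws with
  | nil =>
    intro w0
    have h : ∑ v, chi (w0 ⬝ᵥ v) * (([] : List (Fin n → ZMod 2)).map
        fun w => 1 - chi (w ⬝ᵥ v)).prod = ∑ v, chi (v ⬝ᵥ w0) :=
      sum_congr rfl fun v _ => by rw [List.map_nil, List.prod_nil, mul_one, dotProduct_comm]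
    rw [h, sum_chi_dot]
    split_ifs
    · exact dvd_rfl
    · exact dvd_zero _
  | cons w ws ih =>
    intro w0
    have h : ∑ v, chi (w0 ⬝ᵥ v) * ((w :: ws).map fun w => 1 - chi (w ⬝ᵥ v)).prod =
        ∑ v, chi (w0 ⬝ᵥ v) * (ws.map fun w => 1 - chi (w ⬝ᵥ v)).prod -
        ∑ v, chi ((w0 + w) ⬝ᵥ v) * (ws.map fun w => 1 - chi (w ⬝ᵥ v)).prod := by
      rw [← sum_sub_distrib]
      refine sum_congr rfl fun v _ => ?_
      rw [List.map_cons, List.prod_cons, add_dotProduct, chi_add]
      ring
    rw [h]
    exact dvd_sub (ih w0) (ih (w0 + w))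

lemma lprod_val (ws : List (Fin n → ZMod 2)) (v : Fin n → ZMod 2) :
    (2 : ℤ) ^ ws.length * ((lprod ws v).val : ℤ) =
      (ws.map fun w => 1 - chi (w ⬝ᵥ v)).prod := by
  induction ws with
  | nil => simp [lprod, ZMod.val_one]
  | cons w ws ih =>
    have h : lprod (w :: ws) v = (w ⬝ᵥ v) * lprod ws v := by
      rw [lprod, List.map_cons, List.prod_cons, ← lprod]
    have h2 : ∀ x y : ZMod 2, ((x * y).val : ℤ) = (x.val : ℤ) * (y.val : ℤ) := by decide
    rw [h, h2, List.length_cons, List.map_cons, List.prod_cons, ← ih, chi_eq]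
    ring

lemma lprod_dvd (ws : List (Fin n → ZMod 2)) (k : ℕ) (hk : k + ws.length ≤ n) :
    (2 : ℤ) ^ k ∣ wt (fun v => lprod ws v) := by
  have h1 : (2 : ℤ) ^ ws.length * wt (fun v => lprod ws v) =
      ∑ v, chi ((0 : Fin n → ZMod 2) ⬝ᵥ v) * (ws.map fun w => 1 - chi (w ⬝ᵥ v)).prod := by
    rw [wt, mul_sum]
    refine sum_congr rfl fun v _ => ?_
    rw [lprod_val, zero_dotProduct, chi_zero, one_mul]
  have h2 := chi_prod_dvd ws 0
  rw [← h1] at h2
  have h3 : (2 : ℤ) ^ ws.length * 2 ^ k ∣ (2 : ℤ) ^ ws.length * wt (fun v => lprod ws v) := by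
    refine dvd_trans ?_ h2
    rw [← pow_add]
    exact pow_dvd_pow 2 (by omega)
  exact Int.dvd_of_mul_dvd_mul_left (by positivity) h3

/-- a monomial is a product of linear forms. -/
lemma monomial_eq (s : Fin n →₀ ℕ) : ∃ ws : List (Fin n → ZMod 2), ws.length = s.degree ∧
    ∀ v, MvPolynomial.eval v (MvPolynomial.monomial s (1 : ZMod 2)) = lprod ws v := by
  refine ⟨(s.toMultiset.toList).map fun i => Pi.single i 1, ?_, fun v => ?_⟩
  · rw [List.length_map, Multiset.length_toList, Finsupp.card_toMultiset]
    rfl
  · rw [MvPolynomial.eval_monomial, one_mul, lprod, List.map_map]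
    have h1 : ((fun w : Fin n → ZMod 2 => w ⬝ᵥ v) ∘ fun i => Pi.single i 1) = v := by
      funext i
      simp
    rw [h1]
    have h2 : ((s.toMultiset.toList).map v).prod = (s.toMultiset.map v).prod := by
      rw [← Multiset.prod_coe, ← Multiset.map_coe, Multiset.coe_toList]
    rw [h2, Finsupp.toMultiset_map, Finsupp.prod_toMultiset, Finsupp.prod_mapDomain_index]
    · intro a
      exact pow_zero a
    · intro a b c
      exact pow_add a b c

/-- divisibility of weights. -/
theorem mceliece (d : ℕ) (hd : 1 ≤ d) : ∀ (k : ℕ) (ws : List (Fin n → ZMod 2)),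
    k * d + ws.length < n → ∀ h : (Fin n → ZMod 2) → ZMod 2, IsDeg d h →
    (2 : ℤ) ^ k ∣ wt (fun v => h v * lprod ws v) := by
  intro k
  induction k with
  | zero =>
    intro ws _ h _
    rw [pow_zero]
    exact one_dvd _
  | succ k ih =>
    intro ws hws h hh
    obtain ⟨p, hp, hp'⟩ := hh
    -- induction on the support
    have key : ∀ s : Finset (Fin n →₀ ℕ), s ⊆ p.support →
        (2 : ℤ) ^ (k + 1) ∣ wt (fun v => MvPolynomial.eval v
          (∑ m ∈ s, MvPolynomial.monomial m (1 : ZMod 2)) * lprod ws v) := by
      intro s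
      induction s using Finset.induction_on with
      | empty =>
        intro _
        simp [wt]
      | insert m s hm ihs =>
        intro hs
        have hm' : m ∈ p.support := hs (mem_insert_self m s)
        have hs' : s ⊆ p.support := fun x hx => hs (mem_insert_of_mem hx)
        have hdeg : ∀ x ∈ p.support, x.degree ≤ d := fun x hx =>
          (MvPolynomial.le_totalDegree hx).trans hp
        obtain ⟨ws', hl, hw'⟩ := monomial_eq m
        have hl' : ws'.length ≤ d := hl ▸ hdeg m hm'
        have h1 : (fun v => MvPolynomial.eval v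
            (∑ m ∈ insert m s, MvPolynomial.monomial m (1 : ZMod 2)) * lprod ws v) =
            fun v => lprod ws' v * lprod ws v +
              MvPolynomial.eval v (∑ m ∈ s, MvPolynomial.monomial m (1 : ZMod 2)) *
                lprod ws v := by
          funext v
          rw [sum_insert hm, map_add, hw' v, add_mul]
        rw [h1, wt_add]
        have h2 : (fun v => lprod ws' v * lprod ws v *
            (MvPolynomial.eval v (∑ m ∈ s, MvPolynomial.monomial m (1 : ZMod 2)) *
              lprod ws v)) = fun v =>
            MvPolynomial.eval v (∑ m ∈ s, MvPolynomial.monomial m (1 : ZMod 2)) *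
              lprod (ws' ++ ws) v := by
          funext v
          rw [lprod_append]
          have : ∀ x y z : ZMod 2, x * y * (z * y) = z * (x * y) := by decide
          exact this _ _ _
        have h3 : (2 : ℤ) ^ (k + 1) ∣ wt (fun v => lprod ws' v * lprod ws v) := by
          have h4 : (fun v => lprod ws' v * lprod ws v) = fun v => lprod (ws' ++ ws) v := by
            funext v
            rw [lprod_append]
          rw [h4]
          refine lprod_dvd _ _ ?_
          rw [List.length_append]
          have : k ≤ k * d := Nat.le_mul_of_pos_right k hd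
          have h5 : (k + 1) * d = k * d + d := by ring
          omega
        have h6 : IsDeg d (fun v => MvPolynomial.eval v
            (∑ m ∈ s, MvPolynomial.monomial m (1 : ZMod 2))) := by
          refine ⟨_, ?_, fun v => rfl⟩
          refine MvPolynomial.totalDegree_finsetSum_le fun x hx => ?_
          refine (MvPolynomial.totalDegree_monomial_le _ _).trans ?_
          exact hdeg x (hs' hx)
        have h7 : (2 : ℤ) ^ k ∣ wt (fun v => MvPolynomial.eval v
            (∑ m ∈ s, MvPolynomial.monomial m (1 : ZMod 2)) * lprod (ws' ++ ws) v) := by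
          refine ih (ws' ++ ws) ?_ _ h6
          rw [List.length_append]
          have h5 : (k + 1) * d = k * d + d := by ring
          omega
        rw [h2]
        refine dvd_sub (dvd_add h3 (ihs hs')) ?_
        rw [pow_succ, mul_comm]
        exact mul_dvd_mul_left 2 h7
    have h8 : ∑ m ∈ p.support, MvPolynomial.monomial m (1 : ZMod 2) = p := by
      conv_rhs => rw [p.as_sum]
      refine sum_congr rfl fun m hm => ?_
      have h9 : ∀ x : ZMod 2, x ≠ 0 → 1 = x := by decide
      rw [← h9 _ (MvPolynomial.mem_support_iff.1 hm)]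
    have h10 := key p.support subset_rfl
    rw [h8] at h10
    have h11 : (fun v => h v * lprod ws v) = fun v => MvPolynomial.eval v p * lprod ws v := by
      funext v
      rw [hp' v]
    rw [h11]
    exact h10

end Pool.Agent.Lib.MP_ea66ba_co
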