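import Mathlib
import Pool.Agent.Lib.MP_ea66ba_co.McEliece

set_option autoImplicit false

/-!
Derivatives lower the degree; a nonzero function of degree at most `d` has weight at least
`2 ^ (n - d)`.
-/

namespace Pool.Agent.Lib.MP_ea66ba_co

open Finset Matrix

variable {n : ℕ}

lemma IsDeg.mono {a b : ℕ} (hab : a ≤ b) {h : (Fin n → ZMod 2) → ZMod 2} (hh : IsDeg a h) :
    IsDeg b h := by
  obtain ⟨p, hp, hp'⟩ := hh
  exact ⟨p, hp.trans hab, hp'⟩

lemma IsDeg.add {d : ℕ} {g h : (Fin n → ZMod 2) → ZMod 2} (hg : IsDeg d g) (hh : IsDeg d h) :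
    IsDeg d (fun v => g v + h v) := by
  obtain ⟨p, hp, hp'⟩ := hg
  obtain ⟨q, hq, hq'⟩ := hh
  refine ⟨p + q, (MvPolynomial.totalDegree_add p q).trans (max_le hp hq), fun v => ?_⟩
  rw [map_add, ← hp', ← hq']

lemma IsDeg.const (d : ℕ) (a : ZMod 2) : IsDeg d (fun _ : Fin n → ZMod 2 => a) :=
  ⟨MvPolynomial.C a, by rw [MvPolynomial.totalDegree_C]; exact Nat.zero_le _, fun v => by
    rw [MvPolynomial.eval_C]⟩

lemma IsDeg.ofList (ws : List (Fin n → ZMod 2)) :
    IsDeg ws.length (fun v => lprod ws v) := by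
  induction ws with
  | nil =>
    have h : (fun v : Fin n → ZMod 2 => lprod [] v) = fun _ => 1 := by
      funext v
      simp [lprod]
    rw [h]
    exact IsDeg.const _ _
  | cons w ws ih =>
    have h : (fun v : Fin n → ZMod 2 => lprod (w :: ws) v) =
        fun v => (w ⬝ᵥ v) * lprod ws v := by
      funext v
      simp [lprod]
    rw [h, List.length_cons, Nat.add_comm]
    exact (IsDeg.lin w).mul ih

lemma deriv_lprod (z : Fin n → ZMod 2) (ws : List (Fin n → ZMod 2)) : ∀ d : ℕ,
    ws.length ≤ d + 1 → IsDeg d (fun v => lprod ws v + lprod ws (v + z)) := by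
  induction ws with
  | nil =>
    intro d _
    have h : (fun v : Fin n → ZMod 2 => lprod [] v + lprod [] (v + z)) = fun _ => 0 := by
      funext v
      simp only [lprod, List.map_nil, List.prod_nil]
      decide
    rw [h]
    exact IsDeg.const _ _
  | cons w ws ih =>
    intro d hd
    rw [List.length_cons] at hd
    have hw : ∀ v, lprod (w :: ws) v = (w ⬝ᵥ v) * lprod ws v := by
      intro v
      simp [lprod]
    rcases Nat.eq_zero_or_pos d with h0 | h0
    · subst h0
      have h1 : ws = [] := List.eq_nil_of_length_eq_zero (by omega)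
      subst h1
      have h : (fun v : Fin n → ZMod 2 => lprod [w] v + lprod [w] (v + z)) =
          fun _ => w ⬝ᵥ z := by
        funext v
        simp only [lprod, List.map_cons, List.map_nil, List.prod_cons, List.prod_nil, mul_one]
        rw [dotProduct_add, ← add_assoc, CharTwo.add_self_eq_zero, zero_add]
      rw [h]
      exact IsDeg.const _ _
    · obtain ⟨c, rfl⟩ : ∃ c, d = c + 1 := ⟨d - 1, by omega⟩
      have ih' := ih c (by omega)
      have h : (fun v : Fin n → ZMod 2 => lprod (w :: ws) v + lprod (w :: ws) (v + z)) =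
          fun v => (w ⬝ᵥ v) * (lprod ws v + lprod ws (v + z)) +
            (w ⬝ᵥ z) * (lprod ws v + (lprod ws v + lprod ws (v + z))) := by
        funext v
        rw [hw, hw, dotProduct_add]
        have : ∀ a b c d : ZMod 2, a * b + (a + c) * d = a * (b + d) + c * (b + (b + d)) := by
          decide
        exact this _ _ _ _
      rw [h]
      have h2 : IsDeg (1 + c) (fun v : Fin n → ZMod 2 => (w ⬝ᵥ v) *
          (lprod ws v + lprod ws (v + z))) := (IsDeg.lin w).mul ih'
      have h3 : IsDeg (0 + (c + 1)) (fun v : Fin n → ZMod 2 => (w ⬝ᵥ z) *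
          (lprod ws v + (lprod ws v + lprod ws (v + z)))) :=
        (IsDeg.const 0 (w ⬝ᵥ z)).mul
          (((IsDeg.ofList ws).mono (by omega)).add (ih'.mono (by omega)))
      exact (h2.mono (by omega)).add (h3.mono (by omega))

/-- a derivative of a function of degree at most `d + 1` has degree at most `d`. -/
theorem IsDeg.deriv {d : ℕ} {h : (Fin n → ZMod 2) → ZMod 2} (hh : IsDeg (d + 1) h)
    (z : Fin n → ZMod 2) : IsDeg d (fun v => h v + h (v + z)) := by
  obtain ⟨p, hp, hp'⟩ := hh
  have key : ∀ s : Finset (Fin n →₀ ℕ), s ⊆ p.support →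
      IsDeg d (fun v => MvPolynomial.eval v (∑ m ∈ s, MvPolynomial.monomial m (1 : ZMod 2)) +
        MvPolynomial.eval (v + z) (∑ m ∈ s, MvPolynomial.monomial m (1 : ZMod 2))) := by
    intro s
    induction s using Finset.induction_on with
    | empty =>
      intro _
      have h : (fun v : Fin n → ZMod 2 => MvPolynomial.eval v
          (∑ m ∈ (∅ : Finset (Fin n →₀ ℕ)), MvPolynomial.monomial m (1 : ZMod 2)) +
          MvPolynomial.eval (v + z)
          (∑ m ∈ (∅ : Finset (Fin n →₀ ℕ)), MvPolynomial.monomial m (1 : ZMod 2))) =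
          fun _ => 0 := by
        funext v
        simp
      rw [h]
      exact IsDeg.const _ _
    | insert m s hm ihs =>
      intro hs
      have hm' : m ∈ p.support := hs (mem_insert_self m s)
      have hs' : s ⊆ p.support := fun x hx => hs (mem_insert_of_mem hx)
      obtain ⟨ws', hl, hw'⟩ := monomial_eq m
      have hl' : ws'.length ≤ d + 1 := hl ▸ (MvPolynomial.le_totalDegree hm').trans hp
      have h1 : (fun v => MvPolynomial.eval v
          (∑ m ∈ insert m s, MvPolynomial.monomial m (1 : ZMod 2)) +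
          MvPolynomial.eval (v + z)
          (∑ m ∈ insert m s, MvPolynomial.monomial m (1 : ZMod 2))) =
          fun v => (lprod ws' v + lprod ws' (v + z)) +
            (MvPolynomial.eval v (∑ m ∈ s, MvPolynomial.monomial m (1 : ZMod 2)) +
            MvPolynomial.eval (v + z) (∑ m ∈ s, MvPolynomial.monomial m (1 : ZMod 2))) := by
        funext v
        rw [sum_insert hm, map_add, map_add, hw' v, hw' (v + z)]
        ring
      rw [h1]
      exact (deriv_lprod z ws' d hl').add (ihs hs')
  have h8 : ∑ m ∈ p.support, MvPolynomial.monomial m (1 : ZMod 2) = p := by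
    conv_rhs => rw [p.as_sum]
    refine sum_congr rfl fun m hm => ?_
    have h9 : ∀ x : ZMod 2, x ≠ 0 → 1 = x := by decide
    rw [← h9 _ (MvPolynomial.mem_support_iff.1 hm)]
  have h10 := key p.support subset_rfl
  rw [h8] at h10
  have h11 : (fun v => h v + h (v + z)) = fun v => MvPolynomial.eval v p +
      MvPolynomial.eval (v + z) p := by
    funext v
    rw [hp' v, hp' (v + z)]
  rw [h11]
  exact h10

lemma wt_nonneg (h : (Fin n → ZMod 2) → ZMod 2) : 0 ≤ wt h :=
  sum_nonneg fun v _ => by positivity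

lemma wt_shift (h : (Fin n → ZMod 2) → ZMod 2) (z : Fin n → ZMod 2) :
    wt (fun v => h (v + z)) = wt h :=
  sum_shift (fun v => ((h v).val : ℤ)) z

lemma wt_one_const : wt (fun _ : Fin n → ZMod 2 => (1 : ZMod 2)) = 2 ^ n := by
  rw [wt]
  simp only [ZMod.val_one]
  rw [sum_const, nsmul_eq_mul, card_vec]
  norm_num

/-- minimal weight of functions of small degree. -/
theorem min_weight (d : ℕ) : ∀ h : (Fin n → ZMod 2) → ZMod 2, IsDeg d h → (∃ v, h v ≠ 0) →
    2 ^ n ≤ 2 ^ d * wt h := by
  have hone : ∀ x : ZMod 2, x ≠ 0 → x = 1 := by decide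
  induction d with
  | zero =>
    intro h hh hv
    obtain ⟨p, hp, hp'⟩ := hh
    have h1 : p = MvPolynomial.C (MvPolynomial.coeff 0 p) :=
      MvPolynomial.totalDegree_eq_zero_iff_eq_C.1 (Nat.le_zero.1 hp)
    obtain ⟨v, hv⟩ := hv
    have h2 : ∀ x, h x = MvPolynomial.coeff 0 p := by
      intro x
      rw [hp' x, h1, MvPolynomial.eval_C, MvPolynomial.coeff_C]
      simp
    have h3 : h = fun _ => 1 := by
      funext x
      rw [h2 x, ← h2 v]
      exact hone _ hv
    rw [h3, wt_one_const, pow_zero, one_mul]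
  | succ d ih =>
    intro h hh hv
    by_cases hz : ∃ z v, h v + h (v + z) ≠ 0
    · obtain ⟨z, hz⟩ := hz
      have h1 := ih _ (hh.deriv z) hz
      have h2 : wt (fun v => h v + h (v + z)) ≤ 2 * wt h := by
        rw [wt_add h (fun v => h (v + z)), wt_shift]
        have := wt_nonneg (fun v => h v * h (v + z))
        linarith
      calc (2 : ℤ) ^ n ≤ 2 ^ d * wt (fun v => h v + h (v + z)) := h1
        _ ≤ 2 ^ d * (2 * wt h) := mul_le_mul_of_nonneg_left h2 (by positivity)
        _ = 2 ^ (d + 1) * wt h := by ring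
    · push Not at hz
      obtain ⟨v, hv⟩ := hv
      have h3 : h = fun _ => 1 := by
        funext x
        have h4 := hz (v + x) v
        have h5 : v + (v + x) = x := by rw [← add_assoc, add_self_vec, zero_add]
        rw [h5, hone _ hv] at h4
        have h6 : ∀ a : ZMod 2, 1 + a = 0 → a = 1 := by decide
        exact h6 _ h4
      rw [h3, wt_one_const]
      have h7 : (1 : ℤ) ≤ 2 ^ (d + 1) := one_le_pow₀ (by norm_num)
      have h8 : (0 : ℤ) < 2 ^ n := by positivity
      nlinarith

/-- sums of signs of quadratic functions. -/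
lemma quad_gap (Q : (Fin n → ZMod 2) → ZMod 2) (hQ : IsDeg 2 Q) :
    (∀ v, Q v = 0) ∨ (∀ v, Q v = 1) ∨ 2 * |∑ v, chi (Q v)| ≤ 2 ^ n := by
  by_cases h0 : ∃ v, Q v ≠ 0
  · by_cases h1 : ∃ v, Q v + 1 ≠ 0
    · right; right
      have e1 := min_weight 2 Q hQ h0
      have e2 := min_weight 2 (fun v => Q v + 1) (hQ.add (IsDeg.const 2 1)) h1
      have e3 : wt (fun v => Q v + 1) = 2 ^ n - wt Q := by
        have h3 := wt_add Q (fun _ => 1)
        rw [wt_one_const] at h3
        have h4 : (fun v => Q v * 1) = Q := by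
          funext v
          rw [mul_one]
        rw [h4] at h3
        rw [h3]
        ring
      rw [e3] at e2
      have h5 := sum_chi_eq Q
      rw [h5]
      norm_num at e1 e2
      have h6 : |2 ^ n - 2 * wt Q| ≤ 2 ^ n / 2 := by
        rw [abs_le]
        constructor <;> omega
      have h7 : (2 : ℤ) ^ n / 2 * 2 ≤ 2 ^ n := Int.ediv_mul_le _ (by norm_num)
      linarith
    · push Not at h1
      right; left
      intro v
      have : ∀ a : ZMod 2, a + 1 = 0 → a = 1 := by decide
      exact this _ (h1 v)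
  · push Not at h0
    exact Or.inl h0

end Pool.Agent.Lib.MP_ea66ba_co
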