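import Mathlib
import Pool.Agent.Lib.MP_ea66ba_co.Deriv

set_option autoImplicit false

/-!
Quadratic signs: a Boolean function with a linear structure whose Walsh coefficients are odd
multiples of `M` on a hyperplane cannot have all of them at most `3 * M`, if the coefficients
satisfy a congruence over flats.
-/

namespace Pool.Agent.Lib.MP_ea66ba_co

open Finset Matrix

variable {n : ℕ}

/-- Walsh coefficient of a Boolean function -/
def Wg (g : (Fin n → ZMod 2) → ZMod 2) (u : Fin n → ZMod 2) : ℤ := ∑ x, chi (g x + u ⬝ᵥ x)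

lemma sum_Wg_sq (g : (Fin n → ZMod 2) → ZMod 2) : ∑ u, Wg g u ^ 2 = 2 ^ n * 2 ^ n := by
  have h := parseval (fun x => chi (g x))
  have h1 : ∀ e, ∑ u, chi (g u) * chi (u ⬝ᵥ e) = Wg g e := by
    intro e
    rw [Wg]
    exact sum_congr rfl fun x _ => by rw [chi_add, dotProduct_comm x e]
  simp only [h1] at h
  rw [h]
  have h2 : ∑ u, chi (g u) ^ 2 = ∑ u : Fin n → ZMod 2, (1 : ℤ) :=
    sum_congr rfl fun u _ => by rw [sq, chi_mul_self]
  rw [h2, sum_const, nsmul_eq_mul, card_vec, mul_one]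

section quadratic

variable (σ : (Fin n → ZMod 2) → ZMod 2)
  (h3 : ∀ u a b c, σ u + σ (u + a) + σ (u + b) + σ (u + c) + σ (u + a + b) + σ (u + a + c)
    + σ (u + b + c) + σ (u + a + b + c) = 0)

/-- the radical -/
def Rad : Finset (Fin n → ZMod 2) := univ.filter fun d => ∀ u, σ u + σ (u + d) = σ 0 + σ d

lemma mem_Rad (d : Fin n → ZMod 2) : d ∈ Rad σ ↔ ∀ u, σ u + σ (u + d) = σ 0 + σ d := by
  simp [Rad]

lemma Rad_add (d d' : Fin n → ZMod 2) (hd : d ∈ Rad σ) (hd' : d' ∈ Rad σ) :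
    d + d' ∈ Rad σ ∧ σ 0 + σ (d + d') = (σ 0 + σ d) + (σ 0 + σ d') := by
  rw [mem_Rad] at hd hd' ⊢
  have h1 : σ 0 + σ (d + d') = (σ 0 + σ d) + (σ 0 + σ d') := by
    have := hd' d
    have key : ∀ a b c e : ZMod 2, b + c = a + e → a + c = (a + b) + (a + e) := by decide
    exact key _ _ _ _ this
  refine ⟨fun u => ?_, h1⟩
  have e1 := hd u
  have e2 := hd' (u + d)
  rw [add_assoc] at e2
  have key : ∀ a b c p q r : ZMod 2, a + b = p → b + c = q → r = p + q → a + c = r := by decide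
  exact key _ _ _ _ _ _ e1 e2 h1

lemma zero_mem_Rad : (0 : Fin n → ZMod 2) ∈ Rad σ := by
  rw [mem_Rad]
  intro u
  rw [add_zero]
  have : ∀ a b : ZMod 2, a + a = b + b := by decide
  exact this _ _

lemma card_Rad_dvd : (Rad σ).card ∣ 2 ^ n := by
  let R : AddSubgroup (Fin n → ZMod 2) :=
    { carrier := {d | d ∈ Rad σ}
      add_mem' := fun {a b} ha hb => (Rad_add σ a b ha hb).1
      zero_mem' := zero_mem_Rad σ
      neg_mem' := fun {a} ha => by
        have : -a = a := by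
          funext i
          exact CharTwo.neg_eq (a i)
        rw [this]
        exact ha }
  have h1 : Nat.card R = (Rad σ).card := Nat.subtype_card (Rad σ) (fun x => Iff.rfl)
  have h2 : Nat.card (Fin n → ZMod 2) = 2 ^ n := by
    rw [Nat.card_eq_fintype_card]
    simp
  rw [← h1, ← h2]
  exact AddSubgroup.card_addSubgroup_dvd_card R

/-- transform of the signs -/
def Gt (x : Fin n → ZMod 2) : ℤ := ∑ u, chi (σ u + u ⬝ᵥ x)

lemma sum_Gt_sq : ∑ x, Gt σ x ^ 2 = 2 ^ n * 2 ^ n := by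
  rw [← sum_Wg_sq σ]
  refine sum_congr rfl fun x _ => ?_
  congr 1
  rw [Gt, Wg]
  exact sum_congr rfl fun u _ => by rw [dotProduct_comm]

include h3 in
lemma inner_diff (d : Fin n → ZMod 2) : ∑ u, chi (σ u + σ (u + d)) =
    if d ∈ Rad σ then 2 ^ n * chi (σ 0 + σ d) else 0 := by
  obtain ⟨w, hw⟩ := exists_dot (fun u => σ u + σ (u + d) + (σ 0 + σ d)) (by
    intro s t
    have := h3 0 s t d
    simp only [zero_add] at this
    have key : ∀ a b c e f g h k : ZMod 2, a + b + c + e + f + g + h + k = 0 →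
        f + k + (a + e) = b + g + (a + e) + (c + h + (a + e)) := by decide
    exact key _ _ _ _ _ _ _ _ this)
  have h4 : ∀ u, chi (σ u + σ (u + d)) = chi (σ 0 + σ d) * chi (u ⬝ᵥ w) := by
    intro u
    rw [← chi_add, dotProduct_comm, ← hw u]
    congr 1
    have : ∀ a b : ZMod 2, a = b + (a + b) := by decide
    exact this _ _
  simp only [h4, ← mul_sum, sum_chi_dot]
  have h5 : d ∈ Rad σ ↔ w = 0 := by
    rw [mem_Rad]
    constructor
    · intro h
      funext i
      have h6 := hw (Pi.single i 1)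
      rw [h] at h6
      have h7 : w ⬝ᵥ Pi.single i 1 = w i := by simp
      rw [h7] at h6
      have : ∀ a : ZMod 2, a + a = 0 := by decide
      rw [this] at h6
      exact h6.symm
    · rintro rfl u
      have h6 := hw u
      rw [zero_dotProduct] at h6
      have : ∀ a b : ZMod 2, a + b = 0 → a = b := by decide
      exact this _ _ h6
  by_cases h : d ∈ Rad σ
  · rw [if_pos h, if_pos (h5.1 h)]
    ring
  · rw [if_neg h, if_neg (fun h' => h (h5.2 h'))]
    ring

include h3 in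
lemma Gt_sq (x : Fin n → ZMod 2) :
    Gt σ x ^ 2 = 0 ∨ Gt σ x ^ 2 = 2 ^ n * (Rad σ).card := by
  have h1 : Gt σ x ^ 2 = 2 ^ n * ∑ d ∈ Rad σ, chi (d ⬝ᵥ x + (σ 0 + σ d)) := by
    have h2 : Gt σ x ^ 2 = ∑ u, ∑ d, chi (d ⬝ᵥ x) * chi (σ u + σ (u + d)) := by
      rw [sq, Gt, sum_mul_sum]
      refine sum_congr rfl fun u _ => ?_
      have := sum_shift (fun d => chi (σ u + u ⬝ᵥ x) * chi (σ d + d ⬝ᵥ x)) u
      rw [← this]
      refine sum_congr rfl fun d _ => ?_
      rw [add_comm d u, ← chi_add, ← chi_add, add_dotProduct]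
      congr 1
      generalize u ⬝ᵥ x = a
      generalize d ⬝ᵥ x = b
      generalize σ u = c
      generalize σ (u + d) = e
      revert a b c e
      decide
    rw [h2, sum_comm]
    simp only [← mul_sum, inner_diff σ h3]
    have h7 : ∑ d ∈ Rad σ, chi (d ⬝ᵥ x + (σ 0 + σ d)) =
        ∑ d, if d ∈ Rad σ then chi (d ⬝ᵥ x + (σ 0 + σ d)) else 0 := by
      rw [Finset.sum_ite_mem, Finset.univ_inter]
    rw [h7, mul_sum]
    refine sum_congr rfl fun d _ => ?_
    by_cases h : d ∈ Rad σ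
    · rw [if_pos h, if_pos h, chi_add (d ⬝ᵥ x)]
      ring
    · rw [if_neg h, if_neg h]
      ring
  rw [h1]
  by_cases hall : ∀ d ∈ Rad σ, d ⬝ᵥ x + (σ 0 + σ d) = 0
  · right
    have h2 : ∑ d ∈ Rad σ, chi (d ⬝ᵥ x + (σ 0 + σ d)) = ∑ d ∈ Rad σ, (1 : ℤ) :=
      sum_congr rfl fun d hd => by rw [hall d hd, chi_zero]
    rw [h2, sum_const, nsmul_eq_mul, mul_one]
  · left
    push Not at hall
    obtain ⟨r, hr, hr'⟩ := hall
    have hr1 : r ⬝ᵥ x + (σ 0 + σ r) = 1 := by
      have : ∀ a : ZMod 2, a ≠ 0 → a = 1 := by decide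
      exact this _ hr'
    have h2 : ∑ d ∈ Rad σ, chi (d ⬝ᵥ x + (σ 0 + σ d)) =
        ∑ d ∈ Rad σ, - chi (d ⬝ᵥ x + (σ 0 + σ d)) := by
      refine sum_bij' (fun d _ => d + r) (fun d _ => d + r) ?_ ?_ ?_ ?_ ?_
      · intro d hd
        exact (Rad_add σ d r hd hr).1
      · intro d hd
        exact (Rad_add σ d r hd hr).1
      · intro d _
        rw [add_assoc, add_self_vec, add_zero]
      · intro d _
        rw [add_assoc, add_self_vec, add_zero]
      · intro d hd
        rw [(Rad_add σ d r hd hr).2, add_dotProduct]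
        have h4 : d ⬝ᵥ x + r ⬝ᵥ x + (σ 0 + σ d + (σ 0 + σ r)) =
            (d ⬝ᵥ x + (σ 0 + σ d)) + (r ⬝ᵥ x + (σ 0 + σ r)) := by ring
        rw [h4, hr1, chi_add _ 1, chi_one]
        ring
    rw [sum_neg_distrib] at h2
    have h5 : ∑ d ∈ Rad σ, chi (d ⬝ᵥ x + (σ 0 + σ d)) = 0 := by linarith
    rw [h5, mul_zero]

include h3 in
/-- nonzero values of the transform are large if the radical is not trivial. -/
lemma Gt_large (j : ℕ) (hn : n = 2 * j) (w : Fin n → ZMod 2) (hw : w ≠ 0) (hwR : w ∈ Rad σ)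
    (x : Fin n → ZMod 2) : 2 * 2 ^ j * |Gt σ x| ≤ Gt σ x ^ 2 := by
  rcases Gt_sq σ h3 x with h | h
  · have : Gt σ x = 0 := pow_eq_zero_iff (two_ne_zero) |>.1 h
    rw [this]
    simp
  · obtain ⟨i, hi, hi2⟩ := (Nat.dvd_prime_pow Nat.prime_two).1 (card_Rad_dvd σ)
    have hcard : 2 ≤ (Rad σ).card := by
      have h1 : ({0, w} : Finset (Fin n → ZMod 2)) ⊆ Rad σ := by
        intro y hy
        simp only [mem_insert, mem_singleton] at hy
        rcases hy with rfl | rfl
        · exact zero_mem_Rad σ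
        · exact hwR
      have h2 := card_le_card h1
      rwa [card_pair (Ne.symm hw)] at h2
    have hi1 : 1 ≤ i := by
      by_contra hcon
      have : i = 0 := by omega
      rw [this] at hi2
      omega
    -- the square root
    have h4 : (Gt σ x).natAbs ^ 2 = 2 ^ (2 * j + i) := by
      have h5 : (((Gt σ x).natAbs ^ 2 : ℕ) : ℤ) = ((2 ^ (2 * j + i) : ℕ) : ℤ) := by
        push_cast
        rw [sq_abs, h, hi2, hn, pow_add]
        push_cast
        rfl
      exact_mod_cast h5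
    have h5 : (Gt σ x).natAbs ∣ 2 ^ (2 * j + i) := by
      rw [← h4]
      exact dvd_pow_self _ two_ne_zero
    obtain ⟨l, hl, hl2⟩ := (Nat.dvd_prime_pow Nat.prime_two).1 h5
    rw [hl2, ← pow_mul] at h4
    have h6 : l * 2 = 2 * j + i := Nat.pow_right_injective le_rfl h4
    have h7 : j + 1 ≤ l := by omega
    have h8 : |Gt σ x| = 2 ^ l := by
      rw [← Int.natCast_natAbs, hl2]
      push_cast
      rfl
    have h9 : Gt σ x ^ 2 = |Gt σ x| * |Gt σ x| := by rw [← sq, sq_abs]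
    rw [h9, h8]
    have h10 : (2 : ℤ) * 2 ^ j ≤ 2 ^ l := by
      have : (2 : ℤ) * 2 ^ j = 2 ^ (j + 1) := by rw [pow_succ]; ring
      rw [this]
      exact pow_le_pow_right₀ (by norm_num) h7
    exact mul_le_mul_of_nonneg_right h10 (by positivity)

include h3 in
/-- correlation of a Walsh transform with quadratic signs. -/
lemma corr_bound (j : ℕ) (hn : n = 2 * j) (w : Fin n → ZMod 2) (hw : w ≠ 0) (hwR : w ∈ Rad σ)
    (g : (Fin n → ZMod 2) → ZMod 2) :
    2 * 2 ^ j * |∑ u, chi (σ u) * Wg g u| ≤ 2 ^ n * 2 ^ n := by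
  have h1 : ∑ u, chi (σ u) * Wg g u = ∑ x, chi (g x) * Gt σ x := by
    simp only [Wg, Gt, mul_sum]
    rw [sum_comm]
    refine sum_congr rfl fun x _ => sum_congr rfl fun u _ => ?_
    rw [chi_add, chi_add]
    ring
  have h2 : |∑ x, chi (g x) * Gt σ x| ≤ ∑ x, |Gt σ x| := by
    refine (abs_sum_le_sum_abs _ _).trans (le_of_eq ?_)
    exact sum_congr rfl fun x _ => by rw [abs_mul, abs_chi, one_mul]
  have h4 : (0 : ℤ) < 2 * 2 ^ j := by positivity
  rw [h1]
  calc 2 * 2 ^ j * |∑ x, chi (g x) * Gt σ x| ≤ 2 * 2 ^ j * ∑ x, |Gt σ x| :=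
        mul_le_mul_of_nonneg_left h2 h4.le
    _ = ∑ x, 2 * 2 ^ j * |Gt σ x| := by rw [mul_sum]
    _ ≤ ∑ x, Gt σ x ^ 2 := sum_le_sum fun x _ => Gt_large σ h3 j hn w hw hwR x
    _ = 2 ^ n * 2 ^ n := sum_Gt_sq σ

end quadratic

end Pool.Agent.Lib.MP_ea66ba_co
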