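import Mathlib
import Pool.Agent.Lib.MP_ea66ba_co.SecondLevel

set_option autoImplicit false

/-!
The fourth moment of a component of degree at most three is less than the average required by
the inequality of Sidelnikov, Chabaud and Vaudenay.
-/

namespace Pool.Agent.Lib.MP_ea66ba_co

open Finset Matrix

variable {n : ℕ}

/-- sum over a flat given by four linear forms -/
def flat4 (g : (Fin n → ZMod 2) → ZMod 2) (p w1 w2 w3 w4 : Fin n → ZMod 2) : ℤ :=
  ∑ x, chi (g x + p ⬝ᵥ x) * ((1 - ((w1 ⬝ᵥ x).val : ℤ)) * (1 - ((w2 ⬝ᵥ x).val : ℤ)) *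
    (1 - ((w3 ⬝ᵥ x).val : ℤ)) * (1 - ((w4 ⬝ᵥ x).val : ℤ)))

lemma eight_eq (g : (Fin n → ZMod 2) → ZMod 2) (p a b c : Fin n → ZMod 2) :
    Wg g p + Wg g (p + a) + Wg g (p + b) + Wg g (p + c) + Wg g (p + a + b) + Wg g (p + a + c)
      + Wg g (p + b + c) + Wg g (p + a + b + c) =
    8 * ∑ x, chi (g x + p ⬝ᵥ x) * ((1 - ((a ⬝ᵥ x).val : ℤ)) * (1 - ((b ⬝ᵥ x).val : ℤ)) *
      (1 - ((c ⬝ᵥ x).val : ℤ))) := by
  rw [mul_sum]
  simp only [Wg, ← sum_add_distrib]
  refine sum_congr rfl fun x _ => ?_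
  simp only [add_dotProduct, chi_add, chi_eq (a ⬝ᵥ x), chi_eq (b ⬝ᵥ x), chi_eq (c ⬝ᵥ x)]
  ring

lemma half_sum (F : (Fin n → ZMod 2) → ℤ) (e w : Fin n → ZMod 2) (hw : w ⬝ᵥ e = 1)
    (hF : ∀ x, F (x + e) = F x) : ∑ x, F x = 2 * ∑ x, F x * (1 - ((w ⬝ᵥ x).val : ℤ)) := by
  have h1 : ∑ x, F x * ((w ⬝ᵥ x).val : ℤ) = ∑ x, F x * (1 - ((w ⬝ᵥ x).val : ℤ)) := by
    rw [← sum_shift (fun x => F x * ((w ⬝ᵥ x).val : ℤ)) e]
    refine sum_congr rfl fun x _ => ?_
    rw [hF, dotProduct_add, hw]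
    have : ∀ a : ZMod 2, ((a + 1).val : ℤ) = 1 - (a.val : ℤ) := by decide
    rw [this]
  have h2 : ∑ x, F x = ∑ x, F x * ((w ⬝ᵥ x).val : ℤ) +
      ∑ x, F x * (1 - ((w ⬝ᵥ x).val : ℤ)) := by
    rw [← sum_add_distrib]
    exact sum_congr rfl fun x _ => by ring
  rw [h2, h1]
  ring

/-- a function with linear structure cannot have all its coefficients on the hyperplane odd
multiples of `M` of size at most `3 * M`. -/
theorem no_full (j : ℕ) (hn : n = 2 * j) (g : (Fin n → ZMod 2) → ZMod 2)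
    (e w0 : Fin n → ZMod 2) (hw : w0 ⬝ᵥ e = 1) (δ : ZMod 2) (hδ : ∀ x, g (x + e) = g x + δ)
    (M : ℤ) (hM : 2 * M = 2 ^ j) (hM0 : 0 < M) (k : (Fin n → ZMod 2) → ℤ)
    (hk : ∀ u, Wg g u = M * k u)
    (hodd : ∀ u, e ⬝ᵥ u = δ → k u = 1 ∨ k u = -1 ∨ k u = 3 ∨ k u = -3)
    (hflat : ∀ p w1 w2 w3 w4, M ∣ 4 * flat4 g p w1 w2 w3 w4) : False := by
  have hN : (2 : ℤ) ^ n = 4 * M ^ 2 := by
    rw [hn, pow_mul, pow_right_comm, ← hM]
    ring
  have hew : e ⬝ᵥ w0 = 1 := by rw [dotProduct_comm]; exact hw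
  -- vanishing off the hyperplane
  have hW0 : ∀ u, e ⬝ᵥ u ≠ δ → Wg g u = 0 := by
    intro u hu
    have h1 : Wg g u = - Wg g u := by
      conv_lhs => rw [Wg, ← sum_shift _ e]
      rw [Wg, ← sum_neg_distrib]
      refine sum_congr rfl fun x _ => ?_
      rw [hδ, dotProduct_add]
      have h2 : g x + δ + (u ⬝ᵥ x + u ⬝ᵥ e) = (g x + u ⬝ᵥ x) + (δ + u ⬝ᵥ e) := by ring
      have h3 : δ + u ⬝ᵥ e = 1 := by
        rw [dotProduct_comm u e]
        have : ∀ a b : ZMod 2, a ≠ b → b + a = 1 := by decide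
        exact this _ _ hu
      rw [h2, h3, chi_add _ 1, chi_one]
      ring
    linarith
  -- projections
  set pr : (Fin n → ZMod 2) → (Fin n → ZMod 2) := fun u => u + (e ⬝ᵥ u + δ) • w0 with hpr
  set p0 : (Fin n → ZMod 2) → (Fin n → ZMod 2) := fun d => d + (e ⬝ᵥ d) • w0 with hp0
  have hpr1 : ∀ u, e ⬝ᵥ pr u = δ := by
    intro u
    simp only [hpr]
    rw [dotProduct_add, dotProduct_smul, hew, smul_eq_mul, mul_one]
    have : ∀ a b : ZMod 2, a + (a + b) = b := by decide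
    exact this _ _
  have hp01 : ∀ d, e ⬝ᵥ p0 d = 0 := by
    intro d
    simp only [hp0]
    rw [dotProduct_add, dotProduct_smul, hew, smul_eq_mul, mul_one]
    exact CharTwo.add_self_eq_zero _
  have hpr2 : ∀ u d, pr (u + d) = pr u + p0 d := by
    intro u d
    simp only [hpr, hp0]
    rw [dotProduct_add]
    have : e ⬝ᵥ u + e ⬝ᵥ d + δ = (e ⬝ᵥ u + δ) + e ⬝ᵥ d := by ring
    rw [this, add_smul]
    abel
  have hpr3 : ∀ u, e ⬝ᵥ u = δ → pr u = u := by
    intro u hu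
    simp only [hpr]
    rw [hu, CharTwo.add_self_eq_zero, zero_smul, add_zero]
  -- signs
  set σ : (Fin n → ZMod 2) → ZMod 2 := fun u => if k (pr u) % 4 = 1 then 0 else 1 with hσ
  have hσ1 : ∀ u, (4 : ℤ) ∣ k (pr u) - 1 - 2 * ((σ u).val : ℤ) := by
    intro u
    simp only [hσ]
    rcases hodd _ (hpr1 u) with h | h | h | h <;> rw [h] <;> norm_num [ZMod.val_one]
  have hσ2 : ∀ u, 2 * (chi (σ u) * k (pr u)) = 3 - k (pr u) ^ 2 := by
    intro u
    simp only [hσ]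
    rcases hodd _ (hpr1 u) with h | h | h | h <;> rw [h] <;> norm_num [chi_zero, chi_one]
  -- third differences
  have h3 : ∀ u a b c, σ u + σ (u + a) + σ (u + b) + σ (u + c) + σ (u + a + b) + σ (u + a + c)
      + σ (u + b + c) + σ (u + a + b + c) = 0 := by
    intro u a b c
    have hsum : (4 : ℤ) ∣ k (pr u) + k (pr (u + a)) + k (pr (u + b)) + k (pr (u + c))
        + k (pr (u + a + b)) + k (pr (u + a + c)) + k (pr (u + b + c))
        + k (pr (u + a + b + c)) := by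
      have h8 := eight_eq g (pr u) (p0 a) (p0 b) (p0 c)
      have hhalf := half_sum (fun x => chi (g x + pr u ⬝ᵥ x) *
        ((1 - ((p0 a ⬝ᵥ x).val : ℤ)) * (1 - ((p0 b ⬝ᵥ x).val : ℤ)) *
        (1 - ((p0 c ⬝ᵥ x).val : ℤ)))) e w0 hw (by
          intro x
          have q1 : ∀ d, p0 d ⬝ᵥ (x + e) = p0 d ⬝ᵥ x := by
            intro d
            rw [dotProduct_add, dotProduct_comm (p0 d) e, hp01, add_zero]
          have q2 : g (x + e) + pr u ⬝ᵥ (x + e) = g x + pr u ⬝ᵥ x := by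
            rw [hδ, dotProduct_add, dotProduct_comm (pr u) e, hpr1]
            have : ∀ a b c : ZMod 2, a + c + (b + c) = a + b := by decide
            exact this _ _ _
          simp only [q1, q2])
      rw [hhalf] at h8
      have hfl : ∑ x, chi (g x + pr u ⬝ᵥ x) *
        ((1 - ((p0 a ⬝ᵥ x).val : ℤ)) * (1 - ((p0 b ⬝ᵥ x).val : ℤ)) *
        (1 - ((p0 c ⬝ᵥ x).val : ℤ))) * (1 - ((w0 ⬝ᵥ x).val : ℤ)) =
          flat4 g (pr u) (p0 a) (p0 b) (p0 c) w0 := by
        rw [flat4]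
        exact sum_congr rfl fun x _ => by ring
      rw [hfl] at h8
      obtain ⟨t, ht⟩ := hflat (pr u) (p0 a) (p0 b) (p0 c) w0
      simp only [← hpr2, hk] at h8
      refine ⟨t, ?_⟩
      apply mul_left_cancel₀ hM0.ne'
      linear_combination h8 + 4 * ht
    have e0 := hσ1 u
    have e1 := hσ1 (u + a)
    have e2 := hσ1 (u + b)
    have e3 := hσ1 (u + c)
    have e4 := hσ1 (u + a + b)
    have e5 := hσ1 (u + a + c)
    have e6 := hσ1 (u + b + c)
    have e7 := hσ1 (u + a + b + c)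
    have hval : (2 : ℤ) ∣ ((σ u).val : ℤ) + ((σ (u + a)).val : ℤ) + ((σ (u + b)).val : ℤ)
        + ((σ (u + c)).val : ℤ) + ((σ (u + a + b)).val : ℤ) + ((σ (u + a + c)).val : ℤ)
        + ((σ (u + b + c)).val : ℤ) + ((σ (u + a + b + c)).val : ℤ) := by
      omega
    have hz := (ZMod.intCast_zmod_eq_zero_iff_dvd
      (((σ u).val : ℤ) + ((σ (u + a)).val : ℤ) + ((σ (u + b)).val : ℤ)
        + ((σ (u + c)).val : ℤ) + ((σ (u + a + b)).val : ℤ) + ((σ (u + a + c)).val : ℤ)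
        + ((σ (u + b + c)).val : ℤ) + ((σ (u + a + b + c)).val : ℤ)) 2).2 (by exact_mod_cast hval)
    push_cast at hz
    simpa using hz
  -- the radical
  have hinv : ∀ u, σ (u + w0) = σ u := by
    intro u
    have h1 : pr (u + w0) = pr u := by
      rw [hpr2]
      have h2 : p0 w0 = 0 := by
        simp only [hp0]
        rw [hew, one_smul, add_self_vec]
      rw [h2, add_zero]
    simp only [hσ, h1]
  have hwR : w0 ∈ Rad σ := by
    rw [mem_Rad]
    intro u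
    have h1 := hinv 0
    rw [zero_add] at h1
    rw [hinv u, h1]
    have : ∀ a b : ZMod 2, a + a = b + b := by decide
    exact this _ _
  have hw0 : w0 ≠ 0 := by
    rintro rfl
    rw [zero_dotProduct] at hw
    exact absurd hw (by decide)
  have hcorr := corr_bound σ h3 j hn w0 hw0 hwR g
  -- the sum
  have hpt : ∀ u, 4 * M * (chi (σ u) * Wg g u) =
      3 * M ^ 2 + 3 * M ^ 2 * chi δ * chi (u ⬝ᵥ e) - 2 * Wg g u ^ 2 := by
    intro u
    by_cases hu : e ⬝ᵥ u = δ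
    · have h1 := hσ2 u
      rw [hpr3 u hu] at h1
      rw [hk u, dotProduct_comm u e, hu]
      have h2 := chi_mul_self δ
      linear_combination (2 * M ^ 2) * h1 - (3 * M ^ 2) * h2
    · rw [hW0 u hu]
      have h1 : chi δ * chi (u ⬝ᵥ e) = -1 := by
        rw [← chi_add, dotProduct_comm u e]
        have : ∀ a b : ZMod 2, a ≠ b → b + a = 1 := by decide
        rw [this _ _ hu, chi_one]
      linear_combination - (3 * M ^ 2) * h1
  have hX : 4 * M * ∑ u, chi (σ u) * Wg g u = 3 * M ^ 2 * 2 ^ n - 2 * (2 ^ n * 2 ^ n) := by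
    rw [mul_sum]
    simp only [hpt, sum_add_distrib, sum_sub_distrib, ← mul_sum, sum_chi_dot, sum_Wg_sq]
    have he0 : e ≠ 0 := by
      rintro rfl
      rw [dotProduct_zero] at hw
      exact absurd hw (by decide)
    rw [if_neg he0, sum_const, nsmul_eq_mul, card_vec]
    ring
  rw [← hM] at hcorr
  have h4 : |4 * M * ∑ u, chi (σ u) * Wg g u| = 2 * (2 * M) * |∑ u, chi (σ u) * Wg g u| := by
    rw [abs_mul, abs_of_pos (by linarith : 0 < 4 * M)]
    ring
  rw [← h4, hX, hN] at hcorr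
  have h5 := (abs_le.1 hcorr).1
  have h6 : 0 < M ^ 2 * M ^ 2 := by positivity
  nlinarith

end Pool.Agent.Lib.MP_ea66ba_co
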