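import Mathlib
import Pool.Agent.Lib.MP_ea66ba_co.CubicComp

set_option autoImplicit false

/-!
Maps of degree at most three in 8, 10 and 12 variables.
-/

namespace Pool.Agent.Lib.MP_ea66ba_co

open Finset Matrix

variable {n : ℕ}

/-- energy of the autocorrelations of one component. -/
lemma energy_one (f : (Fin n → ZMod 2) → (Fin n → ZMod 2)) (b e : Fin n → ZMod 2) (κ : ZMod 2)
    (M : ℤ) (k : (Fin n → ZMod 2) → ℤ) (hk : ∀ u, W f b u = M * k u)
    (hb : ∀ u, |k u| ≤ 3) (hpar : ∀ u, ((k u : ℤ) : ZMod 2) = κ + e ⬝ᵥ u)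
    (hN : (2 : ℤ) ^ n = 4 * M ^ 2) :
    32 * ∑ t, AC f b t ^ 2 = 47 * (2 ^ n) ^ 2 - 24 * 2 ^ n * (chi κ * AC f b e)
      + 9 * (2 ^ n) ^ 2 * (if e = 0 then chi κ else 0) := by
  have h1 : ∀ u, 2 * W f b u ^ 4 = 14 * M ^ 2 * (W f b u ^ 2 * chi (u ⬝ᵥ (0 : Fin n → ZMod 2)))
      - 6 * M ^ 2 * chi κ * (W f b u ^ 2 * chi (u ⬝ᵥ e)) - 9 * M ^ 4
      + 9 * M ^ 4 * chi κ * chi (u ⬝ᵥ e) := by
    intro u
    have h2 := ptw _ (hb u)
    rw [hpar u, chi_add] at h2
    rw [hk u, dotProduct_zero, chi_zero, dotProduct_comm u]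
    linear_combination M ^ 4 * h2
  have h2 : ∑ u, 2 * W f b u ^ 4 = 14 * M ^ 2 * (2 ^ n * AC f b 0)
      - 6 * M ^ 2 * chi κ * (2 ^ n * AC f b e) - 2 ^ n * (9 * M ^ 4)
      + 9 * M ^ 4 * chi κ * (if e = 0 then 2 ^ n else 0) := by
    simp only [h1, sum_add_distrib, sum_sub_distrib, ← mul_sum, sum_W_sq, sum_chi_dot]
    rw [sum_const, nsmul_eq_mul, card_vec]
    ring
  have h3 := sum_AC_sq f b
  have h2' : ∑ u, 2 * W f b u ^ 4 = 2 * ∑ u, W f b u ^ 4 := by rw [mul_sum]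
  rw [h2', ← h3, AC_zero_right] at h2
  have h2Z : chi κ * (if e = 0 then (2 : ℤ) ^ n else 0) = 2 ^ n * (if e = 0 then chi κ else 0) := by
    split_ifs
    · ring
    · ring
  have h2T : chi κ * (2 ^ n * AC f b e) = 2 ^ n * (chi κ * AC f b e) := by ring
  have h4 : (0 : ℤ) < 2 ^ n := by positivity
  have h5 : (2 : ℤ) ^ n ≠ 0 := h4.ne'
  apply mul_left_cancel₀ h5
  rw [mul_assoc (6 * M ^ 2), h2T, mul_assoc (9 * M ^ 4), h2Z] at h2
  generalize chi κ * AC f b e = A at h2 ⊢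
  generalize (if e = 0 then chi κ else 0) = C at h2 ⊢
  generalize ∑ e, AC f b e ^ 2 = B at h2 ⊢
  have h7 : (2 : ℤ) ^ n * (32 * B) = 16 * (2 * (2 ^ n * B)) := by ring
  rw [h7, h2]
  have h8 : M ^ 4 = M ^ 2 * M ^ 2 := by ring
  rw [h8]
  have h9 : 4 * M ^ 2 = 2 ^ n := hN.symm
  generalize (2 : ℤ) ^ n = N at *
  have h10 : 16 * (14 * M ^ 2 * (N * N) - 6 * M ^ 2 * (N * A) - N * (9 * (M ^ 2 * M ^ 2))
      + 9 * (M ^ 2 * M ^ 2) * (N * C)) =
      56 * (4 * M ^ 2) * (N * N) - 24 * (4 * M ^ 2) * (N * A)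
        - 9 * N * ((4 * M ^ 2) * (4 * M ^ 2)) + 9 * N * C * ((4 * M ^ 2) * (4 * M ^ 2)) := by ring
  rw [h10, h9]
  ring

/-- the energy of a component of degree at most three is less than the required average. -/
theorem comp_lt (j : ℕ) (hn : n = 2 * j) (f : (Fin n → ZMod 2) → (Fin n → ZMod 2))
    (b e : Fin n → ZMod 2) (κ : ZMod 2)
    (M : ℤ) (hM : 2 * M = 2 ^ j) (hM0 : 0 < M)
    (hdeg : IsDeg 3 (fun v => b ⬝ᵥ f v)) (k : (Fin n → ZMod 2) → ℤ)
    (hk : ∀ u, W f b u = M * k u) (hb : ∀ u, |k u| ≤ 3)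
    (hpar : ∀ u, ((k u : ℤ) : ZMod 2) = κ + e ⬝ᵥ u)
    (hflat : ∀ p w1 w2 w3 w4, M ∣ 4 * flat4 (fun v => b ⬝ᵥ f v) p w1 w2 w3 w4) :
    ∑ t, AC f b t ^ 2 < 2 * (2 ^ n) ^ 2 := by
  have hN : (2 : ℤ) ^ n = 4 * M ^ 2 := by
    rw [hn, pow_mul, pow_right_comm, ← hM]
    ring
  have hen := energy_one f b e κ M k hk hb hpar hN
  have hN0 : (0 : ℤ) < 2 ^ n := by positivity
  by_cases he : e = 0
  · rw [if_pos he, he, AC_zero_right] at hen
    generalize ∑ t, AC f b t ^ 2 = B at hen ⊢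
    generalize (2 : ℤ) ^ n = N at hen hN0 ⊢
    rcases chi_cases κ with h | h <;> rw [h] at hen <;> nlinarith
  · rw [if_neg he] at hen
    obtain ⟨i, hi⟩ : ∃ i, e i ≠ 0 := by
      by_contra hcon
      push Not at hcon
      exact he (funext hcon)
    have hi1 : e i = 1 := by
      have : ∀ a : ZMod 2, a ≠ 0 → a = 1 := by decide
      exact this _ hi
    have hw : (Pi.single i 1 : Fin n → ZMod 2) ⬝ᵥ e = 1 := by
      rw [single_dotProduct, one_mul, hi1]
    have hQ := hdeg.deriv e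
    have hAC : AC f b e = ∑ v, chi (b ⬝ᵥ f v + b ⬝ᵥ f (v + e)) := by
      rw [AC]
      exact sum_congr rfl fun v _ => by rw [dotProduct_add]
    have key : ∀ δ : ZMod 2, (∀ v, b ⬝ᵥ f v + b ⬝ᵥ f (v + e) = δ) → κ + δ = 0 := by
      intro δ hδ
      by_contra hne
      have h1 : κ + δ = 1 := by
        have : ∀ a : ZMod 2, a ≠ 0 → a = 1 := by decide
        exact this _ hne
      refine no_full j hn (fun v => b ⬝ᵥ f v) e (Pi.single i 1) hw δ ?_ M hM hM0 k hk ?_ hflat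
      · intro x
        have h2 := hδ x
        have : ∀ a b c : ZMod 2, a + b = c → b = a + c := by decide
        exact this _ _ _ h2
      · intro u hu
        have h2 := hpar u
        rw [hu, h1] at h2
        have h3 := hb u
        rw [abs_le] at h3
        obtain ⟨h4, h5⟩ := h3
        have h6 : ¬ (2 : ℤ) ∣ k u := by
          intro h7
          have h8 := (ZMod.intCast_zmod_eq_zero_iff_dvd (k u) 2).2 (by exact_mod_cast h7)
          rw [h8] at h2
          exact absurd h2 (by decide)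
        omega
    have hACc : ∀ δ : ZMod 2, (∀ v, b ⬝ᵥ f v + b ⬝ᵥ f (v + e) = δ) →
        chi κ * AC f b e = 2 ^ n := by
      intro δ hδ
      have h1 := key δ hδ
      rw [hAC]
      simp only [hδ]
      rw [sum_const, nsmul_eq_mul, card_vec]
      have h2 : chi κ * chi δ = 1 := by rw [← chi_add, h1, chi_zero]
      linear_combination (2 ^ n) * h2
    have hT : - (chi κ * AC f b e) * 2 ≤ 2 ^ n := by
      rcases quad_gap _ hQ with h | h | h
      · rw [hACc 0 h]
        linarith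
      · rw [hACc 1 h]
        linarith
      · rw [← hAC] at h
        have h1 := neg_abs_le (AC f b e)
        have h2 := le_abs_self (AC f b e)
        rcases chi_cases κ with h' | h' <;> rw [h'] <;> linarith
    generalize ∑ t, AC f b t ^ 2 = B at hen ⊢
    generalize chi κ * AC f b e = T at hen hT ⊢
    generalize (2 : ℤ) ^ n = N at hen hN0 hT ⊢
    nlinarith

/-- the general theorem. -/
theorem cubic_general (j : ℕ) (hn : n = 2 * j) (r : ℤ) (hr : 8 * r = 2 ^ j)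
    (f : (Fin n → ZMod 2) → (Fin n → ZMod 2)) (hf : ∀ b, IsDeg 3 (fun v => b ⬝ᵥ f v))
    (hg : ∀ b, 2 * r ∣ wt (fun v => b ⬝ᵥ f v)) (hc : ∀ b u u', r ∣ cnt3 f b u u')
    (hfl : ∀ b p w1 w2 w3 w4, r ∣ flat4 (fun v => b ⬝ᵥ f v) p w1 w2 w3 w4) :
    ∃ b, b ≠ 0 ∧ ∃ u, 16 * r ≤ |W f b u| := by
  by_contra hcon
  push Not at hcon
  have hr0 : 0 < r := by
    have : (0 : ℤ) < 2 ^ j := by positivity
    linarith
  have hN : (2 : ℤ) ^ n = 64 * r ^ 2 := by
    rw [hn, pow_mul, pow_right_comm, ← hr]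
    ring
  have hlt : ∀ b, b ≠ 0 → ∑ t, AC f b t ^ 2 < 2 * (2 ^ n) ^ 2 := by
    intro b hb
    obtain ⟨a, ha⟩ := hg b
    have hcr : ∀ u, r ∣ wt (fun v => (b ⬝ᵥ f v) * (u ⬝ᵥ v)) := by
      intro u
      rw [cnt_eq]
      exact hc b u u
    obtain ⟨e, he⟩ := exists_dot
      (fun u => ((wt (fun v => (b ⬝ᵥ f v) * (u ⬝ᵥ v)) / r : ℤ) : ZMod 2))
      (fun u u' => parity_step r _ _ _ _ hr0.ne' (hcr u) (hcr u') (hc b u u')
        (cnt_add f b u u'))
    have hk : ∀ u, ∃ k : ℤ, W f b u = (4 * r) * k ∧ ((k : ℤ) : ZMod 2) = (a : ZMod 2) + e ⬝ᵥ u := by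
      intro u
      obtain ⟨c, hc'⟩ := hcr u
      have h1 : W f b u = 2 ^ n - 2 * wt (fun v => b ⬝ᵥ f v + u ⬝ᵥ v) :=
        sum_chi_eq (fun v => b ⬝ᵥ f v + u ⬝ᵥ v)
      have h3 := wt_comp (Equiv.refl _) u
      simp only [Equiv.refl_apply] at h3
      have h5 : (if u = 0 then (2 : ℤ) ^ n else 0) = 64 * r ^ 2 * (if u = 0 then 1 else 0) := by
        split_ifs
        · rw [hN]; ring
        · ring
      rw [wt_add, ha, hc'] at h1
      refine ⟨2 * (8 * r * (if u = 0 then 1 else 0) - a) + a + c, ?_, ?_⟩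
      · rw [h1]
        rw [h5, hN] at h3
        rw [hN]
        linear_combination -h3
      · rw [← he u, hc', Int.mul_ediv_cancel_left _ hr0.ne', Int.cast_add, Int.cast_add,
          Int.cast_mul]
        have : ((2 : ℤ) : ZMod 2) = 0 := by decide
        rw [this, zero_mul, zero_add]
    choose k hk1 hk2 using hk
    refine comp_lt j hn f b e (a : ZMod 2) (4 * r) (by linarith) (by linarith) (hf b) k hk1 ?_
      hk2 ?_
    · intro u
      have h1 := hcon b hb u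
      rw [hk1 u, abs_mul, abs_of_pos (by linarith : (0 : ℤ) < 4 * r)] at h1
      have h2 : |k u| < 4 := by nlinarith
      omega
    · intro p w1 w2 w3 w4
      exact mul_dvd_mul_left 4 (hfl b p w1 w2 w3 w4)
  have hm := moment f
  have hne : (univ.erase (0 : Fin n → ZMod 2)).Nonempty := by
    have hj : 3 ≤ j := by
      by_contra hcon2
      have hj2 : j ≤ 2 := by omega
      interval_cases j <;> omega
    rw [← card_pos, card_erase_of_mem (mem_univ _), card_univ]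
    have h1 : Fintype.card (Fin n → ZMod 2) = 2 ^ n := by simp
    rw [h1, hn]
    have h2 : 2 ^ 6 ≤ 2 ^ (2 * j) := Nat.pow_le_pow_right (by norm_num) (by omega)
    omega
  have h1 : ∑ b ∈ univ.erase (0 : Fin n → ZMod 2), ∑ t, AC f b t ^ 2 <
      ∑ b ∈ univ.erase (0 : Fin n → ZMod 2), (2 * (2 ^ n) ^ 2 : ℤ) :=
    sum_lt_sum_of_nonempty hne fun b hb => hlt b (ne_of_mem_erase hb)
  rw [sum_const, nsmul_eq_mul, card_erase_vec] at h1
  linarith

/-- divisibility for mixed products -/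
lemma wt_mixed (k : ℕ) (h : (Fin n → ZMod 2) → ZMod 2) (N : ℕ)
    (H : ∀ vs : List (Fin n → ZMod 2), vs.length ≤ N → (2 : ℤ) ^ k ∣ wt (fun v => h v * lprod vs v))
    (ws' : List (Fin n → ZMod 2)) : ∀ ws : List (Fin n → ZMod 2), ws.length + ws'.length ≤ N →
    (2 : ℤ) ^ k ∣ ∑ v, ((h v * lprod ws v).val : ℤ) *
      (ws'.map fun w => 1 - ((w ⬝ᵥ v).val : ℤ)).prod := by
  induction ws' with
  | nil =>
    intro ws hws
    have h1 : ∑ v, ((h v * lprod ws v).val : ℤ) *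
        (([] : List (Fin n → ZMod 2)).map fun w => 1 - ((w ⬝ᵥ v).val : ℤ)).prod =
        wt (fun v => h v * lprod ws v) := by
      rw [wt]
      exact sum_congr rfl fun v _ => by rw [List.map_nil, List.prod_nil, mul_one]
    rw [h1]
    exact H ws (by simpa using hws)
  | cons w ws' ih =>
    intro ws hws
    rw [List.length_cons] at hws
    have h1 : ∑ v, ((h v * lprod ws v).val : ℤ) *
        ((w :: ws').map fun w => 1 - ((w ⬝ᵥ v).val : ℤ)).prod =
        ∑ v, ((h v * lprod ws v).val : ℤ) * (ws'.map fun w => 1 - ((w ⬝ᵥ v).val : ℤ)).prod -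
        ∑ v, ((h v * lprod (w :: ws) v).val : ℤ) *
          (ws'.map fun w => 1 - ((w ⬝ᵥ v).val : ℤ)).prod := by
      rw [← sum_sub_distrib]
      refine sum_congr rfl fun v _ => ?_
      rw [List.map_cons, List.prod_cons]
      have h2 : lprod (w :: ws) v = (w ⬝ᵥ v) * lprod ws v := by simp [lprod]
      have h3 : ∀ a b c : ZMod 2, ((a * (c * b)).val : ℤ) = ((a * b).val : ℤ) * (c.val : ℤ) := by
        decide
      rw [h2, h3]
      ring
    rw [h1]
    refine dvd_sub (ih ws (by omega)) (ih (w :: ws) ?_)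
    rw [List.length_cons]
    omega

/-- divisibility of the sums over flats for functions of degree at most three. -/
lemma flat4_dvd (k : ℕ) (hk : 3 * k + 4 < n) (g : (Fin n → ZMod 2) → ZMod 2) (hg : IsDeg 3 g)
    (p w1 w2 w3 w4 : Fin n → ZMod 2) : (2 : ℤ) ^ (k + 1) ∣ flat4 g p w1 w2 w3 w4 := by
  have h1 : flat4 g p w1 w2 w3 w4 =
      ∑ v, (((1 : ZMod 2) * lprod [] v).val : ℤ) *
        (([w1, w2, w3, w4] : List (Fin n → ZMod 2)).map fun w => 1 - ((w ⬝ᵥ v).val : ℤ)).prod -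
      2 * ∑ v, (((g v + p ⬝ᵥ v) * lprod [] v).val : ℤ) *
        (([w1, w2, w3, w4] : List (Fin n → ZMod 2)).map fun w => 1 - ((w ⬝ᵥ v).val : ℤ)).prod := by
    rw [flat4, mul_sum, ← sum_sub_distrib]
    refine sum_congr rfl fun v _ => ?_
    simp only [lprod, List.map_nil, List.prod_nil, mul_one, List.map_cons, List.prod_cons,
      ZMod.val_one]
    rw [chi_eq]
    push_cast
    ring
  rw [h1]
  refine dvd_sub ?_ ?_
  · refine wt_mixed (k + 1) (fun _ => 1) 4 ?_ _ _ (by simp)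
    intro vs hvs
    have h2 : (fun v : Fin n → ZMod 2 => (1 : ZMod 2) * lprod vs v) = fun v => lprod vs v := by
      funext v
      rw [one_mul]
    rw [h2]
    exact lprod_dvd vs (k + 1) (by omega)
  · rw [pow_succ, mul_comm ((2 : ℤ) ^ k)]
    refine mul_dvd_mul_left 2 ?_
    refine wt_mixed k (fun v => g v + p ⬝ᵥ v) 4 ?_ _ _ (by simp)
    intro vs hvs
    refine mceliece 3 (by norm_num) k vs (by omega) _ ?_
    exact hg.add ((IsDeg.lin p).mono (by norm_num))

lemma wt_deg_dvd (k : ℕ) (hk : 3 * k < n) (g : (Fin n → ZMod 2) → ZMod 2) (hg : IsDeg 3 g) :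
    (2 : ℤ) ^ k ∣ wt g := by
  have h := mceliece 3 (by norm_num) k [] (by simpa [mul_comm] using hk) g hg
  simpa [lprod] using h

lemma cnt3_deg_dvd (k : ℕ) (hk : 3 * k + 2 < n) (f : (Fin n → ZMod 2) → (Fin n → ZMod 2))
    (b u u' : Fin n → ZMod 2) (hg : IsDeg 3 (fun v => b ⬝ᵥ f v)) :
    (2 : ℤ) ^ k ∣ cnt3 f b u u' := by
  have h1 : cnt3 f b u u' = wt (fun v => (b ⬝ᵥ f v) * lprod [u, u'] v) := by
    rw [cnt3]
    congr 1
    funext v
    simp [lprod, mul_assoc]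
  rw [h1]
  exact mceliece 3 (by norm_num) k [u, u'] (by simpa [mul_comm] using hk) _ hg

/-- eight variables. -/
theorem cubic8 (f : (Fin 8 → ZMod 2) → (Fin 8 → ZMod 2))
    (hf : ∀ i, IsDeg 3 (fun v => f v i)) : ∃ b, b ≠ 0 ∧ ∃ u, (32 : ℤ) ≤ |W f b u| := by
  have hb := IsDeg.comb f hf
  have h := cubic_general (n := 8) 4 rfl 2 (by norm_num) f hb
    (fun b => by
      have := wt_deg_dvd 2 (by norm_num) _ (hb b)
      norm_num at this ⊢
      exact this)
    (fun b u u' => by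
      have := cnt3_deg_dvd 1 (by norm_num) f b u u' (hb b)
      norm_num at this ⊢
      exact this)
    (fun b p w1 w2 w3 w4 => by
      have := flat4_dvd 1 (by norm_num) _ (hb b) p w1 w2 w3 w4
      norm_num at this ⊢
      exact dvd_trans (by norm_num) this)
  norm_num at h
  exact h

/-- ten variables. -/
theorem cubic10 (f : (Fin 10 → ZMod 2) → (Fin 10 → ZMod 2))
    (hf : ∀ i, IsDeg 3 (fun v => f v i)) : ∃ b, b ≠ 0 ∧ ∃ u, (64 : ℤ) ≤ |W f b u| := by
  have hb := IsDeg.comb f hf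
  have h := cubic_general (n := 10) 5 rfl 4 (by norm_num) f hb
    (fun b => by
      have := wt_deg_dvd 3 (by norm_num) _ (hb b)
      norm_num at this ⊢
      exact this)
    (fun b u u' => by
      have := cnt3_deg_dvd 2 (by norm_num) f b u u' (hb b)
      norm_num at this ⊢
      exact this)
    (fun b p w1 w2 w3 w4 => by
      have := flat4_dvd 1 (by norm_num) _ (hb b) p w1 w2 w3 w4
      norm_num at this ⊢
      exact this)
  norm_num at h
  exact h

/-- twelve variables, weights divisible by sixteen. -/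
theorem cubic12 (f : (Fin 12 → ZMod 2) → (Fin 12 → ZMod 2))
    (hf : ∀ i, IsDeg 3 (fun v => f v i)) (hw : ∀ b, (16 : ℤ) ∣ wt (fun v => b ⬝ᵥ f v)) :
    ∃ b, b ≠ 0 ∧ ∃ u, (128 : ℤ) ≤ |W f b u| := by
  have hb := IsDeg.comb f hf
  have h := cubic_general (n := 12) 6 rfl 8 (by norm_num) f hb
    (fun b => by
      have := hw b
      norm_num at this ⊢
      exact this)
    (fun b u u' => by
      have := cnt3_deg_dvd 3 (by norm_num) f b u u' (hb b)
      norm_num at this ⊢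
      exact this)
    (fun b p w1 w2 w3 w4 => by
      have := flat4_dvd 2 (by norm_num) _ (hb b) p w1 w2 w3 w4
      norm_num at this ⊢
      exact this)
  norm_num at h
  exact h

end Pool.Agent.Lib.MP_ea66ba_co
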