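import Mathlib
import Pool.Agent.Lib.MP_ea66ba_co.Parity

set_option autoImplicit false

namespace Pool.Agent.Lib.MP_ea66ba_co

open Finset Matrix

lemma card_erase63 : (univ.erase (0 : Fin 6 → ZMod 2)).card = 63 := by
  rw [card_erase_of_mem (mem_univ _), card_univ]
  simp

/-- fourth moment over the nonzero components. -/
lemma fourth_moment (f : (Fin 6 → ZMod 2) → (Fin 6 → ZMod 2)) :
    33030144 ≤ ∑ b ∈ univ.erase (0 : Fin 6 → ZMod 2), ∑ u, W f b u ^ 4 := by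
  have h0 : ∑ b ∈ univ.erase (0 : Fin 6 → ZMod 2), ∑ u, W f b u ^ 4 =
      64 * ∑ b ∈ univ.erase (0 : Fin 6 → ZMod 2), ∑ e, AC f b e ^ 2 := by
    rw [mul_sum]
    refine sum_congr rfl fun b _ => ?_
    rw [← sum_AC_sq]
    norm_num
  have h2 : ∑ b : Fin 6 → ZMod 2, ∑ e, AC f b e ^ 2 =
      64 * 4096 + ∑ b ∈ univ.erase (0 : Fin 6 → ZMod 2), ∑ e, AC f b e ^ 2 := by
    rw [← add_sum_erase univ _ (mem_univ (0 : Fin 6 → ZMod 2))]
    congr 1
    simp [AC_zero_left]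
  have h3 : ∑ b : Fin 6 → ZMod 2, ∑ e, AC f b e ^ 2 =
      64 * 4096 + ∑ e ∈ univ.erase (0 : Fin 6 → ZMod 2), ∑ b, AC f b e ^ 2 := by
    rw [sum_comm, ← add_sum_erase univ _ (mem_univ (0 : Fin 6 → ZMod 2))]
    congr 1
    simp [AC_zero_right]
  have h4 : ∑ e ∈ univ.erase (0 : Fin 6 → ZMod 2), (8192 : ℤ) ≤
      ∑ e ∈ univ.erase (0 : Fin 6 → ZMod 2), ∑ b, AC f b e ^ 2 := by
    refine sum_le_sum fun e he => ?_
    have := sum_b_AC_sq f e (ne_of_mem_erase he)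
    norm_num at this ⊢
    exact this
  rw [sum_const, card_erase63] at h4
  simp only [nsmul_eq_mul] at h4
  push_cast at h4
  rw [h0]
  linarith

lemma sum_W_sq_eq (f : (Fin 6 → ZMod 2) → (Fin 6 → ZMod 2)) (b : Fin 6 → ZMod 2) :
    ∑ u, W f b u ^ 2 = 4096 := by
  have := sum_W_sq f b 0
  simp only [dotProduct_zero, chi_zero, mul_one, AC_zero_right] at this
  rw [this]
  norm_num

/-- residue of the Walsh values modulo 4. -/
lemma W_mod (f : (Fin 6 → ZMod 2) → (Fin 6 → ZMod 2)) (b u : Fin 6 → ZMod 2) :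
    ∃ k : ℤ, W f b u = 4 * k - 2 * ((b ⬝ᵥ ∑ v, f v).val : ℤ) := by
  have h1 : W f b u = 2 ^ 6 - 2 * ((∑ v, (b ⬝ᵥ f v + u ⬝ᵥ v).val : ℕ) : ℤ) := by
    simp only [W, chi_eq, sum_sub_distrib, ← mul_sum]
    push_cast
    simp
  have h2 : ((∑ v : Fin 6 → ZMod 2, (b ⬝ᵥ f v + u ⬝ᵥ v).val : ℕ) : ZMod 2) =
      ((b ⬝ᵥ ∑ v, f v).val : ℕ) := by
    push_cast
    simp only [ZMod.natCast_val, ZMod.cast_id', id_eq]
    rw [sum_add_distrib, ← dotProduct_sum, ← dotProduct_sum, sum_all_vec (by norm_num)]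
    simp
  rw [ZMod.natCast_eq_natCast_iff'] at h2
  have h3 : (b ⬝ᵥ ∑ v, f v).val < 2 := ZMod.val_lt _
  rw [h1]
  refine ⟨16 - (((∑ v, (b ⬝ᵥ f v + u ⬝ᵥ v).val : ℕ) : ℤ) - ((b ⬝ᵥ ∑ v, f v).val : ℤ)) / 2, ?_⟩
  omega

lemma sum_fourth_even (f : (Fin 6 → ZMod 2) → (Fin 6 → ZMod 2)) (b : Fin 6 → ZMod 2)
    (h : ∀ u, |W f b u| < 14) : ∑ u, W f b u ^ 4 ≤ 589824 := by
  have h1 : ∀ u, W f b u ^ 4 ≤ 144 * W f b u ^ 2 := by
    intro u
    obtain ⟨k, hk⟩ := W_mod f b u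
    have h2 := h u
    rw [abs_lt] at h2
    have h3 : W f b u ^ 2 ≤ 144 := by
      have h4 : -12 ≤ W f b u := by omega
      have h5 : W f b u ≤ 12 := by omega
      nlinarith
    nlinarith [sq_nonneg (W f b u)]
  calc ∑ u, W f b u ^ 4 ≤ ∑ u, 144 * W f b u ^ 2 := sum_le_sum fun u _ => h1 u
    _ = 589824 := by rw [← mul_sum, sum_W_sq_eq]; norm_num

lemma sum_fourth_odd (f : (Fin 6 → ZMod 2) → (Fin 6 → ZMod 2)) (b : Fin 6 → ZMod 2)
    (hb : b ⬝ᵥ ∑ v, f v = 1) (h : ∀ u, |W f b u| < 14) : ∑ u, W f b u ^ 4 ≤ 400384 := by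
  have h1 : ∀ u, W f b u ^ 4 ≤ 104 * W f b u ^ 2 - 400 := by
    intro u
    obtain ⟨k, hk⟩ := W_mod f b u
    rw [hb, ZMod.val_one] at hk
    have h2 := h u
    rw [abs_lt] at h2
    have h4 : -2 ≤ k := by omega
    have h5 : k ≤ 3 := by omega
    rw [hk]
    interval_cases k <;> norm_num
  calc ∑ u, W f b u ^ 4 ≤ ∑ u, (104 * W f b u ^ 2 - 400) := sum_le_sum fun u _ => h1 u
    _ = 400384 := by rw [sum_sub_distrib, ← mul_sum, sum_W_sq_eq]; simp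

/-- for a function with nonzero sum the linearity is at least 14. -/
theorem fourteen (f : (Fin 6 → ZMod 2) → (Fin 6 → ZMod 2)) (hf : ∑ v, f v ≠ 0) :
    ∃ b, b ≠ 0 ∧ ∃ u, 14 ≤ |W f b u| := by
  by_contra hcon
  push Not at hcon
  have hm := fourth_moment f
  set F := ∑ v, f v with hF
  have hsum : ∑ b ∈ univ.erase (0 : Fin 6 → ZMod 2), ∑ u, W f b u ^ 4 ≤
      ∑ b ∈ univ.erase (0 : Fin 6 → ZMod 2), (495104 + 94720 * chi (b ⬝ᵥ F)) := by
    refine sum_le_sum fun b hb => ?_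
    have hb0 := ne_of_mem_erase hb
    have hz : ∀ z : ZMod 2, z = 0 ∨ z = 1 := by decide
    rcases hz (b ⬝ᵥ F) with h | h
    · rw [h, chi_zero]
      exact (sum_fourth_even f b (hcon b hb0)).trans (by norm_num)
    · rw [h, chi_one]
      exact (sum_fourth_odd f b h (hcon b hb0)).trans (by norm_num)
  have h5 : ∑ b ∈ univ.erase (0 : Fin 6 → ZMod 2), chi (b ⬝ᵥ F) = -1 := by
    have := sum_chi_dot F
    rw [if_neg hf, ← add_sum_erase univ _ (mem_univ (0 : Fin 6 → ZMod 2)), zero_dotProduct,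
      chi_zero] at this
    linarith
  rw [sum_add_distrib, ← mul_sum, h5, sum_const, card_erase63, nsmul_eq_mul] at hsum
  push_cast at hsum
  linarith

end Pool.Agent.Lib.MP_ea66ba_co
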