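import Mathlib
import Pool.Agent.Lib.MP_ea66ba_co.McEliece

set_option autoImplicit false

/-!
Linearity of permutations of small degree with inverse of small degree, and of cubic maps in
eight variables.
-/

namespace Pool.Agent.Lib.MP_ea66ba_co

open Finset Matrix

/-- `DegreeLE d f`: every coordinate of the map `f` is the function of a polynomial of total
degree at most `d` over the field with two elements. -/
def DegreeLE {n : ℕ} (d : ℕ) (f : (Fin n → ZMod 2) → (Fin n → ZMod 2)) : Prop :=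
  ∀ i, ∃ p : MvPolynomial (Fin n) (ZMod 2), p.totalDegree ≤ d ∧
    ∀ v, f v i = MvPolynomial.eval v p

variable {n : ℕ}

lemma pow_sixtyfour (m : ℕ) (hm : 3 ≤ m) : (2 : ℤ) ^ (2 * m) = 64 * ((2 : ℤ) ^ (m - 3)) ^ 2 := by
  obtain ⟨j, rfl⟩ : ∃ j, m = j + 3 := ⟨m - 3, by omega⟩
  rw [Nat.add_sub_cancel, ← pow_mul, show 2 * (j + 3) = j * 2 + 6 by ring, pow_add]
  norm_num
  ring

lemma pow_sixteen (m : ℕ) (hm : 3 ≤ m) : 16 * (2 : ℤ) ^ (m - 3) = 2 ^ (m + 1) := by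
  obtain ⟨j, rfl⟩ : ∃ j, m = j + 3 := ⟨m - 3, by omega⟩
  rw [Nat.add_sub_cancel, show j + 3 + 1 = 4 + j by ring, pow_add]
  norm_num

/-- the criterion in the dimension `2 * m`. -/
theorem perm_criterion (m : ℕ) (hm : 3 ≤ m) (f : Equiv.Perm (Fin (2 * m) → ZMod 2))
    (H1 : ∀ b u u', (2 : ℤ) ^ (m - 3) ∣ cnt3 f b u u')
    (H2 : ∀ b u u', (2 : ℤ) ^ (m - 3) ∣ cnt3 f.symm b u u') :
    ∃ b, b ≠ 0 ∧ ∃ u, (2 : ℤ) ^ (m + 1) ≤ |W f b u| := by
  have h := crit f ((2 : ℤ) ^ (m - 3)) (one_le_pow₀ (by norm_num)) (pow_sixtyfour m hm) H1 H2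
  rw [pow_sixteen m hm] at h
  exact h

lemma cnt3_dvd (k d : ℕ) (g : (Fin n → ZMod 2) → (Fin n → ZMod 2)) (hg : DegreeLE d g)
    (h : k * d + 2 < n) (hk : k < n - 2) (b u u' : Fin n → ZMod 2) :
    (2 : ℤ) ^ k ∣ cnt3 g b u u' := by
  have h1 : cnt3 g b u u' = wt (fun v => (b ⬝ᵥ g v) * lprod [u, u'] v) := by
    rw [cnt3]
    congr 1
    funext v
    simp [lprod, mul_assoc]
  rw [h1]
  have h2 := IsDeg.comb g hg b
  rcases Nat.eq_zero_or_pos d with h0 | h0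
  · subst h0
    have h3 : IsDeg 1 (fun v => b ⬝ᵥ g v) := by
      obtain ⟨p, hp, hp'⟩ := h2
      exact ⟨p, hp.trans (by norm_num), hp'⟩
    refine mceliece 1 le_rfl k [u, u'] ?_ _ h3
    simp only [List.length_cons, List.length_nil]
    omega
  · refine mceliece d h0 k [u, u'] ?_ _ h2
    simpa using h

/-- permutations of small degree with inverse of small degree. -/
theorem perm_degree (m d : ℕ) (hm : 3 ≤ m) (hd : (m - 3) * d + 2 < 2 * m)
    (f : Equiv.Perm (Fin (2 * m) → ZMod 2)) (hf : DegreeLE d f) (hg : DegreeLE d f.symm) :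
    ∃ b, b ≠ 0 ∧ ∃ u, (2 : ℤ) ^ (m + 1) ≤ |W f b u| :=
  perm_criterion m hm f (cnt3_dvd (m - 3) d f hf hd (by omega))
    (cnt3_dvd (m - 3) d f.symm hg hd (by omega))

/-- the fourth moment of a component of a cubic map in eight variables with small linearity. -/
lemma cubic_component (f : (Fin 8 → ZMod 2) → (Fin 8 → ZMod 2)) (hf : DegreeLE 3 f)
    (b : Fin 8 → ZMod 2) (hb : ∀ u, |W f b u| < 32) : ∑ u, W f b u ^ 4 ≤ 32505856 := by
  have h1 : ∀ u, W f b u = 256 - 2 * wt (fun v => b ⬝ᵥ f v + u ⬝ᵥ v) := by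
    intro u
    have := sum_chi_eq (fun v => b ⬝ᵥ f v + u ⬝ᵥ v)
    norm_num at this
    exact this
  have hdeg := IsDeg.comb f hf b
  have h2 : (4 : ℤ) ∣ wt (fun v => b ⬝ᵥ f v) := by
    have := mceliece 3 (by norm_num) 2 [] (by norm_num) _ hdeg
    simpa [lprod] using this
  have h3 : ∀ u : Fin 8 → ZMod 2, (4 : ℤ) ∣ wt (fun v => (b ⬝ᵥ f v) * (u ⬝ᵥ v)) := by
    intro u
    have := mceliece 3 (by norm_num) 2 [u] (by norm_num) _ hdeg
    simpa [lprod] using this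
  have h4 : ∀ u : Fin 8 → ZMod 2, (8 : ℤ) ∣ wt (fun v : Fin 8 → ZMod 2 => u ⬝ᵥ v) := by
    intro u
    have := lprod_dvd [u] 3 (by simp)
    simpa [lprod] using this
  have h5 : ∃ s : ℤ, ∀ u, ∃ k : ℤ, W f b u = 8 * (2 * k + s) := by
    obtain ⟨s, hs⟩ := h2
    refine ⟨s, fun u => ?_⟩
    obtain ⟨x, hx⟩ := h3 u
    obtain ⟨y, hy⟩ := h4 u
    rw [h1, wt_add, hs, hx, hy]
    exact ⟨16 - y + x - s, by ring⟩
  obtain ⟨s, hs⟩ := h5
  have h6 : ∑ u, W f b u ^ 2 = 65536 := by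
    rw [sum_W_sq_all]
    norm_num
  rcases Int.even_or_odd' s with ⟨t, ht | ht⟩
  · have h8 : ∀ u, W f b u ^ 4 ≤ 256 * W f b u ^ 2 := by
      intro u
      obtain ⟨k, hk⟩ := hs u
      have h9 := hb u
      rw [abs_lt] at h9
      have h10 : W f b u ^ 2 ≤ 256 := by
        have h11 : -16 ≤ W f b u := by omega
        have h12 : W f b u ≤ 16 := by omega
        nlinarith
      nlinarith [sq_nonneg (W f b u)]
    calc ∑ u, W f b u ^ 4 ≤ ∑ u, 256 * W f b u ^ 2 := sum_le_sum fun u _ => h8 u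
      _ ≤ 32505856 := by rw [← mul_sum, h6]; norm_num
  · have h8 : ∀ u, W f b u ^ 4 = 640 * W f b u ^ 2 - 36864 := by
      intro u
      obtain ⟨k, hk⟩ := hs u
      have h9 := hb u
      rw [abs_lt] at h9
      have h10 : W f b u = 8 ∨ W f b u = -8 ∨ W f b u = 24 ∨ W f b u = -24 := by omega
      rcases h10 with h | h | h | h <;> rw [h] <;> norm_num
    have h9 : ∑ u, W f b u ^ 4 = 32505856 := by
      simp only [h8, sum_sub_distrib, ← mul_sum, h6]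
      rw [sum_const, nsmul_eq_mul, card_vec]
      norm_num
    exact h9.le

/-- cubic maps in eight variables. -/
theorem cubic_eight (f : (Fin 8 → ZMod 2) → (Fin 8 → ZMod 2)) (hf : DegreeLE 3 f) :
    ∃ b, b ≠ 0 ∧ ∃ u, (32 : ℤ) ≤ |W f b u| := by
  by_contra hcon
  push Not at hcon
  have h1 := moment f
  have h2 : ∑ b ∈ univ.erase (0 : Fin 8 → ZMod 2), 256 * ∑ e, AC f b e ^ 2 ≤
      ∑ b ∈ univ.erase (0 : Fin 8 → ZMod 2), (32505856 : ℤ) := by
    refine sum_le_sum fun b hb => ?_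
    have h3 := sum_AC_sq f b
    have h4 := cubic_component f hf b (hcon b (ne_of_mem_erase hb))
    rw [← h3] at h4
    norm_num at h4 ⊢
    exact h4
  rw [← mul_sum, sum_const, nsmul_eq_mul, card_erase_vec] at h2
  norm_num at h1 h2
  linarith

/-- common zeros of three combinations of the coordinates of `v` and of `f v`. -/
def zeros3 (f : (Fin n → ZMod 2) → (Fin n → ZMod 2)) (b1 u1 b2 u2 b3 u3 : Fin n → ZMod 2) :
    Finset (Fin n → ZMod 2) :=
  univ.filter fun v => b1 ⬝ᵥ f v + u1 ⬝ᵥ v = 0 ∧ b2 ⬝ᵥ f v + u2 ⬝ᵥ v = 0 ∧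
    b3 ⬝ᵥ f v + u3 ⬝ᵥ v = 0

lemma third_eq (f : (Fin n → ZMod 2) → (Fin n → ZMod 2)) (b1 u1 b2 u2 b3 u3 : Fin n → ZMod 2) :
    W f 0 0 + W f b1 u1 + W f b2 u2 + W f b3 u3 + W f (b1 + b2) (u1 + u2)
      + W f (b1 + b3) (u1 + u3) + W f (b2 + b3) (u2 + u3)
      + W f (b1 + b2 + b3) (u1 + u2 + u3) = 8 * ((zeros3 f b1 u1 b2 u2 b3 u3).card : ℤ) := by
  have h : ((zeros3 f b1 u1 b2 u2 b3 u3).card : ℤ) =
      ∑ v, if b1 ⬝ᵥ f v + u1 ⬝ᵥ v = 0 ∧ b2 ⬝ᵥ f v + u2 ⬝ᵥ v = 0 ∧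
        b3 ⬝ᵥ f v + u3 ⬝ᵥ v = 0 then (1 : ℤ) else 0 := by
    rw [zeros3, card_filter]
    push_cast
    rfl
  rw [h, mul_sum]
  simp only [W, ← sum_add_distrib]
  refine sum_congr rfl fun v _ => ?_
  have h2 : ∀ x y z : ZMod 2, (8 : ℤ) * (if x = 0 ∧ y = 0 ∧ z = 0 then 1 else 0) =
      (1 + chi x) * (1 + chi y) * (1 + chi z) := by decide
  rw [h2]
  simp only [add_dotProduct, zero_dotProduct, chi_add, chi_zero]
  ring

/-- the criterion for arbitrary maps. -/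
theorem quad_criterion (m : ℕ) (hm : 3 ≤ m)
    (f : (Fin (2 * m) → ZMod 2) → (Fin (2 * m) → ZMod 2))
    (h1 : ∀ b u, (2 : ℤ) ^ (m - 1) ∣ W f b u)
    (h2 : ∀ b1 u1 b2 u2 b3 u3, 2 ^ (m - 3) ∣ (zeros3 f b1 u1 b2 u2 b3 u3).card) :
    ∃ b, b ≠ 0 ∧ ∃ u, (2 : ℤ) ^ (m + 1) ≤ |W f b u| := by
  by_contra hcon
  push Not at hcon
  obtain ⟨j, rfl⟩ : ∃ j, m = j + 3 := ⟨m - 3, by omega⟩
  simp only [show j + 3 - 1 = j + 2 by omega, Nat.add_sub_cancel] at h1 h2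
  choose k hk using h1
  have hM : (0 : ℤ) < 2 ^ (j + 2) := by positivity
  have hN : (2 : ℤ) ^ (2 * (j + 3)) = 4 * (2 ^ (j + 2)) ^ 2 := by
    rw [← pow_mul, show 2 * (j + 3) = (j + 2) * 2 + 2 by ring, pow_add]
    norm_num
    ring
  have h0 : ∀ u, ((k 0 u : ℤ) : ZMod 2) = 0 := by
    intro u
    have h3 := W_zero f u
    rw [hk, hN] at h3
    rw [ZMod.intCast_zmod_eq_zero_iff_dvd]
    split_ifs at h3
    · have h4 : k 0 u = 4 * 2 ^ (j + 2) := by
        apply mul_left_cancel₀ hM.ne'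
        rw [h3]
        ring
      rw [h4]
      exact ⟨2 * 2 ^ (j + 2), by push_cast; ring⟩
    · have h4 : k 0 u = 0 := (mul_eq_zero.1 h3).resolve_left hM.ne'
      rw [h4]
      exact dvd_zero _
  have h3 : ∀ b1 u1 b2 u2 b3 u3 : Fin (2 * (j + 3)) → ZMod 2,
      ((k 0 0 : ℤ) : ZMod 2) + ((k b1 u1 : ℤ) : ZMod 2)
      + ((k b2 u2 : ℤ) : ZMod 2) + ((k b3 u3 : ℤ) : ZMod 2)
      + ((k (b1 + b2) (u1 + u2) : ℤ) : ZMod 2)
      + ((k (b1 + b3) (u1 + u3) : ℤ) : ZMod 2)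
      + ((k (b2 + b3) (u2 + u3) : ℤ) : ZMod 2)
      + ((k (b1 + b2 + b3) (u1 + u2 + u3) : ℤ) : ZMod 2) = 0 := by
    intro b1 u1 b2 u2 b3 u3
    rw [← Int.cast_add, ← Int.cast_add, ← Int.cast_add, ← Int.cast_add, ← Int.cast_add,
      ← Int.cast_add, ← Int.cast_add]
    rw [ZMod.intCast_zmod_eq_zero_iff_dvd]
    have ht := third_eq f b1 u1 b2 u2 b3 u3
    obtain ⟨z, hz⟩ := h2 b1 u1 b2 u2 b3 u3
    simp only [hk] at ht
    rw [hz] at ht
    refine ⟨(z : ℤ), ?_⟩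
    apply mul_left_cancel₀ hM.ne'
    push_cast at ht ⊢
    have h5 : (2 : ℤ) ^ (j + 2) = 4 * 2 ^ j := by rw [pow_add]; ring
    rw [h5] at ht ⊢
    linarith
  obtain ⟨e, he1, he2⟩ := structure_aux (fun b u => ((k b u : ℤ) : ZMod 2)) h0 h3
  have D : QData (2 * (j + 3)) (2 ^ (j + 2)) f :=
    { e := e
      q := fun b => ((k b 0 : ℤ) : ZMod 2)
      k := k
      e_add := he1
      q_zero := h0 0
      q3 := by
        intro a b c
        have := h3 a 0 b 0 c 0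
        simp only [add_zero, h0, zero_add] at this
        exact this
      hk := hk
      par := he2
      bound := by
        intro b hb u
        have h4 := hcon b hb u
        rw [hk b u, abs_mul, abs_of_pos hM] at h4
        have h5 : (2 : ℤ) ^ (j + 3 + 1) = 2 ^ (j + 2) * 4 := by
          rw [show j + 3 + 1 = j + 2 + 2 by ring, pow_add]
          norm_num
        rw [h5] at h4
        have h6 : |k b u| < 4 := lt_of_mul_lt_mul_left h4 hM.le
        omega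
      hN := hN
      hM := by
        have : (1 : ℤ) ≤ 2 ^ j := one_le_pow₀ (by norm_num)
        have h5 : (2 : ℤ) ^ (j + 2) = 4 * 2 ^ j := by rw [pow_add]; ring
        rw [h5]
        linarith }
  exact D.contradiction

end Pool.Agent.Lib.MP_ea66ba_co
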