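import Mathlib
import Pool.Agent.Lib.MP_ea66ba_co.CosetQ

set_option autoImplicit false

/-!
Maps of the 8-dimensional space with value sum zero and exactly 64 components of degree at most
six, all of weight divisible by four.
-/

namespace Pool.Agent.Lib.MP_ea66ba_co

open Finset Matrix

/-- number of solutions of `f x + f (x + t) = D` -/
def Nd {n : ℕ} (f : (Fin n → ZMod 2) → (Fin n → ZMod 2)) (t D : Fin n → ZMod 2) : ℤ :=
  ((univ.filter fun x => f x + f (x + t) = D).card : ℤ)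

lemma Nd_cases {n : ℕ} (f : (Fin n → ZMod 2) → (Fin n → ZMod 2)) (t D : Fin n → ZMod 2)
    (ht : t ≠ 0) : Nd f t D = 0 ∨ 2 ≤ Nd f t D := by
  rcases (univ.filter fun x => f x + f (x + t) = D).eq_empty_or_nonempty with h | ⟨x, hx⟩
  · left
    rw [Nd, h]
    simp
  · right
    rw [Nd]
    have h1 : 1 < (univ.filter fun x => f x + f (x + t) = D).card := by
      rw [one_lt_card]
      refine ⟨x, hx, x + t, ?_, ?_⟩
      · rw [mem_filter] at hx ⊢
        refine ⟨mem_univ _, ?_⟩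
        rw [add_assoc x t t, add_self_vec, add_zero, add_comm]
        exact hx.2
      · intro h
        apply ht
        have := congrArg (fun z => x + z) h
        simp only [← add_assoc, add_self_vec, zero_add] at this
        exact this.symm
    exact_mod_cast h1

lemma sum_Nd {n : ℕ} (f : (Fin n → ZMod 2) → (Fin n → ZMod 2)) (t : Fin n → ZMod 2)
    (g : (Fin n → ZMod 2) → ℤ) : ∑ x, g (f x + f (x + t)) = ∑ D, g D * Nd f t D := by
  rw [← sum_fiberwise univ (fun x => f x + f (x + t)) (fun x => g (f x + f (x + t)))]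
  refine sum_congr rfl fun D _ => ?_
  have h1 : ∀ x ∈ univ.filter (fun x => f x + f (x + t) = D), g (f x + f (x + t)) = g D := by
    intro x hx
    rw [mem_filter] at hx
    rw [hx.2]
  rw [sum_congr rfl h1, sum_const, nsmul_eq_mul, Nd, mul_comm]

lemma sum_AC_Nd {n : ℕ} (f : (Fin n → ZMod 2) → (Fin n → ZMod 2)) (t : Fin n → ZMod 2) :
    ∑ b, AC f b t ^ 2 = 2 ^ n * ∑ D, Nd f t D ^ 2 := by
  have h1 : ∀ b : Fin n → ZMod 2, AC f b t ^ 2 =
      ∑ x, ∑ y, chi (b ⬝ᵥ ((f x + f (x + t)) + (f y + f (y + t)))) := by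
    intro b
    rw [AC, sq, sum_mul_sum]
    refine sum_congr rfl fun u _ => sum_congr rfl fun w _ => ?_
    rw [dotProduct_add b (f u + f (u + t)), chi_add]
  simp only [h1]
  rw [sum_comm]
  have h2 : ∀ x : Fin n → ZMod 2,
      ∑ b : Fin n → ZMod 2, ∑ y, chi (b ⬝ᵥ ((f x + f (x + t)) + (f y + f (y + t)))) =
      2 ^ n * Nd f t (f x + f (x + t)) := by
    intro x
    rw [sum_comm]
    simp only [sum_chi_dot, add_eq_zero_iff_vec]
    rw [← sum_filter, sum_const, nsmul_eq_mul, Nd, mul_comm]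
  simp only [h2]
  rw [← mul_sum, sum_Nd f t (fun D => Nd f t D)]
  congr 1
  exact sum_congr rfl fun D _ => by ring

lemma ptw64 (N g : ℤ) (hN : N = 0 ∨ 2 ≤ N) (hg : g = 0 ∨ g = 64 ∨ g = -64) :
    -(121 * g ^ 2) - 7744 * g ≤ 32 * (256 * N ^ 2 - 80 * (g * N) - 512 * N) := by
  have hN0 : 0 ≤ N := by rcases hN with h | h <;> linarith
  rcases hg with rfl | rfl | rfl
  · rcases hN with rfl | h
    · norm_num
    · nlinarith
  · nlinarith [sq_nonneg (N - 11)]
  · nlinarith

/-- autocorrelations at a slope. -/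
lemma slope64 (f : (Fin 8 → ZMod 2) → (Fin 8 → ZMod 2)) (t : Fin 8 → ZMod 2) (ht : t ≠ 0)
    (g : (Fin 8 → ZMod 2) → ℤ) (hg : ∀ D, g D = 0 ∨ g D = 64 ∨ g D = -64)
    (hg2 : ∑ D, g D ^ 2 = 16384) (hg1 : ∑ D, g D = 0) :
    69120 + 80 * ∑ x, g (f x + f (x + t)) ≤ ∑ b, AC f b t ^ 2 := by
  have p8 : (2 : ℤ) ^ 8 = 256 := by norm_num
  rw [sum_Nd, sum_AC_Nd, p8]
  have h1 := sum_le_sum fun D (_ : D ∈ (univ : Finset (Fin 8 → ZMod 2))) =>
    ptw64 (Nd f t D) (g D) (Nd_cases f t D ht) (hg D)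
  have h2 : ∑ D, Nd f t D = 256 := by
    have := sum_Nd f t (fun _ => 1)
    simp only [one_mul] at this
    rw [← this, sum_const, nsmul_eq_mul, card_vec, p8, mul_one]
  rw [sum_sub_distrib, ← mul_sum, sum_neg_distrib, ← mul_sum, ← mul_sum, hg2, hg1,
    sum_sub_distrib, sum_sub_distrib, ← mul_sum, ← mul_sum, ← mul_sum, h2] at h1
  linarith

section

variable (e : (Fin 8 → ZMod 2) → (Fin 8 → ZMod 2)) (he : ∀ b b', e (b + b') = e b + e b')
  (q : (Fin 8 → ZMod 2) → ZMod 2) (β : (Fin 8 → ZMod 2) → (Fin 8 → ZMod 2) → ZMod 2)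
  (hβ : ∀ b b' d, β (b + b') d = β b d + β b' d) (hs : ∀ b d, β b d = β d b)
  (hq : ∀ b d, q (b + d) = q b + q d + β b d)
  (f : (Fin 8 → ZMod 2) → (Fin 8 → ZMod 2))

include he in
lemma fib_sum (b0 : Fin 8 → ZMod 2) (F : (Fin 8 → ZMod 2) → ℤ) :
    ∑ b ∈ univ.filter (fun b => e b = e b0), F b = ∑ k ∈ Ker e, F (b0 + k) := by
  refine sum_bij' (fun b _ => b0 + b) (fun k _ => b0 + k) ?_ ?_ ?_ ?_ ?_
  · intro b hb
    rw [mem_filter] at hb
    rw [mem_Ker, he, hb.2, add_self_vec]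
  · intro k hk
    rw [mem_Ker] at hk
    rw [mem_filter]
    exact ⟨mem_univ _, by rw [he, hk, add_zero]⟩
  · intro b _
    rw [← add_assoc, add_self_vec, zero_add]
  · intro b _
    rw [← add_assoc, add_self_vec, zero_add]
  · intro b _
    rw [← add_assoc, add_self_vec, zero_add]

include he hβ hs hq in
/-- the inequality for one slope. -/
lemma one64 (hK : (Ker e).card = 64) (hq0 : ∀ k ∈ Ker e, q k = 0) (b0 : Fin 8 → ZMod 2)
    (hb0 : e b0 ≠ 0) :
    69120 + 80 * ∑ b ∈ univ.filter (fun b => e b = e b0), chi (q b) * AC f b (e b) ≤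
      ∑ b, AC f b (e b0) ^ 2 := by
  have hR : RadK e β = Ker e := by
    ext d
    rw [mem_RadK]
    refine ⟨fun h => h.1, fun h => ⟨h, fun k hk => ?_⟩⟩
    have h1 := hq k d
    rw [hq0 k hk, hq0 d h, hq0 _ (Ker_add e he k d hk h)] at h1
    have h2 : ∀ a : ZMod 2, 0 = 0 + 0 + a → a = 0 := by decide
    exact h2 _ h1
  set g : (Fin 8 → ZMod 2) → ℤ := fun D => chi (q b0 + b0 ⬝ᵥ D) * Gam e q β b0 D with hg
  have hg0 : ∀ D, g D = 0 ∨ g D = 64 ∨ g D = -64 := by
    intro D
    have h1 := Gam_cases e he q β hβ hs hq b0 D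
    rw [hR, hK] at h1
    have h2 : Gam e q β b0 D = 0 ∨ Gam e q β b0 D = 64 ∨ Gam e q β b0 D = -64 := by
      rcases h1 with h1 | h1
      · left
        exact pow_eq_zero_iff (two_ne_zero) |>.1 h1
      · right
        have h3 : (Gam e q β b0 D - 64) * (Gam e q β b0 D + 64) = 0 := by
          push_cast at h1
          linarith
        rcases mul_eq_zero.1 h3 with h4 | h4
        · left
          linarith
        · right
          linarith
    simp only [hg]
    rcases chi_cases (q b0 + b0 ⬝ᵥ D) with h | h <;> rw [h] <;>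
      rcases h2 with h2 | h2 | h2 <;> rw [h2] <;> norm_num
  have hg2 : ∑ D, g D ^ 2 = 16384 := by
    have h1 : ∀ D, g D ^ 2 = (Ker e).card * ∑ d ∈ RadK e β, chi (q d + β d b0 + d ⬝ᵥ D) := by
      intro D
      rw [← Gam_sq e he q β hβ hs hq]
      simp only [hg]
      rw [mul_pow, sq (chi (q b0 + b0 ⬝ᵥ D)), chi_mul_self, one_mul]
    simp only [h1, ← mul_sum]
    rw [sum_comm, hK]
    have h2 : ∀ d ∈ RadK e β, ∑ D : Fin 8 → ZMod 2, chi (q d + β d b0 + d ⬝ᵥ D) =
        if d = 0 then 256 else 0 := by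
      intro d _
      have h3 : ∀ D : Fin 8 → ZMod 2, chi (q d + β d b0 + d ⬝ᵥ D) =
          chi (q d + β d b0) * chi (D ⬝ᵥ d) := by
        intro D
        rw [chi_add, dotProduct_comm d D]
      simp only [h3, ← mul_sum, sum_chi_dot]
      split_ifs with h4
      · have hq00 : q 0 = 0 := hq0 0 ((mem_Ker e 0).2 (e_zero' e he))
        rw [h4, hq00, β_zero β hβ, add_zero, chi_zero]
        norm_num
      · ring
    rw [sum_congr rfl h2, sum_ite_eq' (RadK e β) 0 (fun _ => (256 : ℤ)),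
      if_pos (zero_mem_RadK e he β hβ hs)]
    norm_num
  have hg1 : ∑ D, g D = 0 := by
    have h1 : ∀ D, g D = ∑ k ∈ Ker e, chi (q b0 + (q k + β k b0)) * chi (D ⬝ᵥ (b0 + k)) := by
      intro D
      simp only [hg, Gam, mul_sum]
      refine sum_congr rfl fun k _ => ?_
      rw [← chi_add, ← chi_add]
      congr 1
      rw [dotProduct_add, dotProduct_comm D b0, dotProduct_comm D k]
      abel
    simp only [h1]
    rw [sum_comm]
    refine sum_eq_zero fun k hk => ?_
    rw [← mul_sum, sum_chi_dot, if_neg, mul_zero]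
    intro h
    apply hb0
    have h2 := congrArg e h
    rw [he, (mem_Ker e k).1 hk, add_zero, e_zero' e he] at h2
    exact h2
  have h1 := slope64 f (e b0) hb0 g hg0 hg2 hg1
  have h2 : ∑ b ∈ univ.filter (fun b => e b = e b0), chi (q b) * AC f b (e b) =
      ∑ x, g (f x + f (x + e b0)) := by
    rw [fib_sum e he b0 (fun b => chi (q b) * AC f b (e b))]
    have h3 : ∀ k ∈ Ker e, chi (q (b0 + k)) * AC f (b0 + k) (e (b0 + k)) =
        ∑ x, chi (q b0 + b0 ⬝ᵥ (f x + f (x + e b0))) *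
          chi (q k + β k b0 + k ⬝ᵥ (f x + f (x + e b0))) := by
      intro k hk
      rw [he, (mem_Ker e k).1 hk, add_zero, AC, mul_sum]
      refine sum_congr rfl fun x _ => ?_
      rw [← chi_add, ← chi_add]
      congr 1
      rw [hq, add_dotProduct, hs b0 k]
      abel
    rw [sum_congr rfl h3, sum_comm]
    refine sum_congr rfl fun x _ => ?_
    simp only [hg, Gam, mul_sum]
  rw [h2]
  exact h1

include he hβ hs hq in
/-- the moment if there are 64 components of degree at most six. -/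
lemma moment64 (hK : (Ker e).card = 64) (hq0 : ∀ k ∈ Ker e, q k = 0) :
    2127200256 + 5120 * outq e q f ≤
      64 * ∑ b ∈ univ.erase (0 : Fin 8 → ZMod 2), ∑ e', AC f b e' ^ 2 := by
  have p8 : (2 : ℤ) ^ 8 = 256 := by norm_num
  -- interchange
  have h1 : ∑ b ∈ univ.erase (0 : Fin 8 → ZMod 2), ∑ e', AC f b e' ^ 2 =
      ∑ e' ∈ univ.erase (0 : Fin 8 → ZMod 2), ∑ b, AC f b e' ^ 2 := by
    have h2 := sum_comm (s := (univ : Finset (Fin 8 → ZMod 2)))
      (t := (univ : Finset (Fin 8 → ZMod 2))) (f := fun b e' => AC f b e' ^ 2)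
    rw [← add_sum_erase univ (fun b => ∑ e', AC f b e' ^ 2) (mem_univ (0 : Fin 8 → ZMod 2)),
      ← add_sum_erase univ (fun e' => ∑ b, AC f b e' ^ 2) (mem_univ (0 : Fin 8 → ZMod 2))] at h2
    simp only [AC_zero_left, AC_zero_right] at h2
    linarith
  -- each direction
  have h2 : ∀ e' ∈ univ.erase (0 : Fin 8 → ZMod 2),
      8388608 + 5120 * ∑ b ∈ univ.filter (fun b => e b = e'), chi (q b) * AC f b (e b) -
        61952 * ((univ.filter (fun b => e b = e')).card : ℤ) ≤ 64 * ∑ b, AC f b e' ^ 2 := by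
    intro e' he'
    have he0 := ne_of_mem_erase he'
    rcases (univ.filter (fun b => e b = e')).eq_empty_or_nonempty with h | ⟨b0, hb0⟩
    · rw [h, sum_empty, card_empty]
      have h3 := sum_b_AC_sq f e' he0
      rw [p8] at h3
      push_cast
      linarith
    · rw [mem_filter] at hb0
      have h3 := hb0.2
      subst h3
      have h4 := one64 e he q β hβ hs hq f hK hq0 b0 he0
      have h5 := fib_sum e he b0 (fun _ => (1 : ℤ))
      rw [sum_const, sum_const, nsmul_eq_mul, nsmul_eq_mul, mul_one, mul_one, hK] at h5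
      rw [h5]
      push_cast
      linarith
  have h3 := sum_le_sum h2
  rw [← mul_sum, ← h1, sum_sub_distrib, sum_add_distrib, ← mul_sum, ← mul_sum, sum_const,
    nsmul_eq_mul, card_erase_vec, p8] at h3
  -- the sums over the fibres
  have h4 : ∀ F : (Fin 8 → ZMod 2) → ℤ,
      ∑ e' ∈ univ.erase (0 : Fin 8 → ZMod 2), ∑ b ∈ univ.filter (fun b => e b = e'), F b =
      ∑ b ∈ (Ker e)ᶜ, F b := by
    intro F
    have h5 := sum_fiberwise univ e F
    rw [← add_sum_erase univ _ (mem_univ (0 : Fin 8 → ZMod 2))] at h5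
    have h6 := sum_add_sum_compl (Ker e) F
    have h7 : univ.filter (fun b => e b = 0) = Ker e := by
      ext b
      rw [mem_filter, mem_Ker]
      simp
    rw [h7] at h5
    linarith
  rw [h4 (fun b => chi (q b) * AC f b (e b))] at h3
  have h5 : ∑ e' ∈ univ.erase (0 : Fin 8 → ZMod 2),
      ((univ.filter (fun b => e b = e')).card : ℤ) = 192 := by
    have h6 := h4 (fun _ => 1)
    simp only [sum_const, nsmul_eq_mul, mul_one] at h6
    rw [h6]
    have h11 := card_compl_add_card (Ker e)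
    have h12 : Fintype.card (Fin 8 → ZMod 2) = 256 := by simp
    have h13 : (Ker e)ᶜ.card = 192 := by omega
    rw [h13]
    norm_num
  rw [h5] at h3
  rw [outq]
  linarith

end

/-- maps of the 8-dimensional space with value sum zero: the sum of the signs of half the
weights over the components of degree at most six is at most 64. -/
theorem eight_all (f : (Fin 8 → ZMod 2) → (Fin 8 → ZMod 2)) (hf : ∑ v, f v = 0)
    (a : (Fin 8 → ZMod 2) → ℤ) (ha : ∀ b, wt (fun v => b ⬝ᵥ f v) = 2 * a b)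
    (hc : ∑ b ∈ Ker (slope f), chi ((a b : ℤ) : ZMod 2) ≤ 64) :
    ∃ b, b ≠ 0 ∧ ∃ u, (28 : ℤ) ≤ |W f b u| := by
  by_cases h64 : (Ker (slope f)).card = 64 ∧
      ∑ b ∈ Ker (slope f), chi ((a b : ℤ) : ZMod 2) = 64
  swap
  · refine eight_full f hf a ha ?_
    rcases lt_or_eq_of_le hc with h | h
    · exact Or.inl h
    · right
      refine ⟨?_, hc⟩
      have h1 : ∑ b ∈ Ker (slope f), chi ((a b : ℤ) : ZMod 2) ≤ ∑ b ∈ Ker (slope f), (1 : ℤ) := by
        refine sum_le_sum fun b _ => ?_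
        rcases chi_cases ((a b : ℤ) : ZMod 2) with h | h <;> rw [h] <;> norm_num
      rw [h, sum_const, nsmul_eq_mul, mul_one] at h1
      have h2 : 64 ≤ (Ker (slope f)).card := by exact_mod_cast h1
      have h3 : (Ker (slope f)).card ≠ 64 := fun h4 => h64 ⟨h4, h⟩
      omega
  obtain ⟨hK, hG64⟩ := h64
  by_contra hcon
  push Not at hcon
  have he := slope_add f
  set q : (Fin 8 → ZMod 2) → ZMod 2 := fun b => ((a b : ℤ) : ZMod 2) with hqdef
  set β : (Fin 8 → ZMod 2) → (Fin 8 → ZMod 2) → ZMod 2 :=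
    fun b d => ∑ v, (b ⬝ᵥ f v) * (d ⬝ᵥ f v) with hβdef
  have hβ : ∀ b b' d, β (b + b') d = β b d + β b' d := by
    intro b b' d
    simp only [hβdef, add_dotProduct, add_mul, sum_add_distrib]
  have hs : ∀ b d, β b d = β d b := by
    intro b d
    simp only [hβdef, mul_comm]
  have hq : ∀ b d, q (b + d) = q b + q d + β b d := by
    intro b d
    have h1 : wt (fun v => (b + d) ⬝ᵥ f v) = wt (fun v => b ⬝ᵥ f v) + wt (fun v => d ⬝ᵥ f v)
        - 2 * wt (fun v => (b ⬝ᵥ f v) * (d ⬝ᵥ f v)) := by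
      rw [← wt_add]
      exact congrArg wt (funext fun v => by rw [add_dotProduct])
    rw [ha, ha, ha] at h1
    have h2 : a (b + d) = a b + a d - wt (fun v => (b ⬝ᵥ f v) * (d ⬝ᵥ f v)) := by linarith
    simp only [hqdef, hβdef]
    rw [h2, Int.cast_sub, Int.cast_add, wt_cast, CharTwo.sub_eq_add]
  have hk : ∀ b u, ∃ k : ℤ, W f b u = 4 * k ∧ ((k : ℤ) : ZMod 2) = q b + slope f b ⬝ᵥ u := by
    intro b u
    have h1 : W f b u = 2 ^ 8 - 2 * wt (fun v => b ⬝ᵥ f v + u ⬝ᵥ v) :=
      sum_chi_eq (fun v => b ⬝ᵥ f v + u ⬝ᵥ v)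
    have h3 := wt_comp (Equiv.refl _) u
    simp only [Equiv.refl_apply] at h3
    rw [wt_add, ha] at h1
    refine ⟨2 * (32 * (if u = 0 then 1 else 0) - a b) + a b
      + wt (fun v => (b ⬝ᵥ f v) * (u ⬝ᵥ v)), ?_, ?_⟩
    · rw [h1]
      have h4 : (if u = 0 then (2 : ℤ) ^ 8 else 0) = 256 * (if u = 0 then 1 else 0) := by
        split_ifs <;> norm_num
      rw [h4] at h3
      linarith
    · rw [Int.cast_add, Int.cast_add, Int.cast_mul, wt_cast, slope_dot]
      have : ((2 : ℤ) : ZMod 2) = 0 := by decide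
      rw [this, zero_mul, zero_add]
  have hL : ∀ d, d ≠ 0 → ∀ u, |W f d u| ≤ 24 := by
    intro d hd u
    obtain ⟨k, hk, -⟩ := hk d u
    exact bound_le _ k hk (hcon d hd u)
  have hB : ∀ k, k ≠ 0 → ∀ u, W f k u ^ 2 ≤ 576 := fun k hk u => sq_le_of _ (hL k hk u)
  have e0 : slope f 0 = 0 := by
    have := he 0 0
    rw [add_zero, add_self_vec] at this
    exact this
  have hz : (0 : Fin 8 → ZMod 2) ∈ Ker (slope f) := (mem_Ker _ 0).2 e0
  have hpos : 1 ≤ (Ker (slope f)).card := card_pos.2 ⟨0, hz⟩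
  have p8 : (2 : ℤ) ^ 8 = 256 := by norm_num
  have h1 := moment f
  have hcomp : ∀ b, b ≠ 0 → 512 * ∑ e, AC f b e ^ 2 ≤ 63373312
      + 40960 * (chi (q b) * AC f b (slope f b)) +
      (if slope f b = 0 then 1638400 * chi (q b) else 0) := by
    intro b hb
    have h1 : ∀ u, 2 * W f b u ^ 4 ≤ 992 * (W f b u ^ 2 * chi (u ⬝ᵥ (0 : Fin 8 → ZMod 2)))
        + 160 * chi (q b) * (W f b u ^ 2 * chi (u ⬝ᵥ slope f b)) - 6400
        + 6400 * chi (q b) * chi (u ⬝ᵥ slope f b) := by
      intro u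
      obtain ⟨k, hk, hk2⟩ := hk b u
      have h4 := ptw_six k (bound_six _ k hk (hcon b hb u))
      rw [hk2, dotProduct_comm, chi_add] at h4
      rw [hk, dotProduct_zero, chi_zero]
      have h5 := scale_six k _ h4
      linarith
    have h2 : ∑ u, 2 * W f b u ^ 4 ≤ 992 * (2 ^ 8 * AC f b 0)
        + 160 * chi (q b) * (2 ^ 8 * AC f b (slope f b)) - 6400 * 256
        + 6400 * chi (q b) * (if slope f b = 0 then 2 ^ 8 else 0) := by
      refine (sum_le_sum fun u _ => h1 u).trans (le_of_eq ?_)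
      simp only [sum_add_distrib, sum_sub_distrib, ← mul_sum, sum_W_sq, sum_chi_dot]
      rw [sum_const, nsmul_eq_mul, card_vec]
      norm_num
    have h3 := sum_AC_sq f b
    rw [← mul_sum, ← h3, AC_zero_right, p8] at h2
    rcases chi_cases (q b) with h | h <;> rw [h] at h2 ⊢ <;> split_ifs at h2 ⊢ <;> linarith
  -- the components outside and inside the kernel
  have hout : ∀ b ∈ (Ker (slope f))ᶜ, 512 * ∑ e, AC f b e ^ 2 ≤ 63373312
      + 40960 * (chi (q b) * AC f b (slope f b)) := by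
    intro b hb
    rw [mem_compl, mem_Ker] at hb
    have hb0 : b ≠ 0 := by
      rintro rfl
      exact hb e0
    have := hcomp b hb0
    rw [if_neg hb, add_zero] at this
    exact this
  have hin : ∀ b ∈ (Ker (slope f)).erase 0,
      512 * ∑ e, AC f b e ^ 2 ≤ 63373312 + 12124160 * chi (q b) := by
    intro b hb
    have hb0 := ne_of_mem_erase hb
    have hbk := (mem_Ker _ b).1 (mem_of_mem_erase hb)
    have := hcomp b hb0
    rw [if_pos hbk, hbk, AC_zero_right, p8] at this
    linarith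
  have hsplit : ∑ b ∈ univ.erase (0 : Fin 8 → ZMod 2), ∑ e, AC f b e ^ 2 =
      ∑ b ∈ (Ker (slope f))ᶜ, ∑ e, AC f b e ^ 2 +
      ∑ b ∈ (Ker (slope f)).erase 0, ∑ e, AC f b e ^ 2 := by
    have h3 := sum_add_sum_compl (Ker (slope f)) (fun b => ∑ e, AC f b e ^ 2)
    rw [← add_sum_erase univ _ (mem_univ (0 : Fin 8 → ZMod 2)),
      ← add_sum_erase (Ker (slope f)) _ hz] at h3
    linarith
  have hcc : ((Ker (slope f))ᶜ.card : ℤ) = 256 - (Ker (slope f)).card := by
    have h11 := card_compl_add_card (Ker (slope f))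
    have h12 : (Fintype.card (Fin 8 → ZMod 2) : ℤ) = 256 := by
      simp
    rw [← h11] at h12
    push_cast at h12
    linarith
  have q0 : q 0 = 0 := by
    have h5 := ha 0
    have h6 : wt (fun v => (0 : Fin 8 → ZMod 2) ⬝ᵥ f v) = 0 := by
      simp only [wt, zero_dotProduct, ZMod.val_zero]
      simp
    rw [h6] at h5
    have h7 : a 0 = 0 := by linarith
    simp only [hqdef, h7]
    simp
  set G : ℤ := ∑ b ∈ Ker (slope f), chi (q b) with hG
  have hGs : ∑ b ∈ (Ker (slope f)).erase 0, chi (q b) = G - 1 := by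
    rw [hG, ← add_sum_erase (Ker (slope f)) _ hz, q0, chi_zero]
    ring
  have h2 : 512 * ∑ b ∈ univ.erase (0 : Fin 8 → ZMod 2), ∑ e, AC f b e ^ 2 ≤
      255 * 63373312 + 40960 * outq (slope f) q f + (G - 1) * 12124160 := by
    rw [hsplit, mul_add, mul_sum, mul_sum]
    have h3 := sum_le_sum hout
    have h4 := sum_le_sum hin
    rw [sum_add_distrib, sum_const, nsmul_eq_mul, hcc,
      ← mul_sum (Ker (slope f))ᶜ (fun b => chi (q b) * AC f b (slope f b)) 40960] at h3
    rw [sum_add_distrib, sum_const, nsmul_eq_mul, card_erase_of_mem hz, Nat.cast_sub hpos,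
      Nat.cast_one, ← mul_sum ((Ker (slope f)).erase 0) (fun b => chi (q b)) 12124160, hGs] at h4
    rw [outq]
    linarith
  have hq0 : ∀ k ∈ Ker (slope f), q k = 0 := by
    intro k hk'
    by_contra hne
    have hk1 : chi (q k) = -1 := by
      have h3 : ∀ x : ZMod 2, x ≠ 0 → x = 1 := by decide
      rw [h3 _ hne, chi_one]
    have h3 : ∑ b ∈ (Ker (slope f)).erase k, chi (q b) ≤ ∑ b ∈ (Ker (slope f)).erase k, (1 : ℤ) := by
      refine sum_le_sum fun b _ => ?_
      rcases chi_cases (q b) with h | h <;> rw [h] <;> norm_num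
    rw [sum_const, nsmul_eq_mul, mul_one, card_erase_of_mem hk', hK] at h3
    have h4 := add_sum_erase (Ker (slope f)) (fun b => chi (q b)) hk'
    rw [← hG, hG64, hk1] at h4
    push_cast at h3
    linarith
  have h5 := moment64 (slope f) he q β hβ hs hq f hK hq0
  rw [hG64] at h2
  linarith

end Pool.Agent.Lib.MP_ea66ba_co
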